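import Pool.Agent.W_a2e04a_h82.Core

namespace Pool.Agent.W_a2e04a_h82

open Finset Filter Asymptotics

/-- Coefficients of the characteristic polynomial of `B * diag s` through the principal minors
of `B` (use `Matrix.charpoly_coeff_eq_sum_minors`; a minor of `B * diag s` is the minor of `B`
times the product of the `s i`). -/
lemma charpoly_coeff_diag {d : ℕ} (B : Matrix (Fin d) (Fin d) ℝ) (s : Fin d → ℝ) (k : ℕ)
    (hk : k ≤ d) :
    (B * Matrix.diagonal s).charpoly.coeff (d - k) =
      (-1) ^ k * ∑ K ∈ Finset.univ.powersetCard k, pm B K * ∏ i ∈ K, s i := by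
  have h := Matrix.charpoly_coeff_eq_sum_minors (B * Matrix.diagonal s) k
    (by rw [Fintype.card_fin]; exact hk)
  rw [Fintype.card_fin] at h
  rw [h]
  congr 1
  refine Finset.sum_congr rfl fun K _ => ?_
  have h1 : (B * Matrix.diagonal s).submatrix (Subtype.val : K → Fin d)
      (Subtype.val : K → Fin d) = Matrix.of fun i j : K => s j *
        (B.submatrix (Subtype.val : K → Fin d) (Subtype.val : K → Fin d)) i j := by
    ext i j
    rw [Matrix.submatrix_apply, Matrix.mul_diagonal, Matrix.of_apply, Matrix.submatrix_apply,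
      mul_comm]
  rw [h1, Matrix.det_mul_row, mul_comm]
  unfold pm
  congr 1
  exact Finset.prod_coe_sort K s

/-- The value of the characteristic polynomial. -/
lemma charpoly_eval_diag {d : ℕ} (B : Matrix (Fin d) (Fin d) ℝ) (s : Fin d → ℝ) (t : ℝ) :
    (B * Matrix.diagonal s).charpoly.eval t =
      ∑ K : Finset (Fin d), (-1) ^ K.card * pm B K * (∏ i ∈ K, s i) * t ^ (d - K.card) := by
  rw [← Finset.powerset_univ, Finset.sum_powerset, Finset.card_univ, Fintype.card_fin]
  have hnd : (B * Matrix.diagonal s).charpoly.natDegree = d := by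
    rw [Matrix.charpoly_natDegree_eq_dim, Fintype.card_fin]
  rw [Polynomial.eval_eq_sum_range, hnd, ← Finset.sum_range_reflect]
  refine Finset.sum_congr rfl fun k hk => ?_
  have hk' : k ≤ d := by
    have := Finset.mem_range.1 hk
    omega
  have h1 : d + 1 - 1 - k = d - k := by omega
  rw [h1, charpoly_coeff_diag B s k hk', Finset.mul_sum, Finset.sum_mul]
  refine Finset.sum_congr rfl fun K hK => ?_
  rw [(Finset.mem_powersetCard.1 hK).2]
  ring

/-- Comparison of the elementary symmetric functions. -/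
lemma esymm_diag {d : ℕ} (B : Matrix (Fin d) (Fin d) ℝ) (s : Fin d → ℝ) (κ : ℝ)
    (ξ : Fin d → ℝ) (h : HasEig (B * Matrix.diagonal s) κ ξ) (k : ℕ) :
    κ ^ k * ∑ K ∈ Finset.univ.powersetCard k, ∏ i ∈ K, ξ i =
      ∑ K ∈ Finset.univ.powersetCard k, pm B K * ∏ i ∈ K, s i := by
  rcases Nat.lt_or_ge d k with hk | hk
  · have h0 : (Finset.univ : Finset (Fin d)).powersetCard k = ∅ := by
      rw [Finset.powersetCard_eq_empty, Finset.card_univ, Fintype.card_fin]
      exact hk
    rw [h0, Finset.sum_empty, Finset.sum_empty, mul_zero]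
  · have h1 := charpoly_coeff_diag B s k hk
    have h2 := charpoly_coeff_diag (1 : Matrix (Fin d) (Fin d) ℝ) (fun i => κ * ξ i) k hk
    have h3 : ((1 : Matrix (Fin d) (Fin d) ℝ) * Matrix.diagonal fun i => κ * ξ i).charpoly =
        (B * Matrix.diagonal s).charpoly := by
      rw [h.2.2.2, one_mul, Matrix.charpoly_diagonal]
    rw [h3, h1] at h2
    have h4 : ((-1 : ℝ) ^ k) ≠ 0 := pow_ne_zero _ (by norm_num)
    have h5 := mul_left_cancel₀ h4 h2
    rw [h5, Finset.mul_sum]
    refine Finset.sum_congr rfl fun K hK => ?_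
    have h6 : pm (1 : Matrix (Fin d) (Fin d) ℝ) K = 1 := by
      unfold pm
      rw [Matrix.submatrix_one _ Subtype.val_injective, Matrix.det_one]
    rw [h6, one_mul, Finset.prod_mul_distrib, Finset.prod_const, (Finset.mem_powersetCard.1 hK).2]

end Pool.Agent.W_a2e04a_h82
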