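import Pool.Agent.W_a2e04a_h82.Core

namespace Pool.Agent.W_a2e04a_h82

open Finset Filter Asymptotics

/-- Principal minors of small size; hence the nonvanishing conditions. -/
lemma pm_empty {d : ℕ} (B : Matrix (Fin d) (Fin d) ℝ) : pm B ∅ = 1 := by
  unfold pm
  exact Matrix.det_isEmpty

lemma pm_single {d : ℕ} (B : Matrix (Fin d) (Fin d) ℝ) (i : Fin d) : pm B {i} = B i i := by
  unfold pm
  have h := Matrix.det_eq_elem_of_subsingleton
    (B.submatrix (Subtype.val : ({i} : Finset (Fin d)) → Fin d)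
      (Subtype.val : ({i} : Finset (Fin d)) → Fin d)) ⟨i, Finset.mem_singleton_self i⟩
  rw [h]
  rfl

lemma pm_pair {d : ℕ} (B : Matrix (Fin d) (Fin d) ℝ) (i j : Fin d) (hij : i ≠ j) :
    pm B {i, j} = B i i * B j j - B i j * B j i := by
  unfold pm
  let f : Fin 2 → ({i, j} : Finset (Fin d)) :=
    ![⟨i, Finset.mem_insert_self i {j}⟩,
      ⟨j, Finset.mem_insert_of_mem (Finset.mem_singleton_self j)⟩]
  have hf : Function.Bijective f := by
    constructor
    · intro a b hab
      have h2 := congrArg Subtype.val hab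
      fin_cases a <;> fin_cases b
      · rfl
      · exact absurd h2 hij
      · exact absurd h2 hij.symm
      · rfl
    · rintro ⟨k, hk⟩
      rcases Finset.mem_insert.1 hk with h | h
      · subst h
        exact ⟨0, rfl⟩
      · rw [Finset.mem_singleton] at h
        subst h
        exact ⟨1, rfl⟩
  rw [← Matrix.det_submatrix_equiv_self (Equiv.ofBijective f hf), Matrix.det_fin_two]
  rfl

lemma good_of_posPair {r : ℕ} {B : Matrix (Fin (r + 1)) (Fin (r + 1)) ℝ}
    {x : Fin (r + 1) → ℝ} {κ : ℕ → ℝ} {ξ : ℕ → Fin (r + 1) → ℝ} (h : PosPair B x κ ξ) :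
    Good (pm B) := by
  have hz : ∀ j : Fin r, (0 : Fin (r + 1)) ≠ j.succ := fun j => (Fin.succ_ne_zero j).symm
  refine ⟨pm_empty B, ?_, ?_, ?_⟩
  · rw [pm_single]
    exact (h.ent 0 0).1
  · intro j
    rw [pm_single]
    exact (h.ent _ _).1
  · intro j
    rw [pm_single, pm_single, pm_pair B 0 j.succ (hz j)]
    have h1 := (h.ent 0 j.succ).1
    have h2 := (h.ent j.succ 0).1
    have e : B 0 0 * B j.succ j.succ - (B 0 0 * B j.succ j.succ - B 0 j.succ * B j.succ 0) =
        B 0 j.succ * B j.succ 0 := by ring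
    rw [e]
    exact mul_ne_zero h1 h2

private lemma a2_telescope {r : ℕ} (f : Fin (r + 1) → ℝ) (j : Fin r) :
    ∑ i ∈ Finset.Iic j, (f i.castSucc - f i.succ) = f 0 - f j.succ := by
  obtain ⟨n, hn⟩ := j
  induction n with
  | zero =>
    have e : Finset.Iic (⟨0, hn⟩ : Fin r) = {⟨0, hn⟩} := by
      ext k
      simp only [Finset.mem_Iic, Finset.mem_singleton, Fin.le_def, Fin.ext_iff]
      omega
    rw [e, Finset.sum_singleton]
    rfl
  | succ n ih =>
    have e : Finset.Iic (⟨n + 1, hn⟩ : Fin r) =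
        insert ⟨n + 1, hn⟩ (Finset.Iic (⟨n, by omega⟩ : Fin r)) := by
      ext k
      simp only [Finset.mem_Iic, Finset.mem_insert, Fin.le_def, Fin.ext_iff]
      omega
    rw [e, Finset.sum_insert, ih (by omega)]
    · have e2 : (⟨n + 1, hn⟩ : Fin r).castSucc = (⟨n, by omega⟩ : Fin r).succ := rfl
      rw [e2]
      ring
    · simp only [Finset.mem_Iic, Fin.le_def]
      omega

/-- `pre (rootLen x) j = log (x 0 / x (j+1))`. -/
lemma pre_rootLen {r : ℕ} (x : Fin (r + 1) → ℝ) (hx : ∀ i, 0 < x i) (j : Fin r) :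
    pre (rootLen x) j = Real.log (x 0 / x j.succ) := by
  unfold pre
  rw [Real.log_div (hx _).ne' (hx _).ne', ← a2_telescope (fun i => Real.log (x i)) j]
  apply Finset.sum_congr rfl
  intro i _
  exact Real.log_div (hx _).ne' (hx _).ne'

lemma rootLen_pos {r : ℕ} (x : Fin (r + 1) → ℝ) (hx : ∀ i, 0 < x i) (hs : StrictAnti x)
    (i : Fin r) : 0 < rootLen x i := by
  apply Real.log_pos
  rw [one_lt_div (hx _)]
  exact hs (Fin.castSucc_lt_succ)

lemma sum_rootLen {r : ℕ} (x : Fin (r + 1) → ℝ) (hx : ∀ i, 0 < x i) :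
    ∑ i, rootLen x i = Real.log (x 0 / x (Fin.last r)) := by
  rcases r with - | r
  · rw [Finset.univ_eq_empty, Finset.sum_empty]
    have e : (Fin.last 0 : Fin (0 + 1)) = 0 := rfl
    rw [e, div_self (hx 0).ne', Real.log_one]
  · have h := pre_rootLen x hx (Fin.last r)
    unfold pre at h
    have e : Finset.Iic (Fin.last r) = Finset.univ := by
      ext k
      simp [Fin.le_last]
    rw [e, Fin.succ_last] at h
    exact h

/-- The reversed inverse sequence. -/
lemma rootLen_rev {r : ℕ} (x : Fin (r + 1) → ℝ) (hx : ∀ i, 0 < x i) :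
    rootLen (fun i => 1 / x (Fin.rev i)) = rootLen x ∘ Fin.rev := by
  funext i
  simp only [rootLen, Function.comp, Fin.rev_castSucc, Fin.rev_succ]
  congr 1
  have h1 := (hx (Fin.rev i).castSucc).ne'
  have h2 := (hx (Fin.rev i).succ).ne'
  field_simp

/-- Sequences with product one are determined by their root lengths. -/
lemma eq_of_rootLen {r : ℕ} (x y : Fin (r + 1) → ℝ) (hx : ∀ i, 0 < x i) (hy : ∀ i, 0 < y i)
    (px : ∏ i, x i = 1) (py : ∏ i, y i = 1) (h : rootLen x = rootLen y) : x = y := by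
  have h1 : ∀ j : Fin (r + 1), x 0 / x j = y 0 / y j := by
    intro j
    refine Fin.cases ?_ (fun k => ?_) j
    · rw [div_self (hx 0).ne', div_self (hy 0).ne']
    · have e1 := pre_rootLen x hx k
      have e2 := pre_rootLen y hy k
      rw [h, e2] at e1
      exact (Real.log_injOn_pos (div_pos (hy 0) (hy _)) (div_pos (hx 0) (hx _)) e1).symm
  have h2 : ∀ j, x j = x 0 / y 0 * y j := by
    intro j
    have e := h1 j
    have a1 := (hx j).ne'
    have a2 := (hy j).ne'
    have a3 := (hy 0).ne'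
    rw [div_eq_div_iff a1 a2] at e
    field_simp
    linarith
  have h3 : (x 0 / y 0) ^ (r + 1) = 1 := by
    have e : ∏ i, x i = ∏ i, (x 0 / y 0 * y i) := Finset.prod_congr rfl fun i _ => h2 i
    rw [Finset.prod_mul_distrib, px, py, mul_one, Finset.prod_const, Finset.card_univ,
      Fintype.card_fin] at e
    exact e.symm
  have h4 : x 0 / y 0 = 1 :=
    (pow_eq_one_iff_of_nonneg (div_pos (hx 0) (hy 0)).le (Nat.succ_ne_zero r)).1 h3
  funext j
  rw [h2 j, h4, one_mul]

end Pool.Agent.W_a2e04a_h82
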