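import Pool.Agent.W_a2e04a_h82.Core

namespace Pool.Agent.W_a2e04a_h82

open Finset Filter Asymptotics

private lemma A3a_pow {d : ℕ} (c : ℝ) (f : Fin d → ℝ) :
    c ^ d * ∏ i, f i = ∏ i, (c * f i) := by
  rw [Finset.prod_mul_distrib, Finset.prod_const, Finset.card_univ, Fintype.card_fin]

private lemma A3a_eval {d : ℕ} {M : Matrix (Fin d) (Fin d) ℝ} {ε : ℝ} {x : Fin d → ℝ}
    (h : HasEig M ε x) (t : ℝ) : (Matrix.scalar (Fin d) t - M).det = ∏ i, (t - ε * x i) := by
  rw [← Matrix.eval_charpoly, h.2.2.2, Polynomial.eval_prod]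
  simp

private lemma A3a_abs {ε : ℝ} (h : ε = 1 ∨ ε = -1) : |ε| = 1 := by
  rcases h with h | h <;> simp [h]

private lemma A3a_mul {ε : ℝ} (h : ε = 1 ∨ ε = -1) : ε * ε = 1 := by
  rcases h with h | h <;> simp [h]

private lemma A3a_det {d : ℕ} {M : Matrix (Fin d) (Fin d) ℝ} {ε : ℝ} {x : Fin d → ℝ}
    (h : HasEig M ε x) : M.det = ∏ i, (ε * x i) := by
  have h1 := A3a_eval h 0
  rw [map_zero, zero_sub, Matrix.det_neg, Fintype.card_fin] at h1
  have h2 : ∏ i, ((0 : ℝ) - ε * x i) = (-1) ^ d * ∏ i, (ε * x i) := by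
    rw [A3a_pow]
    simp
  rw [h2] at h1
  exact mul_left_cancel₀ (pow_ne_zero d (by norm_num)) h1

private lemma A3a_lin {d : ℕ} {M : Matrix (Fin d) (Fin d) ℝ} {ε : ℝ} {x : Fin d → ℝ}
    (h : HasEig M ε x) (t : ℝ) : (t • M - 1).det = ∏ i, (t * (ε * x i) - 1) := by
  rcases eq_or_ne t 0 with rfl | ht
  · rw [zero_smul, zero_sub, Matrix.det_neg, Matrix.det_one, Fintype.card_fin, mul_one]
    simp
  · have e : t • M - 1 = (-t) • (Matrix.scalar (Fin d) t⁻¹ - M) := by
      rw [smul_sub, neg_smul, neg_smul, sub_neg_eq_add, Matrix.scalar_apply,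
        ← Matrix.smul_one_eq_diagonal, smul_smul, mul_inv_cancel₀ ht, one_smul]
      abel
    rw [e, Matrix.det_smul, A3a_eval h, Fintype.card_fin, A3a_pow]
    refine Finset.prod_congr rfl fun i _ => ?_
    field_simp
    ring

/-- The product of the moduli is the absolute value of the determinant
(`Matrix.det_eq_sign_charpoly_coeff` or evaluate the characteristic polynomial at `0`). -/
lemma HasEig.prod_eq {d : ℕ} {M : Matrix (Fin d) (Fin d) ℝ} {ε : ℝ} {x : Fin d → ℝ}
    (h : HasEig M ε x) : ∏ i, x i = |M.det| := by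
  rw [A3a_det h, Finset.abs_prod]
  refine Finset.prod_congr rfl fun i _ => ?_
  rw [abs_mul, A3a_abs h.1, one_mul, abs_of_pos (h.2.2.1 i)]

/-- The moduli are unique: the sets of roots `ε * x i` and `δ * y i` agree, hence the ranges of
`x` and `y` agree, and a strictly decreasing family is determined by its range. -/
lemma HasEig.unique {d : ℕ} {M : Matrix (Fin d) (Fin d) ℝ} {ε δ : ℝ} {x y : Fin d → ℝ}
    (h : HasEig M ε x) (h' : HasEig M δ y) : x = y := by
  have key : ∀ {ε δ : ℝ} {x y : Fin d → ℝ}, HasEig M ε x → HasEig M δ y →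
      Set.range x ⊆ Set.range y := by
    rintro ε δ x y h h' _ ⟨i, rfl⟩
    have h1 : ∏ j, (ε * x i - ε * x j) = 0 :=
      Finset.prod_eq_zero (Finset.mem_univ i) (sub_self _)
    rw [← A3a_eval h, A3a_eval h', Finset.prod_eq_zero_iff] at h1
    obtain ⟨j, -, hj⟩ := h1
    refine ⟨j, ?_⟩
    have h2 : |ε * x i| = |δ * y j| := by rw [sub_eq_zero.1 hj]
    rw [abs_mul, abs_mul, A3a_abs h.1, A3a_abs h'.1, one_mul, one_mul, abs_of_pos (h.2.2.1 i),
      abs_of_pos (h'.2.2.1 j)] at h2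
    exact h2.symm
  exact (StrictAnti.range_inj h.2.1 h'.2.1).1 (Set.Subset.antisymm (key h h') (key h' h))

/-- The inverse matrix (`Matrix.charpoly_inv`, or compare the roots of both sides). -/
lemma HasEig.inv {d : ℕ} {M : Matrix (Fin d) (Fin d) ℝ} {ε : ℝ} {x : Fin d → ℝ}
    (h : HasEig M ε x) : HasEig M⁻¹ ε (fun i => 1 / x (Fin.rev i)) := by
  refine ⟨h.1, fun i j hij => ?_, fun i => one_div_pos.2 (h.2.2.1 _), ?_⟩
  · exact one_div_lt_one_div_of_lt (h.2.2.1 _) (h.2.1 (Fin.rev_lt_rev.2 hij))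
  · refine Polynomial.funext fun t => ?_
    have hne : ∀ i, ε * x i ≠ 0 := fun i => by
      have h1 := h.2.2.1 i
      have h2 : ε ≠ 0 := by
        intro h0
        have := A3a_mul h.1
        rw [h0] at this
        norm_num at this
      exact mul_ne_zero h2 h1.ne'
    have hdet : M.det ≠ 0 := by
      rw [A3a_det h]
      exact Finset.prod_ne_zero_iff.2 fun i _ => hne i
    rw [Matrix.eval_charpoly, Polynomial.eval_prod]
    have h1 : (Matrix.scalar (Fin d) t - M⁻¹).det * M.det = ∏ i, (t * (ε * x i) - 1) := by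
      rw [← Matrix.det_mul, sub_mul, Matrix.nonsing_inv_mul _ (isUnit_iff_ne_zero.2 hdet),
        Matrix.scalar_apply, ← Matrix.smul_eq_diagonal_mul, A3a_lin h]
    have h2 : (∏ i, Polynomial.eval t (Polynomial.X -
        Polynomial.C (ε * (1 / x (Fin.rev i))))) * M.det = ∏ i, (t * (ε * x i) - 1) := by
      have h3 : (∏ i, Polynomial.eval t (Polynomial.X -
          Polynomial.C (ε * (1 / x (Fin.rev i))))) = ∏ i, (t - ε * (1 / x i)) := by
        rw [← Equiv.prod_comp Fin.revPerm (fun i => t - ε * (1 / x i))]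
        simp
      rw [h3, A3a_det h, ← Finset.prod_mul_distrib]
      refine Finset.prod_congr rfl fun i _ => ?_
      have h4 := (h.2.2.1 i).ne'
      have h5 := A3a_mul h.1
      have h6 : (t - ε * (1 / x i)) * (ε * x i) = t * (ε * x i) - ε * ε * (x i / x i) := by ring
      rw [h6, h5, div_self h4, one_mul]
    exact mul_right_cancel₀ hdet (h1.trans h2.symm)

/-- Multiplication by a sign. -/
lemma HasEig.sign {d : ℕ} {M : Matrix (Fin d) (Fin d) ℝ} {ε : ℝ} {x : Fin d → ℝ} {θ : ℝ}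
    (hθ : θ = 1 ∨ θ = -1) (h : HasEig M ε x) : HasEig (θ • M) (θ * ε) x := by
  refine ⟨?_, h.2.1, h.2.2.1, Polynomial.funext fun t => ?_⟩
  · rcases hθ with rfl | rfl <;> rcases h.1 with h1 | h1 <;> simp [h1]
  · have hθ2 := A3a_mul hθ
    rw [Matrix.eval_charpoly, Polynomial.eval_prod]
    have e : Matrix.scalar (Fin d) t - θ • M = θ • (Matrix.scalar (Fin d) (θ * t) - M) := by
      rw [smul_sub, Matrix.scalar_apply, Matrix.scalar_apply, ← Matrix.smul_one_eq_diagonal,
        ← Matrix.smul_one_eq_diagonal, smul_smul, ← mul_assoc, hθ2, one_mul]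
    rw [e, Matrix.det_smul, A3a_eval h, Fintype.card_fin, A3a_pow]
    refine Finset.prod_congr rfl fun i _ => ?_
    simp only [Polynomial.eval_sub, Polynomial.eval_X, Polynomial.eval_C]
    rw [mul_sub, ← mul_assoc, hθ2]
    ring

/-- Conjugation does not change the eigenvalues. -/
lemma HasEig.conj {d : ℕ} {M N : Matrix (Fin d) (Fin d) ℝ} {ε : ℝ} {x : Fin d → ℝ}
    (h : HasEig M ε x) (P : GL (Fin d) ℝ)
    (e : N = (P⁻¹ : GL (Fin d) ℝ).val * M * P.val) : HasEig N ε x := by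
  refine ⟨h.1, h.2.1, h.2.2.1, ?_⟩
  rw [e, Matrix.coe_units_inv, Matrix.charpoly_units_conj']
  exact h.2.2.2

/-- A diagonalised matrix. -/
lemma hasEig_of_diag {d : ℕ} {M : Matrix (Fin d) (Fin d) ℝ} {ε : ℝ} {x : Fin d → ℝ}
    (P : GL (Fin d) ℝ) (hε : ε = 1 ∨ ε = -1) (hx : StrictAnti x) (h0 : ∀ i, 0 < x i)
    (e : (P⁻¹ : GL (Fin d) ℝ).val * M * P.val = Matrix.diagonal (fun i => ε * x i)) :
    HasEig M ε x := by
  refine ⟨hε, hx, h0, ?_⟩
  rw [← Matrix.charpoly_units_conj' P M, ← Matrix.coe_units_inv, e, Matrix.charpoly_diagonal]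

end Pool.Agent.W_a2e04a_h82
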