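import Pool.Agent.W_a2e04a_h82.A3a

namespace Pool.Agent.W_a2e04a_h82

open Finset Filter Asymptotics

private lemma A3b_spec {r : ℕ} {M : Matrix (Fin (r + 1)) (Fin (r + 1)) ℝ} {ε : ℝ}
    {x : Fin (r + 1) → ℝ} (h : HasEig M ε x) (z : ℂ) :
    z ∈ spectrum ℂ (M.map (algebraMap ℝ ℂ)) ↔ ∃ i, z = ((ε * x i : ℝ) : ℂ) := by
  rw [Matrix.mem_spectrum_iff_isRoot_charpoly, Matrix.charpoly_map, h.2.2.2,
    Polynomial.map_prod, Polynomial.IsRoot, Polynomial.eval_prod, Finset.prod_eq_zero_iff]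
  simp only [Finset.mem_univ, true_and, Polynomial.map_sub, Polynomial.map_X, Polynomial.map_C,
    Polynomial.eval_sub, Polynomial.eval_X, Polynomial.eval_C, sub_eq_zero]
  rfl

private lemma A3b_norm {r : ℕ} {M : Matrix (Fin (r + 1)) (Fin (r + 1)) ℝ} {ε : ℝ}
    {x : Fin (r + 1) → ℝ} (h : HasEig M ε x) (i : Fin (r + 1)) :
    ‖((ε * x i : ℝ) : ℂ)‖ = x i := by
  rw [Complex.norm_real, Real.norm_eq_abs, abs_mul, abs_of_pos (h.2.2.1 i)]
  rcases h.1 with h1 | h1 <;> simp [h1]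

private lemma A3b_rad {r : ℕ} {M : Matrix (Fin (r + 1)) (Fin (r + 1)) ℝ} {ε : ℝ}
    {x : Fin (r + 1) → ℝ} (h : HasEig M ε x) :
    spectralRadius ℂ (M.map (algebraMap ℝ ℂ)) = ENNReal.ofReal (x 0) := by
  unfold spectralRadius
  apply le_antisymm
  · refine iSup₂_le fun z hz => ?_
    obtain ⟨i, rfl⟩ := (A3b_spec h z).1 hz
    have h1 : ((‖((ε * x i : ℝ) : ℂ)‖₊ : NNReal) : ENNReal) = ENNReal.ofReal (x i) := by
      have h2 := ofReal_norm (((ε * x i : ℝ) : ℂ))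
      rw [A3b_norm h i] at h2
      exact h2.symm
    rw [h1]
    exact ENNReal.ofReal_le_ofReal (h.2.1.antitone (Fin.zero_le i))
  · have h1 : ((‖((ε * x 0 : ℝ) : ℂ)‖₊ : NNReal) : ENNReal) = ENNReal.ofReal (x 0) := by
      have h2 := ofReal_norm (((ε * x 0 : ℝ) : ℂ))
      rw [A3b_norm h 0] at h2
      exact h2.symm
    rw [← h1]
    exact le_iSup₂_of_le (((ε * x 0 : ℝ) : ℂ)) ((A3b_spec h _).2 ⟨0, rfl⟩) le_rfl

/-- The spectral radius of a matrix with `HasEig` is the largest modulus: the complex spectrum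
is the set of roots of the characteristic polynomial, that is `{ε * x i}`. -/
lemma HasEig.ell_eq {r : ℕ} {M : Matrix (Fin (r + 1)) (Fin (r + 1)) ℝ} {ε : ℝ}
    {x : Fin (r + 1) → ℝ} (h : HasEig M ε x) : ell M = Real.log (x 0) := by
  unfold ell
  rw [A3b_rad h, ENNReal.toReal_ofReal (h.2.2.1 0).le]

/-- The Hilbert length (`HasEig.ell_eq` for the matrix and, with `HasEig.inv`, for its
inverse). -/
lemma HasEig.hilbertLength_eq {r : ℕ} {M : Matrix.SpecialLinearGroup (Fin (r + 1)) ℝ} {ε : ℝ}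
    {x : Fin (r + 1) → ℝ} (h : HasEig M.val ε x) :
    hilbertLength M = Real.log (x 0 / x (Fin.last r)) := by
  have hdet : IsUnit M.val.det := by rw [M.2]; exact isUnit_one
  have hinv : ((M⁻¹ : Matrix.SpecialLinearGroup (Fin (r + 1)) ℝ) :
      Matrix (Fin (r + 1)) (Fin (r + 1)) ℝ) = (M.val)⁻¹ := by
    rw [Matrix.SpecialLinearGroup.coe_inv, Matrix.inv_def, M.2]
    simp
  unfold hilbertLength
  rw [h.ell_eq, hinv, h.inv.ell_eq]
  simp only [Fin.rev_zero]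
  rw [Real.log_div (h.2.2.1 0).ne' (h.2.2.1 _).ne', one_div, Real.log_inv]
  ring

end Pool.Agent.W_a2e04a_h82
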