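import Pool.Agent.W_a2e04a_h82.A1
import Pool.Agent.W_a2e04a_h82.A2
import Pool.Agent.W_a2e04a_h82.A3a

namespace Pool.Agent.W_a2e04a_h82

open Finset Filter Asymptotics

/-- Every ratio `x K / x 0 ^ |K|` of a set `K` other than `∅` and `{0}` tends to zero. -/
lemma ratio_tendsto {r : ℕ} (x : Fin (r + 1) → ℝ) (hx : ∀ i, 0 < x i) (hs : StrictAnti x)
    (K : Finset (Fin (r + 1))) (h0 : K ≠ ∅) (h1 : K ≠ {0}) :
    Tendsto (fun n : ℕ => (∏ i ∈ K, x i ^ n) / x 0 ^ (n * K.card)) atTop (nhds 0) := by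
  obtain ⟨j, hj, hj0⟩ : ∃ j ∈ K, j ≠ 0 := by
    by_contra hcon
    push Not at hcon
    apply h1
    obtain ⟨k, hk⟩ := Finset.nonempty_iff_ne_empty.2 h0
    ext i
    rw [Finset.mem_singleton]
    constructor
    · exact hcon i
    · intro hi
      rw [hi, ← hcon k hk]
      exact hk
  have hle : ∀ i, x i / x 0 ≤ 1 := fun i => by
    rw [div_le_one (hx 0)]
    exact hs.antitone (Fin.zero_le i)
  have hpos : ∀ i, 0 < x i / x 0 := fun i => div_pos (hx i) (hx 0)
  have hj1 : x j / x 0 < 1 := by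
    rw [div_lt_one (hx 0)]
    exact hs (Fin.pos_of_ne_zero hj0)
  have e : ∀ n : ℕ, (∏ i ∈ K, x i ^ n) / x 0 ^ (n * K.card) = ∏ i ∈ K, (x i / x 0) ^ n := by
    intro n
    rw [pow_mul, ← Finset.prod_const, ← Finset.prod_div_distrib]
    exact Finset.prod_congr rfl fun i _ => (div_pow _ _ _).symm
  refine squeeze_zero (g := fun n : ℕ => (x j / x 0) ^ n) (fun n => ?_) (fun n => ?_)
    (tendsto_pow_atTop_nhds_zero_of_lt_one (hpos j).le hj1)
  · rw [e n]
    exact Finset.prod_nonneg fun i _ => (pow_pos (hpos i) n).le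
  · rw [e n, ← Finset.mul_prod_erase K _ hj]
    have h2 : ∏ i ∈ K.erase j, (x i / x 0) ^ n ≤ 1 :=
      Finset.prod_le_one (fun i _ => (pow_pos (hpos i) n).le)
        fun i _ => pow_le_one₀ (hpos i).le (hle i)
    exact mul_le_of_le_one_right (pow_pos (hpos j) n).le h2

private lemma a4a_sum_one {d : ℕ} (f : Finset (Fin d) → ℝ) :
    ∑ K ∈ Finset.univ.powersetCard 1, f K = ∑ i, f {i} := by
  rw [Finset.powersetCard_one, Finset.sum_map]
  rfl

/-- The top eigenvalue of `B * diag (x ^ n)` divided by `x 0 ^ n` tends to `B 0 0`: with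
`t i = κ n * ξ n i / x 0 ^ n` (all of the same sign) `e_1 t → B 0 0` and `e_2 t → 0`
(`esymm_diag` for `k = 1, 2` and `ratio_tendsto`), hence `|t 0| ≥ |e_1 t| / (r+1)` is bounded
below, `|t 0| * ∑ (i ≠ 0), |t i| ≤ e_2 t`, so `∑ (i ≠ 0), |t i| → 0` and `t 0 - e_1 t → 0`. -/
lemma top_tendsto {r : ℕ} {B : Matrix (Fin (r + 1)) (Fin (r + 1)) ℝ}
    {x : Fin (r + 1) → ℝ} {κ : ℕ → ℝ} {ξ : ℕ → Fin (r + 1) → ℝ} (h : PosPair B x κ ξ) :
    Tendsto (fun n => κ n * ξ n 0 / x 0 ^ n) atTop (nhds (B 0 0)) := by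
  have hx0 : ∀ n : ℕ, 0 < x 0 ^ n := fun n => pow_pos (h.pos 0) n
  -- elementary symmetric functions
  set e1 : ℕ → ℝ := fun n => ∑ i, B i i * ((∏ l ∈ ({i} : Finset (Fin (r + 1))), x l ^ n) /
    x 0 ^ (n * ({i} : Finset (Fin (r + 1))).card)) with he1
  set e2 : ℕ → ℝ := fun n => ∑ K ∈ Finset.univ.powersetCard 2, pm B K *
    ((∏ l ∈ K, x l ^ n) / x 0 ^ (n * K.card)) with he2
  have hsq : ∀ n, κ n ^ 2 = 1 := fun n => by
    rcases (h.eig n).1 with h1 | h1 <;> rw [h1] <;> norm_num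
  have hE1 : ∀ n, κ n * ∑ i, ξ n i = e1 n * x 0 ^ n := by
    intro n
    have h1 := esymm_diag B (fun i => x i ^ n) (κ n) (ξ n) (h.eig n) 1
    rw [a4a_sum_one, a4a_sum_one, pow_one] at h1
    simp only [Finset.prod_singleton, pm_single] at h1
    rw [h1, he1]
    simp only [Finset.prod_singleton, Finset.card_singleton, mul_one]
    rw [Finset.sum_mul]
    refine Finset.sum_congr rfl fun i _ => ?_
    rw [mul_assoc, div_mul_cancel₀ _ (hx0 n).ne']
  have hE2 : ∀ n, ∑ K ∈ (Finset.univ : Finset (Fin (r + 1))).powersetCard 2, ∏ i ∈ K, ξ n i =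
      e2 n * (x 0 ^ n) ^ 2 := by
    intro n
    have h1 := esymm_diag B (fun i => x i ^ n) (κ n) (ξ n) (h.eig n) 2
    rw [hsq n, one_mul] at h1
    rw [h1, he2]
    simp only
    rw [Finset.sum_mul]
    refine Finset.sum_congr rfl fun K hK => ?_
    rw [(Finset.mem_powersetCard.1 hK).2, pow_mul, mul_assoc,
      div_mul_cancel₀ _ (pow_pos (hx0 n) 2).ne']
  have hl1 : Tendsto e1 atTop (nhds (B 0 0)) := by
    have h1 : Tendsto e1 atTop (nhds (∑ i : Fin (r + 1), if i = 0 then B 0 0 else 0)) := by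
      rw [he1]
      refine tendsto_finset_sum _ fun i _ => ?_
      by_cases hi : i = 0
      · rw [if_pos hi, hi]
        refine Tendsto.congr (fun n => ?_) tendsto_const_nhds
        rw [Finset.prod_singleton, Finset.card_singleton, mul_one, div_self (hx0 n).ne', mul_one]
      · rw [if_neg hi]
        have h2 := ratio_tendsto x h.pos h.anti {i} (Finset.singleton_ne_empty i)
          (fun h3 => hi (Finset.singleton_injective h3))
        have h4 := h2.const_mul (B i i)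
        rw [mul_zero] at h4
        exact h4
    rw [Finset.sum_ite_eq' Finset.univ (0 : Fin (r + 1)) (fun _ => B 0 0)] at h1
    simpa using h1
  have hl2 : Tendsto e2 atTop (nhds 0) := by
    have h1 : Tendsto e2 atTop (nhds (∑ K ∈ (Finset.univ : Finset (Fin (r + 1))).powersetCard 2,
        (0 : ℝ))) := by
      rw [he2]
      refine tendsto_finset_sum _ fun K hK => ?_
      have hc := (Finset.mem_powersetCard.1 hK).2
      have h2 := ratio_tendsto x h.pos h.anti K
        (fun h3 => by rw [h3, Finset.card_empty] at hc; omega)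
        (fun h3 => by rw [h3, Finset.card_singleton] at hc; omega)
      have h4 := h2.const_mul (pm B K)
      rw [mul_zero] at h4
      exact h4
    rw [Finset.sum_const_zero] at h1
    exact h1
  -- the normalised eigenvalues
  have ht : ∀ n i, 0 < ξ n i / x 0 ^ n := fun n i => div_pos ((h.eig n).2.2.1 i) (hx0 n)
  have habs : ∀ n, ∑ i, ξ n i / x 0 ^ n = |e1 n| := by
    intro n
    have h1 := hE1 n
    have hk : |κ n| = 1 := by
      rcases (h.eig n).1 with h2 | h2 <;> rw [h2] <;> simp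
    have hs0 : 0 ≤ ∑ i, ξ n i := Finset.sum_nonneg fun i _ => ((h.eig n).2.2.1 i).le
    have h2 : |κ n * ∑ i, ξ n i| = |e1 n * x 0 ^ n| := by rw [h1]
    rw [abs_mul, abs_mul, hk, one_mul, abs_of_nonneg hs0, abs_of_pos (hx0 n)] at h2
    rw [← Finset.sum_div, h2, mul_div_assoc, div_self (hx0 n).ne', mul_one]
  have hmax : ∀ n, |e1 n| ≤ (r + 1) * (ξ n 0 / x 0 ^ n) := by
    intro n
    rw [← habs n]
    calc ∑ i, ξ n i / x 0 ^ n ≤ ∑ _i : Fin (r + 1), ξ n 0 / x 0 ^ n :=
          Finset.sum_le_sum fun i _ =>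
            div_le_div_of_nonneg_right ((h.eig n).2.1.antitone (Fin.zero_le i)) (hx0 n).le
      _ = (r + 1) * (ξ n 0 / x 0 ^ n) := by
          rw [Finset.sum_const, Finset.card_univ, Fintype.card_fin, nsmul_eq_mul]
          push_cast
          ring
  have hepos : ∀ n, 0 < |e1 n| := by
    intro n
    rw [← habs n]
    exact Finset.sum_pos (fun i _ => ht n i) Finset.univ_nonempty
  have hpair : ∀ n, ∀ i : Fin (r + 1), i ≠ 0 →
      (ξ n 0 / x 0 ^ n) * (ξ n i / x 0 ^ n) ≤ e2 n := by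
    intro n i hi
    have hmem : ({0, i} : Finset (Fin (r + 1))) ∈
        (Finset.univ : Finset (Fin (r + 1))).powersetCard 2 := by
      rw [Finset.mem_powersetCard]
      exact ⟨Finset.subset_univ _, Finset.card_pair (Ne.symm hi)⟩
    have h1 := Finset.single_le_sum (f := fun K : Finset (Fin (r + 1)) => ∏ i ∈ K, ξ n i)
      (fun K _ => Finset.prod_nonneg fun i _ => ((h.eig n).2.2.1 i).le) hmem
    rw [hE2 n, Finset.prod_pair (Ne.symm hi)] at h1
    rw [div_mul_div_comm, div_le_iff₀ (mul_pos (hx0 n) (hx0 n)), ← pow_two]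
    exact h1
  have hsmall : ∀ n, ∀ i : Fin (r + 1), i ≠ 0 →
      ξ n i / x 0 ^ n ≤ (r + 1) * e2 n / |e1 n| := by
    intro n i hi
    rw [le_div_iff₀ (hepos n)]
    calc ξ n i / x 0 ^ n * |e1 n| ≤ ξ n i / x 0 ^ n * ((r + 1) * (ξ n 0 / x 0 ^ n)) :=
          mul_le_mul_of_nonneg_left (hmax n) (ht n i).le
      _ = (r + 1) * (ξ n 0 / x 0 ^ n * (ξ n i / x 0 ^ n)) := by ring
      _ ≤ (r + 1) * e2 n := mul_le_mul_of_nonneg_left (hpair n i hi) (by positivity)
  have hdiff : ∀ n, |κ n * ξ n 0 / x 0 ^ n - e1 n| ≤ r * ((r + 1) * e2 n / |e1 n|) := by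
    intro n
    have h1 : e1 n = κ n * ∑ i, ξ n i / x 0 ^ n := by
      rw [← Finset.sum_div, ← mul_div_assoc, hE1 n, mul_div_assoc, div_self (hx0 n).ne', mul_one]
    have hk : |κ n| = 1 := by
      rcases (h.eig n).1 with h2 | h2 <;> rw [h2] <;> simp
    rw [h1, mul_div_assoc, ← mul_sub, abs_mul, hk, one_mul, Fin.sum_univ_succ]
    rw [sub_add_cancel_left, abs_neg,
      abs_of_nonneg (Finset.sum_nonneg fun i _ => (ht n i.succ).le)]
    have h3 : |κ n * (ξ n 0 / x 0 ^ n + ∑ i : Fin r, ξ n i.succ / x 0 ^ n)| = |e1 n| := by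
      rw [h1, Fin.sum_univ_succ]
    rw [h3]
    calc ∑ i : Fin r, ξ n i.succ / x 0 ^ n ≤ ∑ _i : Fin r, (r + 1) * e2 n / |e1 n| :=
          Finset.sum_le_sum fun i _ => hsmall n i.succ (Fin.succ_ne_zero i)
      _ = r * ((r + 1) * e2 n / |e1 n|) := by
          rw [Finset.sum_const, Finset.card_univ, Fintype.card_fin, nsmul_eq_mul]
  have hb : |B 0 0| ≠ 0 := abs_ne_zero.2 (h.ent 0 0).1
  have hlim : Tendsto (fun n => (r : ℝ) * ((r + 1) * e2 n / |e1 n|)) atTop (nhds 0) := by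
    have h1 := ((hl2.const_mul ((r : ℝ) + 1)).div hl1.abs hb).const_mul (r : ℝ)
    rw [mul_zero, zero_div, mul_zero] at h1
    exact h1
  have hd0 : Tendsto (fun n => κ n * ξ n 0 / x 0 ^ n - e1 n) atTop (nhds 0) :=
    squeeze_zero_norm (fun n => by rw [Real.norm_eq_abs]; exact hdiff n) hlim
  have hfin := hd0.add hl1
  rw [zero_add] at hfin
  exact hfin.congr fun n => sub_add_cancel _ _

end Pool.Agent.W_a2e04a_h82
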