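import Pool.Agent.W_a2e04a_h82.A4a

namespace Pool.Agent.W_a2e04a_h82

open Finset Filter Asymptotics

private lemma a4b_prod {r : ℕ} (g : Fin (r + 1) → ℝ) (h0 : g 0 = 1)
    (K : Finset (Fin (r + 1))) :
    ∏ j : Fin r, (if j.succ ∈ K then g j.succ else 1) = ∏ i ∈ K, g i := by
  have h1 : ∏ i ∈ K, g i = ∏ i : Fin (r + 1), if i ∈ K then g i else 1 := by
    rw [Finset.prod_ite_mem, Finset.univ_inter]
  rw [h1, Fin.prod_univ_succ, h0]
  simp

private lemma a4b_exp {r : ℕ} (x : Fin (r + 1) → ℝ) (hx : ∀ i, 0 < x i) (j : Fin r) (n : ℕ) :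
    Real.exp (-((n : ℝ) * pre (rootLen x) j)) = (x j.succ / x 0) ^ n := by
  have h1 : -((n : ℝ) * pre (rootLen x) j) = (n : ℝ) * Real.log (x j.succ / x 0) := by
    rw [pre_rootLen x hx j, ← mul_neg, ← Real.log_inv, inv_div]
  rw [h1, Real.exp_nat_mul, Real.exp_log (div_pos (hx _) (hx _))]

/-- The normalised top eigenvalue is a root of `FF` (evaluate `charpoly_eval_diag` with
`s i = x i ^ n` at `t = κ n * ξ n 0`, where the characteristic polynomial vanishes, and divide
by `x 0 ^ (n (r+1))`; `(x (j+1) / x 0) ^ n = exp (- n pre (rootLen x) j)` by `pre_rootLen`);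
the limit is `top_tendsto` with `pm_single`. -/
lemma hasTop_of_posPair {r : ℕ} {B : Matrix (Fin (r + 1)) (Fin (r + 1)) ℝ}
    {x : Fin (r + 1) → ℝ} {κ : ℕ → ℝ} {ξ : ℕ → Fin (r + 1) → ℝ} (h : PosPair B x κ ξ) :
    HasTop (pm B) (rootLen x) (fun n => κ n * ξ n 0 / x 0 ^ n) := by
  refine ⟨fun n => ?_, ?_⟩
  · have hroot : (B * Matrix.diagonal (fun i => x i ^ n)).charpoly.eval (κ n * ξ n 0) = 0 := by
      rw [(h.eig n).2.2.2, Polynomial.eval_prod]
      apply Finset.prod_eq_zero (Finset.mem_univ (0 : Fin (r + 1)))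
      simp
    rw [charpoly_eval_diag] at hroot
    have hx0 : (x 0 ^ n) ≠ 0 := pow_ne_zero _ (h.pos 0).ne'
    unfold FF
    have hterm : ∀ K : Finset (Fin (r + 1)),
        algebraMap ℝ ℝ ((-1) ^ K.card * pm B K) *
          (∏ j : Fin r, if j.succ ∈ K then
            Real.exp (-((n : ℝ) * pre (rootLen x) j)) else 1) *
          (κ n * ξ n 0 / x 0 ^ n) ^ (r + 1 - K.card) =
        ((-1) ^ K.card * pm B K * (∏ i ∈ K, x i ^ n) *
          (κ n * ξ n 0) ^ (r + 1 - K.card)) / (x 0 ^ n) ^ (r + 1) := by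
      intro K
      have h1 : (∏ j : Fin r, if j.succ ∈ K then
            Real.exp (-((n : ℝ) * pre (rootLen x) j)) else 1) =
          (∏ i ∈ K, x i ^ n) / (x 0 ^ n) ^ K.card := by
        have h2 := a4b_prod (fun i => (x i / x 0) ^ n)
          (by simp [div_self (h.pos 0).ne']) K
        have h3 : (∏ j : Fin r, if j.succ ∈ K then
            Real.exp (-((n : ℝ) * pre (rootLen x) j)) else 1) =
            ∏ j : Fin r, (if j.succ ∈ K then (fun i => (x i / x 0) ^ n) j.succ else 1) := by
          apply Finset.prod_congr rfl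
          intro j _
          rw [a4b_exp x h.pos j n]
        rw [h3, h2, ← Finset.prod_const, ← Finset.prod_div_distrib]
        exact Finset.prod_congr rfl fun i _ => div_pow _ _ _
      have hc : K.card ≤ r + 1 := by
        have := Finset.card_le_univ K
        rwa [Fintype.card_fin] at this
      have h4 : (x 0 ^ n) ^ (r + 1) = (x 0 ^ n) ^ K.card * (x 0 ^ n) ^ (r + 1 - K.card) := by
        rw [← pow_add]
        congr 1
        omega
      rw [h1, h4, Algebra.algebraMap_self_apply, div_pow]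
      field_simp
    rw [Finset.sum_congr rfl (fun K _ => hterm K), ← Finset.sum_div, hroot, zero_div]
  · have h1 := top_tendsto h
    rw [pm_single]
    exact h1

end Pool.Agent.W_a2e04a_h82
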