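import Pool.Agent.W_a2e04a_h82.A3a

namespace Pool.Agent.W_a2e04a_h82

open Finset Filter Asymptotics

/-- Reversing the indices keeps the characteristic polynomial. -/
lemma A4c_charpoly_rev {d : ℕ} (M : Matrix (Fin d) (Fin d) ℝ) :
    (M.submatrix Fin.rev Fin.rev).charpoly = M.charpoly :=
  Matrix.charpoly_reindex (Fin.revPerm (n := d)) M

/-- The dual pair: `B⁻¹ * diag (x ^ (-n))` has the characteristic polynomial of
`diag (x ^ (-n)) * B⁻¹ = (B * diag (x ^ n))⁻¹` (`Matrix.charpoly_mul_comm`, `HasEig.inv`);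
reversing the indices (`Matrix.charpoly_reindex` or `charpoly_submatrix_equiv`) makes the
diagonal decreasing. -/
lemma PosPair.dual {r : ℕ} {B : Matrix (Fin (r + 1)) (Fin (r + 1)) ℝ}
    {x : Fin (r + 1) → ℝ} {κ : ℕ → ℝ} {ξ : ℕ → Fin (r + 1) → ℝ} (h : PosPair B x κ ξ) :
    PosPair ((B⁻¹).submatrix Fin.rev Fin.rev) (fun i => 1 / x (Fin.rev i)) κ
      (fun n i => 1 / ξ n (Fin.rev i)) := by
  have hu : IsUnit B.det := isUnit_iff_ne_zero.2 h.det
  have hinv : ((B⁻¹).submatrix Fin.rev Fin.rev)⁻¹ = B.submatrix Fin.rev Fin.rev := by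
    have h1 := Matrix.inv_submatrix_equiv B⁻¹ (Fin.revPerm (n := r + 1)) (Fin.revPerm (n := r + 1))
    rw [Matrix.nonsing_inv_nonsing_inv B hu] at h1
    exact h1
  refine ⟨fun i => one_div_pos.2 (h.pos _), ?_, ?_, ?_, ?_⟩
  · intro i j hij
    exact one_div_lt_one_div_of_lt (h.pos _) (h.anti (Fin.rev_lt_rev.2 hij))
  · have h1 : ((B⁻¹).submatrix Fin.rev Fin.rev).det = (B⁻¹).det :=
      Matrix.det_submatrix_equiv_self (Fin.revPerm (n := r + 1)) B⁻¹
    rw [h1]
    exact (Matrix.isUnit_nonsing_inv_det B hu).ne_zero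
  · intro i j
    refine ⟨(h.ent _ _).2, ?_⟩
    rw [hinv]
    exact (h.ent _ _).1
  · intro n
    have h2 := (h.eig n).inv
    obtain ⟨h3, h4, h5, h6⟩ := h2
    refine ⟨h3, h4, h5, ?_⟩
    rw [← h6]
    have hD : (Matrix.diagonal (fun i => x i ^ n))⁻¹ =
        Matrix.diagonal (fun i => (1 / x i) ^ n) := by
      refine Matrix.inv_eq_right_inv ?_
      rw [Matrix.diagonal_mul_diagonal, ← Matrix.diagonal_one]
      congr 1
      funext i
      rw [← mul_pow, mul_one_div_cancel (h.pos i).ne', one_pow]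
    rw [Matrix.mul_inv_rev, hD, Matrix.charpoly_mul_comm (Matrix.diagonal _) B⁻¹]
    have h7 : (B⁻¹).submatrix Fin.rev Fin.rev *
        Matrix.diagonal (fun i => (1 / x (Fin.rev i)) ^ n) =
        (B⁻¹ * Matrix.diagonal (fun i => (1 / x i) ^ n)).submatrix Fin.rev Fin.rev := by
      ext i j
      rw [Matrix.mul_diagonal, Matrix.submatrix_apply, Matrix.submatrix_apply,
        Matrix.mul_diagonal]
    rw [h7]
    exact A4c_charpoly_rev _

end Pool.Agent.W_a2e04a_h82
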