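import Pool.Agent.W_a2e04a_h82.Core

namespace Pool.Agent.W_a2e04a_h82

open Finset Filter Asymptotics

lemma Ord.mono {r k l : ℕ} {p : MvPolynomial (Fin r) ℝ} (h : Ord k p) (hl : l ≤ k) :
    Ord l p := by
  exact fun e he => h e (lt_of_lt_of_le he hl)

lemma Ord.add {r k : ℕ} {p q : MvPolynomial (Fin r) ℝ} (hp : Ord k p) (hq : Ord k q) :
    Ord k (p + q) := by
  intro e he
  rw [MvPolynomial.coeff_add, hp e he, hq e he, add_zero]

lemma Ord.sub {r k : ℕ} {p q : MvPolynomial (Fin r) ℝ} (hp : Ord k p) (hq : Ord k q) :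
    Ord k (p - q) := by
  intro e he
  rw [MvPolynomial.coeff_sub, hp e he, hq e he, sub_zero]

lemma Ord.mul {r k l : ℕ} {p q : MvPolynomial (Fin r) ℝ} (hp : Ord k p) (hq : Ord l q) :
    Ord (k + l) (p * q) := by
  intro e he
  rw [MvPolynomial.coeff_mul]
  apply Finset.sum_eq_zero
  intro x hx
  have h := Finset.HasAntidiagonal.mem_antidiagonal.1 hx
  have hs : (∑ i, x.1 i) + ∑ i, x.2 i = ∑ i, e i := by
    rw [← h, ← Finset.sum_add_distrib]
    rfl
  by_cases h1 : (∑ i, x.1 i) < k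
  · rw [hp x.1 h1, zero_mul]
  · have h2 : (∑ i, x.2 i) < l := by omega
    rw [hq x.2 h2, mul_zero]

lemma Ord.sum {r k : ℕ} {ι : Type*} (s : Finset ι) (p : ι → MvPolynomial (Fin r) ℝ)
    (h : ∀ i ∈ s, Ord k (p i)) : Ord k (∑ i ∈ s, p i) := by
  intro e he
  rw [MvPolynomial.coeff_sum]
  exact Finset.sum_eq_zero fun i hi => h i hi e he

lemma ord_zero {r : ℕ} (p : MvPolynomial (Fin r) ℝ) : Ord 0 p := by
  intro e he
  exact absurd he (Nat.not_lt_zero _)

lemma ord_one_iff {r : ℕ} (p : MvPolynomial (Fin r) ℝ) : Ord 1 p ↔ p.coeff 0 = 0 := by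
  constructor
  · intro h
    exact h 0 (by simp)
  · intro h e he
    have h0 : e = 0 := by
      ext i
      have h1 : e i ≤ ∑ i, e i :=
        Finset.single_le_sum (f := fun i => e i) (fun _ _ => Nat.zero_le _) (Finset.mem_univ i)
      show e i = 0
      omega
    rw [h0, h]

end Pool.Agent.W_a2e04a_h82
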