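import Pool.Agent.W_a2e04a_h82.B1a

namespace Pool.Agent.W_a2e04a_h82

open Finset Filter Asymptotics

/-- Only `K = ∅` and `K = {0}` contribute to the constant coefficient. -/
lemma B1b_sum {r : ℕ} (m : Finset (Fin (r + 1)) → ℝ) (g : ℕ → ℝ) :
    ∑ K : Finset (Fin (r + 1)), (((-1) ^ K.card * m K) *
      ∏ j : Fin r, (if j.succ ∈ K then (0 : ℝ) else 1)) * g (r + 1 - K.card) =
      m ∅ * g (r + 1) - m {0} * g r := by
  classical
  have hne : (∅ : Finset (Fin (r + 1))) ≠ {0} := (Finset.singleton_ne_empty _).symm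
  rw [← Finset.sum_subset (Finset.subset_univ ({∅, {0}} : Finset (Finset (Fin (r + 1)))))]
  · rw [Finset.sum_pair hne]
    have h1 : ∏ j : Fin r, (if j.succ ∈ (∅ : Finset (Fin (r + 1))) then (0 : ℝ) else 1) = 1 :=
      Finset.prod_eq_one fun j _ => if_neg (Finset.notMem_empty _)
    have h2 : ∏ j : Fin r, (if j.succ ∈ ({0} : Finset (Fin (r + 1))) then (0 : ℝ) else 1) = 1 :=
      Finset.prod_eq_one fun j _ => if_neg fun h => Fin.succ_ne_zero j (Finset.mem_singleton.1 h)
    rw [h1, h2]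
    simp
    ring
  · intro K _ hK
    simp only [Finset.mem_insert, Finset.mem_singleton, not_or] at hK
    have hex : ∃ j : Fin r, j.succ ∈ K := by
      by_contra hcon
      push Not at hcon
      obtain ⟨x, hx⟩ := Finset.nonempty_iff_ne_empty.2 hK.1
      have hall : ∀ y ∈ K, y = 0 := by
        intro y hy
        by_contra hy0
        obtain ⟨j, rfl⟩ := Fin.exists_succ_eq_of_ne_zero hy0
        exact hcon j hy
      apply hK.2
      rw [Finset.eq_singleton_iff_unique_mem]
      exact ⟨by rw [← hall x hx]; exact hx, hall⟩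
    obtain ⟨j, hj⟩ := hex
    have h3 : ∏ j : Fin r, (if j.succ ∈ K then (0 : ℝ) else 1) = 0 :=
      Finset.prod_eq_zero (Finset.mem_univ j) (if_pos hj)
    rw [h3, mul_zero, zero_mul]

/-- The coefficient of `FF` at a power of `t`. -/
noncomputable def B1bA {r : ℕ} (m : Finset (Fin (r + 1)) → ℝ) (K : Finset (Fin (r + 1))) :
    MvPolynomial (Fin r) ℝ :=
  algebraMap ℝ (MvPolynomial (Fin r) ℝ) ((-1) ^ K.card * m K) *
    (∏ j : Fin r, if j.succ ∈ K then MvPolynomial.X j else 1)

lemma B1bA_coeff {r : ℕ} (m : Finset (Fin (r + 1)) → ℝ) (K : Finset (Fin (r + 1))) :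
    MvPolynomial.constantCoeff (B1bA m K) = ((-1) ^ K.card * m K) *
      ∏ j : Fin r, (if j.succ ∈ K then (0 : ℝ) else 1) := by
  unfold B1bA
  rw [map_mul, map_prod, MvPolynomial.algebraMap_eq, MvPolynomial.constantCoeff_C]
  congr 1
  refine Finset.prod_congr rfl fun j _ => ?_
  split_ifs
  · simp
  · exact map_one _

/-- `FF m X t` as a polynomial in `t`. -/
noncomputable def B1bP {r : ℕ} (m : Finset (Fin (r + 1)) → ℝ) :
    Polynomial (MvPolynomial (Fin r) ℝ) :=
  ∑ K : Finset (Fin (r + 1)), Polynomial.C (B1bA m K) * Polynomial.X ^ (r + 1 - K.card)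

lemma B1bP_eval {r : ℕ} (m : Finset (Fin (r + 1)) → ℝ) (T : MvPolynomial (Fin r) ℝ) :
    (B1bP m).eval T = FF m MvPolynomial.X T := by
  unfold B1bP FF B1bA
  rw [Polynomial.eval_finsetSum]
  refine Finset.sum_congr rfl fun K _ => ?_
  rw [Polynomial.eval_mul, Polynomial.eval_C, Polynomial.eval_pow, Polynomial.eval_X]

lemma B1bP_coeff {r : ℕ} (m : Finset (Fin (r + 1)) → ℝ) (T : MvPolynomial (Fin r) ℝ) :
    MvPolynomial.constantCoeff (FF m MvPolynomial.X T) =
      m ∅ * (MvPolynomial.constantCoeff T) ^ (r + 1) -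
        m {0} * (MvPolynomial.constantCoeff T) ^ r := by
  rw [← B1b_sum m (fun n => (MvPolynomial.constantCoeff T) ^ n), ← B1bP_eval]
  unfold B1bP
  rw [Polynomial.eval_finsetSum, map_sum]
  refine Finset.sum_congr rfl fun K _ => ?_
  rw [Polynomial.eval_mul, Polynomial.eval_C, Polynomial.eval_pow, Polynomial.eval_X, map_mul,
    map_pow, B1bA_coeff]

lemma B1bP_deriv {r : ℕ} (m : Finset (Fin (r + 1)) → ℝ) (T : MvPolynomial (Fin r) ℝ) :
    MvPolynomial.constantCoeff ((B1bP m).derivative.eval T) =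
      m ∅ * (((r + 1 : ℕ) : ℝ) * (MvPolynomial.constantCoeff T) ^ r) -
        m {0} * ((r : ℝ) * (MvPolynomial.constantCoeff T) ^ (r - 1)) := by
  have h := B1b_sum m (fun n => (n : ℝ) * (MvPolynomial.constantCoeff T) ^ (n - 1))
  rw [Nat.add_sub_cancel] at h
  rw [← h]
  unfold B1bP
  rw [Polynomial.derivative_sum, Polynomial.eval_finsetSum, map_sum]
  refine Finset.sum_congr rfl fun K _ => ?_
  rw [Polynomial.derivative_C_mul_X_pow, Polynomial.eval_mul, Polynomial.eval_C,
    Polynomial.eval_pow, Polynomial.eval_X, map_mul, map_mul, map_pow, B1bA_coeff, map_natCast]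
  ring

lemma B1b_coeff_zero {r : ℕ} (p : MvPolynomial (Fin r) ℝ) :
    p.coeff 0 = MvPolynomial.constantCoeff p := rfl

/-- Newton iteration `T ↦ T - c⁻¹ ^ r * FF m X T`, `c = m {0}`, started at the constant `c`:
`Appr m k T` gives `Appr m (k + 1) (T - c⁻¹ ^ r * FF m X T)`. With `h = - c⁻¹ ^ r * FF m X T`
(`Ord (k + 1) h`): `FF m X (T + h) = FF m X T + D * h + h ^ 2 * (...)` where `D`, the formal
derivative of `FF` in `t` at `T`, has constant coefficient
`(r + 1) * c ^ r - c * r * c ^ (r - 1) = c ^ r` (only `K = ∅`, `K = {0}` contribute, all other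
`K` contain some `j.succ` and so a factor `X j`). Start: `FF m X (C c)` has constant
coefficient `c ^ (r + 1) - c * c ^ r = 0`. -/
lemma exists_appr {r : ℕ} (m : Finset (Fin (r + 1)) → ℝ) (hm : Good m) (k : ℕ) :
    ∃ T : MvPolynomial (Fin r) ℝ, Appr m k T := by
  induction k with
  | zero =>
    refine ⟨MvPolynomial.C (m {0}), MvPolynomial.coeff_zero_C _, ?_⟩
    rw [zero_add, ord_one_iff, B1b_coeff_zero, B1bP_coeff, MvPolynomial.constantCoeff_C, hm.e]
    ring
  | succ k ih =>
    obtain ⟨T, hT0, hT⟩ := ih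
    set c : ℝ := m {0} with hc
    have hc0 : c ≠ 0 := hm.z
    set G : MvPolynomial (Fin r) ℝ := FF m MvPolynomial.X T with hG
    set h : MvPolynomial (Fin r) ℝ := -(MvPolynomial.C (c⁻¹ ^ r) * G) with hh
    have hho : Ord (k + 1) h := by
      have h1 : Ord (0 + (k + 1)) (MvPolynomial.C (-c⁻¹ ^ r) * G) := (ord_zero _).mul hT
      rw [zero_add] at h1
      have h2 : h = MvPolynomial.C (-c⁻¹ ^ r) * G := by
        rw [hh, map_neg, neg_mul]
      rw [h2]
      exact h1
    have hT0' : MvPolynomial.constantCoeff T = c := hT0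
    refine ⟨T + h, ?_, ?_⟩
    · rw [MvPolynomial.coeff_add, hT0, (ord_one_iff h).1 (hho.mono (by omega)), add_zero]
    · obtain ⟨κ, hκ⟩ := Polynomial.binomExpansion (B1bP m) T h
      rw [B1bP_eval, B1bP_eval, ← hG] at hκ
      have h1 : FF m MvPolynomial.X (T + h) =
          G * (1 - MvPolynomial.C (c⁻¹ ^ r) * (B1bP m).derivative.eval T) + κ * (h * h) := by
        rw [hκ, hh]
        ring
      rw [h1]
      refine Ord.add ?_ ?_
      · refine Ord.mul (k := k + 1) (l := 1) hT ?_
        rw [ord_one_iff, B1b_coeff_zero, map_sub, map_one, map_mul, MvPolynomial.constantCoeff_C,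
          B1bP_deriv, hT0', hm.e]
        have h2 : c * ((r : ℝ) * c ^ (r - 1)) = r * c ^ r := by
          rcases Nat.eq_zero_or_pos r with h0 | h0
          · simp [h0]
          · obtain ⟨s, rfl⟩ : ∃ s, r = s + 1 := ⟨r - 1, by omega⟩
            rw [Nat.add_sub_cancel]
            ring
        rw [h2]
        push_cast
        have h3 : c⁻¹ ^ r * c ^ r = 1 := by
          rw [← mul_pow, inv_mul_cancel₀ hc0, one_pow]
        linear_combination -h3
      · have h2 : Ord (0 + ((k + 1) + (k + 1))) (κ * (h * h)) := (ord_zero κ).mul (hho.mul hho)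
        exact h2.mono (by omega)

end Pool.Agent.W_a2e04a_h82
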