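import Pool.Agent.W_a2e04a_h82.Core

namespace Pool.Agent.W_a2e04a_h82

open Finset Filter Asymptotics

lemma le_pre {r : ℕ} (a : Fin r → ℝ) (μ : ℝ) (hμ : 0 < μ) (ha : ∀ i, μ ≤ a i) (j : Fin r) :
    μ ≤ pre a j := by
  unfold pre
  refine (ha j).trans ?_
  exact Finset.single_le_sum (f := a) (fun i _ => hμ.le.trans (ha i))
    (Finset.mem_Iic.2 (le_refl j))

/-- A polynomial without terms of degree `< k` is `O (exp (- k μ n))` along the curve. -/
lemma Ord.isBigO {r : ℕ} (a : Fin r → ℝ) (μ : ℝ) (hμ : 0 < μ) (ha : ∀ i, μ ≤ a i) {k : ℕ}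
    {p : MvPolynomial (Fin r) ℝ} (hp : Ord k p) :
    (fun n : ℕ => MvPolynomial.eval (fun j => Real.exp (-((n : ℝ) * pre a j))) p)
      =O[atTop] fun n : ℕ => Real.exp (-((n : ℝ) * (k * μ))) := by
  have h0 : (fun n : ℕ => MvPolynomial.eval (fun j => Real.exp (-((n : ℝ) * pre a j))) p) =
      fun n : ℕ => ∑ e ∈ p.support, p.coeff e *
        ∏ i, Real.exp (-((n : ℝ) * pre a i)) ^ e i := by
    funext n
    exact MvPolynomial.eval_eq' _ _
  rw [h0]
  refine IsBigO.fun_sum fun e he => ?_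
  have hk : k ≤ ∑ i, e i := by
    by_contra hcon
    push Not at hcon
    exact MvPolynomial.mem_support_iff.1 he (hp e hcon)
  refine IsBigO.of_bound |p.coeff e| (Filter.Eventually.of_forall fun n => ?_)
  rw [norm_mul, Real.norm_eq_abs, Real.norm_of_nonneg (Real.exp_pos _).le]
  refine mul_le_mul_of_nonneg_left ?_ (abs_nonneg _)
  have h1 : ∏ i, Real.exp (-((n : ℝ) * pre a i)) ^ e i =
      Real.exp (-((n : ℝ) * ∑ i, (e i : ℝ) * pre a i)) := by
    rw [Finset.mul_sum, ← Finset.sum_neg_distrib, Real.exp_sum]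
    refine Finset.prod_congr rfl fun i _ => ?_
    rw [← Real.exp_nat_mul]
    congr 1
    ring
  rw [h1, Real.norm_of_nonneg (Real.exp_pos _).le]
  refine Real.exp_le_exp.2 (neg_le_neg (mul_le_mul_of_nonneg_left ?_ (Nat.cast_nonneg n)))
  calc (k : ℝ) * μ ≤ ((∑ i, e i : ℕ) : ℝ) * μ :=
        mul_le_mul_of_nonneg_right (by exact_mod_cast hk) hμ.le
    _ = ∑ i, (e i : ℝ) * μ := by rw [Nat.cast_sum, Finset.sum_mul]
    _ ≤ ∑ i, (e i : ℝ) * pre a i := Finset.sum_le_sum fun i _ =>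
        mul_le_mul_of_nonneg_left (le_pre a μ hμ ha i) (Nat.cast_nonneg _)

/-- The polynomial `FF` is compatible with evaluation. -/
lemma eval_FF {r : ℕ} (m : Finset (Fin (r + 1)) → ℝ) (s : Fin r → ℝ)
    (T : MvPolynomial (Fin r) ℝ) :
    MvPolynomial.eval s (FF m MvPolynomial.X T) = FF m s (MvPolynomial.eval s T) := by
  unfold FF
  rw [map_sum]
  refine Finset.sum_congr rfl fun K _ => ?_
  rw [map_mul, map_mul, map_pow, map_prod, MvPolynomial.algebraMap_eq, MvPolynomial.eval_C]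
  congr 2
  refine Finset.prod_congr rfl fun j _ => ?_
  split_ifs
  · rw [MvPolynomial.eval_X]
  · rw [map_one]

/-- The value of a polynomial along the curve tends to its constant coefficient. -/
lemma eval_tendsto {r : ℕ} (a : Fin r → ℝ) (μ : ℝ) (hμ : 0 < μ) (ha : ∀ i, μ ≤ a i)
    (p : MvPolynomial (Fin r) ℝ) :
    Tendsto (fun n : ℕ => MvPolynomial.eval (fun j => Real.exp (-((n : ℝ) * pre a j))) p)
      atTop (nhds (p.coeff 0)) := by
  have hord : Ord 1 (p - MvPolynomial.C (p.coeff 0)) := by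
    intro e he
    have h0 : e = 0 := by
      have h1 : ∑ i, e i = 0 := by omega
      ext i
      exact (Finset.sum_eq_zero_iff.1 h1) i (Finset.mem_univ i)
    rw [h0, MvPolynomial.coeff_sub, MvPolynomial.coeff_C, if_pos rfl, sub_self]
  have h2 := Ord.isBigO a μ hμ ha hord
  have h3 : Tendsto (fun n : ℕ => Real.exp (-((n : ℝ) * ((1 : ℕ) * μ)))) atTop (nhds 0) := by
    refine Real.tendsto_exp_atBot.comp ?_
    refine Filter.tendsto_neg_atTop_atBot.comp ?_
    refine Filter.Tendsto.atTop_mul_const ?_ tendsto_natCast_atTop_atTop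
    rw [Nat.cast_one, one_mul]
    exact hμ
  have h4 := h2.trans_tendsto h3
  have h5 : (fun n : ℕ => MvPolynomial.eval (fun j => Real.exp (-((n : ℝ) * pre a j))) p) =
      fun n : ℕ => MvPolynomial.eval (fun j => Real.exp (-((n : ℝ) * pre a j)))
        (p - MvPolynomial.C (p.coeff 0)) + p.coeff 0 := by
    funext n
    rw [map_sub, MvPolynomial.eval_C]
    ring
  rw [h5]
  have h6 := h4.add_const (p.coeff 0)
  rwa [zero_add] at h6

end Pool.Agent.W_a2e04a_h82
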