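import Pool.Agent.W_a2e04a_h82.Core

namespace Pool.Agent.W_a2e04a_h82

open Finset Filter Asymptotics

/-- The divided difference of the power `N`. -/
noncomputable def B2b_g (N : ℕ) (t u : ℝ) : ℝ := ∑ i ∈ Finset.range N, t ^ i * u ^ (N - 1 - i)

/-- The coefficient of the set `K`. -/
noncomputable def B2b_P {r : ℕ} (m : Finset (Fin (r + 1)) → ℝ) (s : Fin r → ℝ)
    (K : Finset (Fin (r + 1))) : ℝ :=
  (-1) ^ K.card * m K * ∏ j : Fin r, if j.succ ∈ K then s j else 1

lemma B2b_sub (N : ℕ) (t u : ℝ) : t ^ N - u ^ N = (t - u) * B2b_g N t u := by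
  unfold B2b_g
  rw [mul_comm, (Commute.all t u).geom_sum₂_mul]

lemma B2b_FF {r : ℕ} (m : Finset (Fin (r + 1)) → ℝ) (s : Fin r → ℝ) (t u : ℝ) :
    FF m s t - FF m s u =
      (t - u) * ∑ K : Finset (Fin (r + 1)), B2b_P m s K * B2b_g (r + 1 - K.card) t u := by
  unfold FF
  rw [← Finset.sum_sub_distrib, Finset.mul_sum]
  refine Finset.sum_congr rfl fun K _ => ?_
  rw [← mul_sub, B2b_sub]
  simp only [Algebra.algebraMap_self, RingHom.id_apply, B2b_P]
  ring

lemma B2b_g_lim (N : ℕ) {c : ℝ} {t u : ℕ → ℝ} (hu : Tendsto u atTop (nhds c))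
    (ht : Tendsto t atTop (nhds c)) :
    Tendsto (fun n => B2b_g N (t n) (u n)) atTop (nhds (N * c ^ (N - 1))) := by
  have h1 : Tendsto (fun n => B2b_g N (t n) (u n)) atTop
      (nhds (∑ i ∈ Finset.range N, c ^ i * c ^ (N - 1 - i))) :=
    tendsto_finsetSum _ fun i _ => (ht.pow i).mul (hu.pow (N - 1 - i))
  have h2 : ∑ i ∈ Finset.range N, c ^ i * c ^ (N - 1 - i) = N * c ^ (N - 1) := by
    have h3 : ∀ i ∈ Finset.range N, c ^ i * c ^ (N - 1 - i) = c ^ (N - 1) := fun i hi => by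
      rw [← pow_add]
      congr 1
      have := Finset.mem_range.1 hi
      omega
    rw [Finset.sum_congr rfl h3, Finset.sum_const, Finset.card_range, nsmul_eq_mul]
  rw [h2] at h1
  exact h1

lemma B2b_P_lim {r : ℕ} (m : Finset (Fin (r + 1)) → ℝ) (s : ℕ → Fin r → ℝ)
    (hs : ∀ j, Tendsto (fun n => s n j) atTop (nhds 0)) (K : Finset (Fin (r + 1))) :
    Tendsto (fun n => B2b_P m (s n) K) atTop (nhds (B2b_P m (fun _ => 0) K)) := by
  unfold B2b_P
  refine Tendsto.const_mul _ (tendsto_finsetProd _ fun j _ => ?_)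
  split_ifs
  · exact hs j
  · exact tendsto_const_nhds

lemma B2b_sum {r : ℕ} (m : Finset (Fin (r + 1)) → ℝ) (hm : Good m) :
    ∑ K : Finset (Fin (r + 1)), B2b_P m (fun _ => 0) K *
      (((r + 1 - K.card : ℕ) : ℝ) * m {0} ^ (r + 1 - K.card - 1)) = m {0} ^ r := by
  have h1 : ∑ K : Finset (Fin (r + 1)), B2b_P m (fun _ => 0) K *
      (((r + 1 - K.card : ℕ) : ℝ) * m {0} ^ (r + 1 - K.card - 1)) =
      ∑ K ∈ ({∅, {0}} : Finset (Finset (Fin (r + 1)))), B2b_P m (fun _ => 0) K *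
      (((r + 1 - K.card : ℕ) : ℝ) * m {0} ^ (r + 1 - K.card - 1)) := by
    refine (Finset.sum_subset (Finset.subset_univ _) fun K _ hK => ?_).symm
    have h2 : ∃ j : Fin r, j.succ ∈ K := by
      by_contra hcon
      push Not at hcon
      apply hK
      rw [Finset.mem_insert, Finset.mem_singleton]
      have h3 : K ⊆ {0} := by
        intro i hi
        rcases Fin.eq_zero_or_eq_succ i with rfl | ⟨j, rfl⟩
        · exact Finset.mem_singleton_self 0
        · exact absurd hi (hcon j)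
      exact Finset.subset_singleton_iff.1 h3
    obtain ⟨j, hj⟩ := h2
    have h3 : B2b_P m (fun _ => 0) K = 0 := by
      unfold B2b_P
      have h4 : ∏ j : Fin r, (if j.succ ∈ K then (0 : ℝ) else 1) = 0 :=
        Finset.prod_eq_zero (Finset.mem_univ j) (if_pos hj)
      rw [h4, mul_zero]
    rw [h3, zero_mul]
  rw [h1, Finset.sum_pair (Finset.singleton_ne_empty 0).symm]
  have h4 : B2b_P m (fun _ => 0) ∅ = 1 := by
    unfold B2b_P
    simp [hm.e]
  have h5 : B2b_P m (fun _ => 0) {0} = -m {0} := by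
    unfold B2b_P
    have : ∀ j : Fin r, (if j.succ ∈ ({0} : Finset (Fin (r + 1))) then (0 : ℝ) else 1) = 1 :=
      fun j => if_neg (by
        rw [Finset.mem_singleton]
        exact Fin.succ_ne_zero j)
    simp only [this]
    simp
  rw [h4, h5, Finset.card_empty, Finset.card_singleton, Nat.sub_zero, Nat.add_sub_cancel]
  rcases Nat.eq_zero_or_pos r with rfl | hr
  · simp
  · obtain ⟨k, rfl⟩ : ∃ k, r = k + 1 := ⟨r - 1, by omega⟩
    rw [Nat.add_sub_cancel]
    push_cast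
    ring

/-- The divided difference of `FF` at two sequences with limit `c = m {0}` tends to
`(r + 1) c ^ r - c r c ^ (r - 1) = c ^ r ≠ 0`, so it is bounded away from zero:
`t ^ N - u ^ N = (t - u) * ∑ i < N, t ^ i * u ^ (N - 1 - i)` (`Commute.geom_sum₂_mul`), all sets
`K` other than `∅` and `{0}` contain some `j.succ` and carry a factor `s n j → 0`. -/
lemma FF_sub_bound {r : ℕ} (m : Finset (Fin (r + 1)) → ℝ) (hm : Good m)
    (s : ℕ → Fin r → ℝ) (hs : ∀ j, Tendsto (fun n => s n j) atTop (nhds 0))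
    (u t : ℕ → ℝ) (hu : Tendsto u atTop (nhds (m {0}))) (ht : Tendsto t atTop (nhds (m {0}))) :
    ∃ δ > 0, ∀ᶠ n in atTop, δ * |t n - u n| ≤ |FF m (s n) (t n) - FF m (s n) (u n)| := by
  have h1 : Tendsto (fun n => ∑ K : Finset (Fin (r + 1)), B2b_P m (s n) K *
      B2b_g (r + 1 - K.card) (t n) (u n)) atTop (nhds (m {0} ^ r)) := by
    rw [← B2b_sum m hm]
    exact tendsto_finsetSum _ fun K _ => (B2b_P_lim m s hs K).mul (B2b_g_lim _ hu ht)
  have h2 : 0 < |m {0} ^ r| := abs_pos.2 (pow_ne_zero r hm.z)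
  refine ⟨|m {0} ^ r| / 2, half_pos h2, ?_⟩
  filter_upwards [h1.abs.eventually_const_lt (half_lt_self h2)] with n hn
  rw [B2b_FF, abs_mul, mul_comm]
  exact mul_le_mul_of_nonneg_left hn.le (abs_nonneg _)

end Pool.Agent.W_a2e04a_h82
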