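import Pool.Agent.W_a2e04a_h82.B2a
import Pool.Agent.W_a2e04a_h82.B2b

namespace Pool.Agent.W_a2e04a_h82

open Finset Filter Asymptotics

private lemma b2c_exp {r : ℕ} (a : Fin r → ℝ) (μ : ℝ) (hμ : 0 < μ) (ha : ∀ i, μ ≤ a i)
    (j : Fin r) : Tendsto (fun n : ℕ => Real.exp (-((n : ℝ) * pre a j))) atTop (nhds 0) := by
  have h1 : 0 < pre a j := lt_of_lt_of_le hμ (le_pre a μ hμ ha j)
  have h2 : Tendsto (fun n : ℕ => (n : ℝ) * pre a j) atTop atTop :=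
    tendsto_natCast_atTop_atTop.atTop_mul_const h1
  exact Real.tendsto_exp_neg_atTop_nhds_zero.comp h2

/-- Approximation of the top eigenvalue: `FF_sub_bound` with `t n = eval T`, where
`FF m (s n) (u n) = 0` and `FF m (s n) (t n) = eval (FF m X T)` is `O (exp (- (k + 1) μ n))`
(`eval_FF`, `Ord.isBigO`); `eval_tendsto` gives `t n → T.coeff 0 = m {0}`. -/
lemma top_approx {r : ℕ} (m : Finset (Fin (r + 1)) → ℝ) (hm : Good m) (a : Fin r → ℝ) (μ : ℝ)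
    (hμ : 0 < μ) (ha : ∀ i, μ ≤ a i) (u : ℕ → ℝ) (hu : HasTop m a u) (k : ℕ)
    (T : MvPolynomial (Fin r) ℝ) (hT : Appr m k T) :
    (fun n : ℕ => u n - MvPolynomial.eval (fun j => Real.exp (-((n : ℝ) * pre a j))) T)
      =O[atTop] fun n : ℕ => Real.exp (-((n : ℝ) * ((k + 1 : ℕ) * μ))) := by
  have ht := eval_tendsto a μ hμ ha T
  rw [hT.1] at ht
  obtain ⟨δ, hδ, hev⟩ := FF_sub_bound m hm (fun n j => Real.exp (-((n : ℝ) * pre a j)))
    (fun j => b2c_exp a μ hμ ha j) u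
    (fun n => MvPolynomial.eval (fun j => Real.exp (-((n : ℝ) * pre a j))) T) hu.2 ht
  have hO := Ord.isBigO a μ hμ ha hT.2
  refine IsBigO.trans ?_ hO
  rw [isBigO_iff]
  refine ⟨1 / δ, ?_⟩
  filter_upwards [hev] with n hn
  rw [eval_FF]
  rw [hu.1 n, sub_zero] at hn
  rw [Real.norm_eq_abs, Real.norm_eq_abs, abs_sub_comm]
  rw [div_mul_eq_mul_div, one_mul, le_div_iff₀ hδ, mul_comm]
  exact hn

end Pool.Agent.W_a2e04a_h82
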