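import Pool.Agent.W_a2e04a_h82.Core

namespace Pool.Agent.W_a2e04a_h82

open Finset Filter Asymptotics

lemma exp_tendsto_zero_aux {d : ℝ} (hd : 0 < d) :
    Tendsto (fun n : ℕ => Real.exp (-((n : ℝ) * d))) atTop (nhds 0) := by
  have h1 : Tendsto (fun n : ℕ => (n : ℝ) * d) atTop atTop :=
    tendsto_natCast_atTop_atTop.atTop_mul_const hd
  exact Real.tendsto_exp_neg_atTop_nhds_zero.comp h1

lemma expSum_zero_aux (G : Finset ℝ) (a : ℝ → ℝ) (K : ℝ)
    (h : (fun n : ℕ => ∑ g ∈ G, a g * Real.exp (-((n : ℝ) * g)))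
        =O[atTop] fun n : ℕ => Real.exp (-((n : ℝ) * K))) (E : ℝ) (hEG : E ∈ G) (hE : E < K) :
    a E = 0 := by
  classical
  by_contra hne
  have hT : (G.filter (fun g => a g ≠ 0)).Nonempty := ⟨E, by simp [hEG, hne]⟩
  obtain ⟨E0, hE0, hmin⟩ := Finset.exists_min_image _ (fun g => g) hT
  rw [Finset.mem_filter] at hE0
  have hE0E : E0 ≤ E := hmin E (by simp [hEG, hne])
  have hE0K : E0 < K := lt_of_le_of_lt hE0E hE
  have h1 : Tendsto (fun n : ℕ => ∑ g ∈ G, a g * Real.exp (-((n : ℝ) * (g - E0)))) atTop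
      (nhds (∑ g ∈ G, if g = E0 then a g else 0)) := by
    refine tendsto_finsetSum _ fun g hg => ?_
    rcases lt_trichotomy g E0 with hlt | heq | hgt
    · have : a g = 0 := by
        by_contra h0
        exact absurd (hmin g (by simp [hg, h0])) (not_le.2 hlt)
      simp [this]
    · subst heq; simp
    · rw [if_neg hgt.ne']
      have := (exp_tendsto_zero_aux (sub_pos.2 hgt)).const_mul (a g)
      simpa using this
  rw [Finset.sum_ite_eq' G E0 a, if_pos hE0.1] at h1
  have h2 : (fun n : ℕ => ∑ g ∈ G, a g * Real.exp (-((n : ℝ) * (g - E0)))) =O[atTop]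
      fun n : ℕ => Real.exp (-((n : ℝ) * (K - E0))) := by
    have h3 := (isBigO_refl (fun n : ℕ => Real.exp ((n : ℝ) * E0)) atTop).mul h
    have e1 : (fun n : ℕ => ∑ g ∈ G, a g * Real.exp (-((n : ℝ) * (g - E0)))) =
        fun n : ℕ => Real.exp ((n : ℝ) * E0) * ∑ g ∈ G, a g * Real.exp (-((n : ℝ) * g)) := by
      funext n
      rw [Finset.mul_sum]
      refine Finset.sum_congr rfl fun g _ => ?_
      rw [mul_left_comm, ← Real.exp_add]
      congr 2; ring
    have e2 : (fun n : ℕ => Real.exp (-((n : ℝ) * (K - E0)))) =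
        fun n : ℕ => Real.exp ((n : ℝ) * E0) * Real.exp (-((n : ℝ) * K)) := by
      funext n
      rw [← Real.exp_add]
      congr 1; ring
    rw [e1, e2]
    exact h3
  have h4 := h2.trans_tendsto (exp_tendsto_zero_aux (sub_pos.2 hE0K))
  exact hE0.2 (tendsto_nhds_unique h1 h4)

open Classical in
/-- Uniqueness of the coefficients of exponential sums: it is enough to treat one sum
(`c` and `-c'` on the disjoint union), grouped by exponent; if some exponent `< K` had a
nonzero coefficient, take the smallest one `E₀`, multiply by `exp (n E₀)` and let `n → ∞`. -/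
lemma expSum_unique {ι ι' : Type*} (S : Finset ι) (S' : Finset ι') (c e : ι → ℝ)
    (c' e' : ι' → ℝ) (K : ℝ)
    (h : (fun n : ℕ => ∑ p ∈ S, c p * Real.exp (-((n : ℝ) * e p)) -
      ∑ p ∈ S', c' p * Real.exp (-((n : ℝ) * e' p)))
        =O[atTop] fun n : ℕ => Real.exp (-((n : ℝ) * K))) (E : ℝ) (hE : E < K) :
    ∑ p ∈ S.filter (fun p => e p = E), c p = ∑ p ∈ S'.filter (fun p => e' p = E), c' p := by
  set a : ℝ → ℝ := fun g => ∑ p ∈ S.filter (fun p => e p = g), c p -
    ∑ p ∈ S'.filter (fun p => e' p = g), c' p with ha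
  set G : Finset ℝ := S.image e ∪ S'.image e' ∪ {E} with hG
  have h1 : ∀ n : ℕ, ∑ g ∈ G, a g * Real.exp (-((n : ℝ) * g)) =
      ∑ p ∈ S, c p * Real.exp (-((n : ℝ) * e p)) - ∑ p ∈ S', c' p * Real.exp (-((n : ℝ) * e' p)) := by
    intro n
    have s1 : ∑ g ∈ G, ∑ p ∈ S.filter (fun p => e p = g), c p * Real.exp (-((n : ℝ) * e p)) =
        ∑ p ∈ S, c p * Real.exp (-((n : ℝ) * e p)) :=
      Finset.sum_fiberwise_of_maps_to (fun p hp => by
        simp only [hG, Finset.mem_union, Finset.mem_image]; exact Or.inl (Or.inl ⟨p, hp, rfl⟩)) _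
    have s2 : ∑ g ∈ G, ∑ p ∈ S'.filter (fun p => e' p = g), c' p * Real.exp (-((n : ℝ) * e' p)) =
        ∑ p ∈ S', c' p * Real.exp (-((n : ℝ) * e' p)) :=
      Finset.sum_fiberwise_of_maps_to (fun p hp => by
        simp only [hG, Finset.mem_union, Finset.mem_image]; exact Or.inl (Or.inr ⟨p, hp, rfl⟩)) _
    rw [← s1, ← s2, ← Finset.sum_sub_distrib]
    refine Finset.sum_congr rfl fun g _ => ?_
    rw [ha]
    simp only
    rw [sub_mul, Finset.sum_mul, Finset.sum_mul]
    congr 1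
    · refine Finset.sum_congr rfl fun p hp => ?_
      rw [(Finset.mem_filter.1 hp).2]
    · refine Finset.sum_congr rfl fun p hp => ?_
      rw [(Finset.mem_filter.1 hp).2]
  have h2 := expSum_zero_aux G a K (by
    have : (fun n : ℕ => ∑ g ∈ G, a g * Real.exp (-((n : ℝ) * g))) =
        fun n : ℕ => ∑ p ∈ S, c p * Real.exp (-((n : ℝ) * e p)) -
          ∑ p ∈ S', c' p * Real.exp (-((n : ℝ) * e' p)) := funext h1
    rw [this]; exact h) E (by simp [hG]) hE
  exact sub_eq_zero.1 h2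

end Pool.Agent.W_a2e04a_h82
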