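import Pool.Agent.W_a2e04a_h82.B2c

namespace Pool.Agent.W_a2e04a_h82

open Finset Filter Asymptotics

lemma B3b_eval {r : ℕ} (w : Fin r → ℝ) (T : MvPolynomial (Fin r) ℝ) (n : ℕ) :
    MvPolynomial.eval (fun j => Real.exp (-((n : ℝ) * w j))) T =
      ∑ e ∈ T.support, T.coeff e * Real.exp (-((n : ℝ) * dot w e)) := by
  rw [MvPolynomial.eval_eq']
  refine Finset.sum_congr rfl fun e _ => ?_
  congr 1
  simp only [← Real.exp_nat_mul]
  rw [← Real.exp_sum]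
  congr 1
  unfold dot
  rw [Finset.mul_sum, ← Finset.sum_neg_distrib]
  exact Finset.sum_congr rfl fun j _ => by ring

/-- The value of the product of the two polynomials as an exponential sum. -/
lemma eval_mul_eval {r : ℕ} (w₁ w₂ : Fin r → ℝ) (T₁ T₂ : MvPolynomial (Fin r) ℝ) (n : ℕ) :
    MvPolynomial.eval (fun j => Real.exp (-((n : ℝ) * w₁ j))) T₁ *
      MvPolynomial.eval (fun j => Real.exp (-((n : ℝ) * w₂ j))) T₂ =
    ∑ p ∈ T₁.support ×ˢ T₂.support, (T₁.coeff p.1 * T₂.coeff p.2) *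
      Real.exp (-((n : ℝ) * (dot w₁ p.1 + dot w₂ p.2))) := by
  rw [B3b_eval, B3b_eval, Finset.sum_mul_sum, ← Finset.sum_product']
  refine Finset.sum_congr rfl fun p _ => ?_
  have e : -((n : ℝ) * (dot w₁ p.1 + dot w₂ p.2)) =
      -((n : ℝ) * dot w₁ p.1) + -((n : ℝ) * dot w₂ p.2) := by ring
  rw [e, Real.exp_add]
  ring

/-- Approximation of the product (`top_approx` for both factors, which are bounded). -/
lemma prod_approx {r : ℕ} (m₁ m₂ : Finset (Fin (r + 1)) → ℝ) (h₁ : Good m₁) (h₂ : Good m₂)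
    (a b : Fin r → ℝ) (μ : ℝ) (hμ : 0 < μ) (ha : ∀ i, μ ≤ a i) (hb : ∀ i, μ ≤ b i)
    (u v : ℕ → ℝ) (hu : HasTop m₁ a u) (hv : HasTop m₂ b v) (k : ℕ)
    (T₁ T₂ : MvPolynomial (Fin r) ℝ) (hT₁ : Appr m₁ k T₁) (hT₂ : Appr m₂ k T₂) :
    (fun n : ℕ => u n * v n - ∑ p ∈ T₁.support ×ˢ T₂.support, (T₁.coeff p.1 * T₂.coeff p.2) *
      Real.exp (-((n : ℝ) * (dot (pre a) p.1 + dot (pre b) p.2))))
      =O[atTop] fun n : ℕ => Real.exp (-((n : ℝ) * ((k + 1 : ℕ) * μ))) := by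
  have h1 := top_approx m₁ h₁ a μ hμ ha u hu k T₁ hT₁
  have h2 := top_approx m₂ h₂ b μ hμ hb v hv k T₂ hT₂
  have h3 : v =O[atTop] fun _ : ℕ => (1 : ℝ) := hv.2.isBigO_one ℝ
  have h4 : (fun n : ℕ => MvPolynomial.eval (fun j => Real.exp (-((n : ℝ) * pre a j))) T₁)
      =O[atTop] fun _ : ℕ => (1 : ℝ) := (eval_tendsto a μ hμ ha T₁).isBigO_one ℝ
  have h5 := (h1.mul h3).add (h2.mul h4)
  simp only [mul_one] at h5
  refine h5.congr_left fun n => ?_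
  rw [← eval_mul_eval]
  ring

end Pool.Agent.W_a2e04a_h82
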