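import Pool.Agent.W_a2e04a_h82.B1b
import Pool.Agent.W_a2e04a_h82.B3a
import Pool.Agent.W_a2e04a_h82.B3b

namespace Pool.Agent.W_a2e04a_h82

open Finset Filter Asymptotics

private lemma b3_exists_pos {r : ℕ} (a : Fin r → ℝ) (ha : ∀ i, 0 < a i) :
    ∃ μ > 0, ∀ i, μ ≤ a i := by
  rcases Nat.eq_zero_or_pos r with hr | hr
  · subst hr
    exact ⟨1, one_pos, fun i => i.elim0⟩
  · obtain ⟨i, -, hi⟩ := Finset.exists_min_image Finset.univ a ⟨⟨0, hr⟩, Finset.mem_univ _⟩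
    exact ⟨a i, ha i, fun j => hi j (Finset.mem_univ j)⟩

private lemma b3_rate (D : ℝ) (f : ℕ → ℝ) (C : ℝ) (hC : 0 < C)
    (hf : Tendsto f atTop (nhds C)) (h : ∀ n : ℕ, Real.exp ((n : ℝ) * D) = f n) : D = 0 := by
  have hf' : Tendsto (fun n : ℕ => Real.exp ((n : ℝ) * D)) atTop (nhds C) := by
    simp_rw [h]; exact hf
  rcases lt_trichotomy D 0 with hD | hD | hD
  · have h1 : Tendsto (fun n : ℕ => Real.exp ((n : ℝ) * D)) atTop (nhds 0) :=
      Real.tendsto_exp_atBot.comp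
        (tendsto_natCast_atTop_atTop.atTop_mul_const_of_neg hD)
    exact absurd (tendsto_nhds_unique hf' h1) hC.ne'
  · exact hD
  · have h1 : Tendsto (fun n : ℕ => Real.exp ((n : ℝ) * D)) atTop atTop :=
      Real.tendsto_exp_atTop.comp
        (tendsto_natCast_atTop_atTop.atTop_mul_const hD)
    exact absurd hf' (not_tendsto_nhds_of_tendsto_atTop h1 C)

/-- The comparison of coefficients. The two growth rates agree because `u v` and `u' v'` have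
nonzero limits; then `|u v| = |u' v'|` and the sign of `u v * (u' v')` is eventually constant,
so eventually `u v = κ u' v'` with `κ = 1` or `κ = -1`; choose `μ` below all `a i`, `a' i` and
`k ≥ k₀` with `(k + 1) μ > E`; `prod_approx`, `expSum_unique`. -/
lemma compare {r : ℕ} (a a' : Fin r → ℝ) (ha : ∀ i, 0 < a i) (ha' : ∀ i, 0 < a' i)
    (m₁ m₂ m₁' m₂' : Finset (Fin (r + 1)) → ℝ) (h₁ : Good m₁) (h₂ : Good m₂)
    (h₁' : Good m₁') (h₂' : Good m₂') (u v u' v' : ℕ → ℝ)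
    (hu : HasTop m₁ a u) (hv : HasTop m₂ (a ∘ Fin.rev) v)
    (hu' : HasTop m₁' a' u') (hv' : HasTop m₂' (a' ∘ Fin.rev) v')
    (h : ∀ n : ℕ, Real.exp ((n : ℝ) * ∑ i, a i) * |u n * v n| =
      Real.exp ((n : ℝ) * ∑ i, a' i) * |u' n * v' n|) (E : ℝ) (k₀ : ℕ) :
    ∑ i, a i = ∑ i, a' i ∧
    ∃ k, k₀ ≤ k ∧ ∃ T₁ T₂ T₁' T₂' : MvPolynomial (Fin r) ℝ,
      Appr m₁ k T₁ ∧ Appr m₂ k T₂ ∧ Appr m₁' k T₁' ∧ Appr m₂' k T₂' ∧
      ∃ κ : ℝ, κ ≠ 0 ∧ ∀ e < E,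
        cw (pre a) (pre (a ∘ Fin.rev)) T₁ T₂ e =
          κ * cw (pre a') (pre (a' ∘ Fin.rev)) T₁' T₂' e := by
  classical
  have hw := hu.2.mul hv.2
  have hw' := hu'.2.mul hv'.2
  set W := m₁ {0} * m₂ {0} with hW
  set W' := m₁' {0} * m₂' {0} with hW'
  have W0 : W ≠ 0 := mul_ne_zero h₁.z h₂.z
  have W0' : W' ≠ 0 := mul_ne_zero h₁'.z h₂'.z
  -- nonvanishing for all n
  have key : ∑ i, a i = ∑ i, a' i := by
    have hev : ∀ᶠ n : ℕ in atTop, u n * v n ≠ 0 := hw.eventually_ne W0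
    obtain ⟨N, hN⟩ := eventually_atTop.1 hev
    have hlim : Tendsto (fun n : ℕ => |u' n * v' n| / |u n * v n|) atTop
        (nhds (|W'| / |W|)) := (hw'.abs).div hw.abs (abs_ne_zero.2 W0)
    have hD : ∀ n ≥ N, Real.exp ((n : ℝ) * (∑ i, a i - ∑ i, a' i)) =
        |u' n * v' n| / |u n * v n| := by
      intro n hn
      have h1 := h n
      have h2 : |u n * v n| ≠ 0 := abs_ne_zero.2 (hN n hn)
      rw [eq_div_iff h2, mul_sub, Real.exp_sub, div_mul_eq_mul_div, h1]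
      field_simp
    have hlim2 : Tendsto (fun n : ℕ => |u' (n + N) * v' (n + N)| / |u (n + N) * v (n + N)| *
        Real.exp (-((N : ℝ) * (∑ i, a i - ∑ i, a' i)))) atTop
        (nhds (|W'| / |W| * Real.exp (-((N : ℝ) * (∑ i, a i - ∑ i, a' i))))) :=
      ((tendsto_add_atTop_iff_nat N).2 hlim).mul_const _
    have := b3_rate (∑ i, a i - ∑ i, a' i) _ _
      (mul_pos (div_pos (abs_pos.2 W0') (abs_pos.2 W0)) (Real.exp_pos _)) hlim2 (by
        intro n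
        rw [← hD (n + N) (by omega), ← Real.exp_add]
        congr 1
        push_cast
        ring)
    linarith
  refine ⟨key, ?_⟩
  have habs : ∀ n, |u n * v n| = |u' n * v' n| := by
    intro n
    have h1 := h n
    rw [key] at h1
    exact mul_left_cancel₀ (Real.exp_pos _).ne' h1
  obtain ⟨κ, hκ, hev⟩ : ∃ κ : ℝ, κ ≠ 0 ∧ ∀ᶠ n : ℕ in atTop, u n * v n = κ * (u' n * v' n) := by
    have hp := hw.mul hw'
    rcases lt_or_gt_of_ne (mul_ne_zero W0 W0') with hneg | hpos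
    · refine ⟨-1, by norm_num, ?_⟩
      filter_upwards [hp.eventually (gt_mem_nhds hneg)] with n hn
      rcases abs_eq_abs.1 (habs n) with e | e
      · rw [e] at hn
        nlinarith [mul_self_nonneg (u' n * v' n)]
      · rw [e]; ring
    · refine ⟨1, one_ne_zero, ?_⟩
      filter_upwards [hp.eventually (lt_mem_nhds hpos)] with n hn
      rcases abs_eq_abs.1 (habs n) with e | e
      · rw [e]; ring
      · rw [e] at hn
        nlinarith [mul_self_nonneg (u' n * v' n)]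
  obtain ⟨μ₁, hμ₁, hm₁⟩ := b3_exists_pos a ha
  obtain ⟨μ₂, hμ₂, hm₂⟩ := b3_exists_pos a' ha'
  set μ := min μ₁ μ₂ with hμdef
  have hμ : 0 < μ := lt_min hμ₁ hμ₂
  have ha1 : ∀ i, μ ≤ a i := fun i => (min_le_left _ _).trans (hm₁ i)
  have ha2 : ∀ i, μ ≤ a' i := fun i => (min_le_right _ _).trans (hm₂ i)
  obtain ⟨k₁, hk₁⟩ := exists_nat_gt (E / μ)
  set k := max k₀ k₁ with hk
  have hkE : E < ((k + 1 : ℕ) : ℝ) * μ := by
    rw [div_lt_iff₀ hμ] at hk₁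
    have : (k₁ : ℝ) ≤ ((k + 1 : ℕ) : ℝ) := by
      exact_mod_cast (le_max_right k₀ k₁).trans (Nat.le_succ _)
    nlinarith
  obtain ⟨T₁, hT₁⟩ := exists_appr m₁ h₁ k
  obtain ⟨T₂, hT₂⟩ := exists_appr m₂ h₂ k
  obtain ⟨T₁', hT₁'⟩ := exists_appr m₁' h₁' k
  obtain ⟨T₂', hT₂'⟩ := exists_appr m₂' h₂' k
  refine ⟨k, le_max_left _ _, T₁, T₂, T₁', T₂', hT₁, hT₂, hT₁', hT₂', κ, hκ, ?_⟩
  have P := prod_approx m₁ m₂ h₁ h₂ a (a ∘ Fin.rev) μ hμ ha1 (fun i => ha1 _) u v hu hv k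
    T₁ T₂ hT₁ hT₂
  have P' := prod_approx m₁' m₂' h₁' h₂' a' (a' ∘ Fin.rev) μ hμ ha2 (fun i => ha2 _) u' v' hu'
    hv' k T₁' T₂' hT₁' hT₂'
  have Q := (P'.const_mul_left κ).sub P
  have Q' := Q.congr' (f₂ := fun n : ℕ =>
    ∑ p ∈ T₁.support ×ˢ T₂.support, (T₁.coeff p.1 * T₂.coeff p.2) *
      Real.exp (-((n : ℝ) * (dot (pre a) p.1 + dot (pre (a ∘ Fin.rev)) p.2))) -
    ∑ p ∈ T₁'.support ×ˢ T₂'.support, (κ * (T₁'.coeff p.1 * T₂'.coeff p.2)) *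
      Real.exp (-((n : ℝ) * (dot (pre a') p.1 + dot (pre (a' ∘ Fin.rev)) p.2)))) (by
    filter_upwards [hev] with n hn
    rw [hn, mul_sub, Finset.mul_sum]
    simp_rw [mul_assoc]
    ring) (Filter.EventuallyEq.refl _ _)
  intro e he
  have R := expSum_unique _ _ _ _ _ _ _ Q' e (he.trans hkE)
  unfold cw
  rw [Finset.mul_sum]
  convert R using 1
end Pool.Agent.W_a2e04a_h82
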