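import Pool.Agent.W_a2e04a_h82.Core

namespace Pool.Agent.W_a2e04a_h82

open Finset Filter Asymptotics

/-- Total weight of a pair of exponent vectors: the generators are the prefix sums
`a 0 + ... + a j` (multiplicities `m j`) and the suffix sums `a (rev j) + ... + a (r-1)`
(multiplicities `l j`). -/
def SS {r : ℕ} (a : Fin r → ℝ) (m l : Fin r →₀ ℕ) : ℝ :=
  dot (pre a) m + dot (pre (a ∘ Fin.rev)) l

/-- The multiplicity of `a i` in `SS a m l`. -/
def cc {r : ℕ} (m l : Fin r →₀ ℕ) (i : Fin r) : ℕ :=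
  ∑ j ∈ Finset.Ici i, m j + ∑ j ∈ Finset.Ici (Fin.rev i), l j

private lemma dot_pre {r : ℕ} (a : Fin r → ℝ) (m : Fin r →₀ ℕ) :
    dot (pre a) m = ∑ i, ((∑ j ∈ Finset.Ici i, m j : ℕ) : ℝ) * a i := by
  unfold dot pre
  simp_rw [Finset.mul_sum, Nat.cast_sum, Finset.sum_mul]
  rw [Finset.sum_comm' (t' := Finset.univ) (s' := fun i => Finset.Ici i)]
  intro x y
  simp

lemma SS_eq {r : ℕ} (a : Fin r → ℝ) (m l : Fin r →₀ ℕ) :
    SS a m l = ∑ i, (cc m l i : ℝ) * a i := by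
  unfold SS cc
  rw [dot_pre, dot_pre]
  have h : ∑ i, ((∑ j ∈ Finset.Ici i, l j : ℕ) : ℝ) * (a ∘ Fin.rev) i =
      ∑ i, ((∑ j ∈ Finset.Ici (Fin.rev i), l j : ℕ) : ℝ) * a i := by
    rw [← Equiv.sum_comp Fin.revPerm]
    simp
  rw [h, ← Finset.sum_add_distrib]
  refine Finset.sum_congr rfl fun i _ => ?_
  push_cast; ring

lemma SS_add {r : ℕ} (a : Fin r → ℝ) (m l m' l' : Fin r →₀ ℕ) :
    SS a (m + m') (l + l') = SS a m l + SS a m' l' := by
  unfold SS dot
  simp only [Finsupp.add_apply, Nat.cast_add, add_mul, Finset.sum_add_distrib]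
  ring

lemma SS_swap {r : ℕ} (a : Fin r → ℝ) (m l : Fin r →₀ ℕ) :
    SS (a ∘ Fin.rev) l m = SS a m l := by
  unfold SS
  have : (a ∘ Fin.rev) ∘ Fin.rev = a := by funext i; simp
  rw [this, add_comm]

lemma SS_single_left {r : ℕ} (a : Fin r → ℝ) (j : Fin r) (A : ℕ) :
    SS a (Finsupp.single j A) 0 = A * pre a j := by
  unfold SS dot
  simp [Finsupp.single_apply, ite_mul]

lemma SS_single_right {r : ℕ} (a : Fin r → ℝ) (j : Fin r) (A : ℕ) :
    SS a 0 (Finsupp.single j A) = A * pre (a ∘ Fin.rev) j := by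
  unfold SS dot
  simp [Finsupp.single_apply, ite_mul]

lemma cc_eq {r : ℕ} (a : Fin r → ℝ) (ha : LinearIndependent ℚ a) (m l m' l' : Fin r →₀ ℕ)
    (h : SS a m l = SS a m' l') (i : Fin r) : cc m l i = cc m' l' i := by
  rw [SS_eq, SS_eq] at h
  rw [Fintype.linearIndependent_iff] at ha
  have h1 : ∑ i, ((cc m l i : ℚ) - (cc m' l' i : ℚ)) • a i = 0 := by
    have : ∀ i, ((cc m l i : ℚ) - (cc m' l' i : ℚ)) • a i =
        (cc m l i : ℝ) * a i - (cc m' l' i : ℝ) * a i := by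
      intro i
      rw [Rat.smul_def]
      push_cast
      ring
    simp_rw [this]
    rw [Finset.sum_sub_distrib, h, sub_self]
  have h2 := ha _ h1 i
  have h3 : (cc m l i : ℚ) = (cc m' l' i : ℚ) := sub_eq_zero.1 h2
  exact_mod_cast h3

lemma SS_mem_span {r : ℕ} (a : Fin r → ℝ) (m l : Fin r →₀ ℕ) :
    SS a m l ∈ Submodule.span ℚ (Set.range a) := by
  rw [SS_eq]
  refine Submodule.sum_mem _ fun i _ => ?_
  have : (cc m l i : ℝ) * a i = (cc m l i : ℚ) • a i := by
    rw [Rat.smul_def]; push_cast; rfl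
  rw [this]
  exact Submodule.smul_mem _ _ (Submodule.subset_span ⟨i, rfl⟩)

/-- A nonzero element of the monoid splits off one generator. -/
lemma SS_split {r : ℕ} (a : Fin r → ℝ) (m l : Fin r →₀ ℕ) (h : ¬ (m = 0 ∧ l = 0)) :
    ∃ (k : Fin r) (m' l' : Fin r →₀ ℕ),
      SS a m l = pre a k + SS a m' l' ∨ SS a m l = pre (a ∘ Fin.rev) k + SS a m' l' := by
  by_cases hm : m = 0
  · have hl : l ≠ 0 := fun e => h ⟨hm, e⟩
    obtain ⟨k, hk⟩ := Finsupp.ne_iff.1 hl
    rw [Finsupp.zero_apply] at hk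
    refine ⟨k, m, l - Finsupp.single k 1, Or.inr ?_⟩
    have e : l = Finsupp.single k 1 + (l - Finsupp.single k 1) := by
      rw [add_tsub_cancel_of_le]
      rw [Finsupp.single_le_iff]
      omega
    calc SS a m l = SS a (0 + m) (Finsupp.single k 1 + (l - Finsupp.single k 1)) := by
          rw [zero_add, ← e]
      _ = _ := by rw [SS_add, SS_single_right]; simp
  · obtain ⟨k, hk⟩ := Finsupp.ne_iff.1 hm
    rw [Finsupp.zero_apply] at hk
    refine ⟨k, m - Finsupp.single k 1, l, Or.inl ?_⟩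
    have e : m = Finsupp.single k 1 + (m - Finsupp.single k 1) := by
      rw [add_tsub_cancel_of_le]
      rw [Finsupp.single_le_iff]
      omega
    calc SS a m l = SS a (Finsupp.single k 1 + (m - Finsupp.single k 1)) (0 + l) := by
          rw [zero_add, ← e]
      _ = _ := by rw [SS_add, SS_single_left]; simp

lemma SS_nonneg {r : ℕ} (a : Fin r → ℝ) (ha : ∀ i, 0 < a i) (m l : Fin r →₀ ℕ) :
    0 ≤ SS a m l := by
  rw [SS_eq]
  exact Finset.sum_nonneg fun i _ => mul_nonneg (Nat.cast_nonneg _) (ha i).le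

/-- `cw` at an exponent with a unique decomposition. -/
lemma cw_unique {r : ℕ} (a : Fin r → ℝ) (T₁ T₂ : MvPolynomial (Fin r) ℝ)
    (m₀ l₀ : Fin r →₀ ℕ)
    (h : ∀ m l, SS a m l = SS a m₀ l₀ → m = m₀ ∧ l = l₀) :
    cw (pre a) (pre (a ∘ Fin.rev)) T₁ T₂ (SS a m₀ l₀) = T₁.coeff m₀ * T₂.coeff l₀ := by
  classical
  unfold cw
  by_cases hs : (m₀, l₀) ∈ T₁.support ×ˢ T₂.support
  · have : (T₁.support ×ˢ T₂.support).filter
        (fun p => dot (pre a) p.1 + dot (pre (a ∘ Fin.rev)) p.2 = SS a m₀ l₀) = {(m₀, l₀)} := by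
      ext p
      rw [Finset.mem_filter, Finset.mem_singleton]
      constructor
      · rintro ⟨-, h2⟩
        obtain ⟨e1, e2⟩ := h p.1 p.2 h2
        exact Prod.ext e1 e2
      · rintro rfl
        exact ⟨hs, rfl⟩
    rw [this, Finset.sum_singleton]
  · have : (T₁.support ×ˢ T₂.support).filter
        (fun p => dot (pre a) p.1 + dot (pre (a ∘ Fin.rev)) p.2 = SS a m₀ l₀) = ∅ := by
      ext p
      rw [Finset.mem_filter]
      constructor
      · rintro ⟨h1, h2⟩
        obtain ⟨e1, e2⟩ := h p.1 p.2 h2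
        exact absurd (by rwa [← e1, ← e2]) hs
      · intro h1
        simp at h1
    rw [this, Finset.sum_empty]
    rw [Finset.mem_product, MvPolynomial.mem_support_iff, MvPolynomial.mem_support_iff,
      not_and_or, not_not, not_not] at hs
    rcases hs with hs | hs
    · simp only at hs; rw [hs, zero_mul]
    · simp only at hs; rw [hs, mul_zero]

lemma cw_ne_zero {r : ℕ} (a : Fin r → ℝ) (T₁ T₂ : MvPolynomial (Fin r) ℝ) (E : ℝ)
    (h : cw (pre a) (pre (a ∘ Fin.rev)) T₁ T₂ E ≠ 0) : ∃ m l, SS a m l = E := by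
  classical
  unfold cw at h
  obtain ⟨p, hp, -⟩ := Finset.exists_ne_zero_of_sum_ne_zero h
  exact ⟨p.1, p.2, (Finset.mem_filter.1 hp).2⟩

end Pool.Agent.W_a2e04a_h82
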