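import Pool.Agent.W_a2e04a_h82.C1a

namespace Pool.Agent.W_a2e04a_h82

open Finset Filter Asymptotics

private lemma sum_Ici_last {r : ℕ} (f : Fin r → ℕ) (i : Fin r) (h : (i : ℕ) + 1 = r) :
    ∑ j ∈ Finset.Ici i, f j = f i := by
  have : Finset.Ici i = {i} := by
    ext j
    rw [Finset.mem_Ici, Finset.mem_singleton, Fin.le_def, Fin.ext_iff]
    have := j.2
    omega
  rw [this, Finset.sum_singleton]

private lemma sum_Ici_zero {r : ℕ} (f : Fin r → ℕ) (i : Fin r) (h : (i : ℕ) = 0) :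
    ∑ j ∈ Finset.Ici i, f j = ∑ j, f j := by
  have : Finset.Ici i = Finset.univ := by
    ext j
    simp only [Finset.mem_Ici, Fin.le_def, Finset.mem_univ, iff_true]
    omega
  rw [this]

private lemma sum_Ici_step {r : ℕ} (f : Fin r → ℕ) (i i' : Fin r) (h : (i' : ℕ) = i + 1) :
    ∑ j ∈ Finset.Ici i, f j = f i + ∑ j ∈ Finset.Ici i', f j := by
  have : Finset.Ici i = insert i (Finset.Ici i') := by
    ext j
    rw [Finset.mem_insert, Finset.mem_Ici, Finset.mem_Ici, Fin.le_def, Fin.le_def, Fin.ext_iff]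
    omega
  rw [this, Finset.sum_insert]
  rw [Finset.mem_Ici, Fin.le_def]
  omega

private lemma cc_step {r : ℕ} (m l : Fin r →₀ ℕ) (i i' : Fin r) (h : (i' : ℕ) = i + 1) :
    cc m l i + l (Fin.rev i') = m i + cc m l i' := by
  unfold cc
  rw [sum_Ici_step m i i' h, sum_Ici_step l (Fin.rev i') (Fin.rev i) (by
    rw [Fin.val_rev, Fin.val_rev]
    have := i'.2
    omega)]
  ring

private lemma cc_zero {r : ℕ} (m l : Fin r →₀ ℕ) (i : Fin r) (h : (i : ℕ) = 0) :
    cc m l i = ∑ j, m j + l (Fin.rev i) := by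
  unfold cc
  rw [sum_Ici_zero m i h, sum_Ici_last l (Fin.rev i) (by
    rw [Fin.val_rev]; have := i.2; omega)]

private lemma cc_last {r : ℕ} (m l : Fin r →₀ ℕ) (i : Fin r) (h : (i : ℕ) + 1 = r) :
    cc m l i = m i + ∑ j, l j := by
  unfold cc
  rw [sum_Ici_last m i h, sum_Ici_zero l (Fin.rev i) (by rw [Fin.val_rev]; omega)]

private lemma eq_single {r : ℕ} (m : Fin r →₀ ℕ) (k : Fin r) (A : ℕ) (h1 : A ≤ m k)
    (h2 : ∑ j, m j ≤ A) : m = Finsupp.single k A := by
  classical
  have h3 : m k + ∑ j ∈ Finset.univ.erase k, m j = ∑ j, m j :=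
    Finset.add_sum_erase Finset.univ m (Finset.mem_univ k)
  have h4 : ∑ j ∈ Finset.univ.erase k, m j = 0 := by omega
  ext j
  rw [Finsupp.single_apply]
  split_ifs with hj
  · subst hj; omega
  · exact (Finset.sum_eq_zero_iff.1 h4) j (Finset.mem_erase.2 ⟨fun e => hj e.symm,
      Finset.mem_univ j⟩)

/-- Uniqueness for pure prefix sums: `cc_eq` at the last index gives `l = 0` and
`m (last) = 0`, the differences of consecutive entries of `cc` give `m` (the difference of the
entries `i` and `i + 1` is `m i - l (rev (i + 1))`). -/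
lemma SS_uniq_left {r : ℕ} (a : Fin r → ℝ) (ha : LinearIndependent ℚ a)
    (m l m₀ : Fin r →₀ ℕ) (h₀ : ∀ j : Fin r, (j : ℕ) + 1 = r → m₀ j = 0)
    (h : SS a m l = SS a m₀ 0) : m = m₀ ∧ l = 0 := by
  have hc := cc_eq a ha m l m₀ 0 h
  rcases Nat.eq_zero_or_pos r with hr | hr
  · subst hr
    exact ⟨by ext j; exact j.elim0, by ext j; exact j.elim0⟩
  · set lst : Fin r := ⟨r - 1, by omega⟩ with hlst
    have hl1 : (lst : ℕ) + 1 = r := by simp [hlst]; omega
    have h1 := hc lst
    rw [cc_last m l lst hl1, cc_last m₀ 0 lst hl1, h₀ lst hl1] at h1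
    simp only [Finsupp.coe_zero, Pi.zero_apply, Finset.sum_const_zero, add_zero] at h1
    have h2 : ∑ j, l j = 0 := by omega
    have h3 : m lst = 0 := by omega
    have hl : l = 0 := by
      ext j
      exact (Finset.sum_eq_zero_iff.1 h2) j (Finset.mem_univ j)
    refine ⟨?_, hl⟩
    ext i
    by_cases hi : (i : ℕ) + 1 < r
    · have e1 := cc_step m l i ⟨i + 1, hi⟩ rfl
      have e2 := cc_step m₀ 0 i ⟨i + 1, hi⟩ rfl
      rw [hl] at e1
      rw [hl] at hc
      rw [hc i, hc] at e1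
      simp only [Finsupp.coe_zero, Pi.zero_apply, add_zero] at e1 e2
      omega
    · have hi1 : (i : ℕ) + 1 = r := by have := i.2; omega
      have : i = lst := by rw [Fin.ext_iff]; omega
      rw [this, h3, h₀ lst hl1]

/-- By `SS_swap` from the previous lemma. -/
lemma SS_uniq_right {r : ℕ} (a : Fin r → ℝ) (ha : LinearIndependent ℚ a)
    (m l l₀ : Fin r →₀ ℕ) (h₀ : ∀ j : Fin r, (j : ℕ) + 1 = r → l₀ j = 0)
    (h : SS a m l = SS a 0 l₀) : m = 0 ∧ l = l₀ := by
  rw [← SS_swap, ← SS_swap a 0 l₀] at h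
  have ha' : LinearIndependent ℚ (a ∘ Fin.rev) := ha.comp _ Fin.rev_injective
  exact (SS_uniq_left (a ∘ Fin.rev) ha' l m l₀ h₀ h).symm

/-- Uniqueness for a multiple of a prefix sum plus a multiple of a suffix sum which are not
complementary. First entry of `cc`: `∑ m + n (last) = A`; last entry: `m (last) + ∑ n = B`;
difference of the entries `k`, `k+1`: `m k ≥ A`; difference of the entries `s - 1`, `s`, where
`s = rev l`: `n l ≥ B`. -/
lemma SS_uniq_mixed {r : ℕ} (a : Fin r → ℝ) (ha : LinearIndependent ℚ a)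
    (m n : Fin r →₀ ℕ) (k l : Fin r) (hk : (k : ℕ) + 1 < r) (hl : (l : ℕ) + 1 < r)
    (hkl : (k : ℕ) + l + 2 ≠ r) (A B : ℕ)
    (h : SS a m n = SS a (Finsupp.single k A) (Finsupp.single l B)) :
    m = Finsupp.single k A ∧ n = Finsupp.single l B := by
  classical
  have hc := cc_eq a ha _ _ _ _ h
  have hr : 0 < r := by omega
  -- first entry
  have e0 := hc ⟨0, hr⟩
  rw [cc_zero _ _ ⟨0, hr⟩ rfl, cc_zero _ _ ⟨0, hr⟩ rfl] at e0
  have s1 : ∑ j, (Finsupp.single k A) j = A := by simp [Finsupp.single_apply]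
  have s2 : ∑ j, (Finsupp.single l B) j = B := by simp [Finsupp.single_apply]
  have s3 : (Finsupp.single l B) (Fin.rev ⟨0, hr⟩) = 0 := by
    rw [Finsupp.single_apply, if_neg]
    intro e
    rw [Fin.ext_iff, Fin.val_rev] at e
    simp at e
    omega
  rw [s1, s3] at e0
  -- last entry
  have hr1 : r - 1 < r := by omega
  have e1 := hc ⟨r - 1, hr1⟩
  rw [cc_last _ _ ⟨r - 1, hr1⟩ (by simp; omega), cc_last _ _ ⟨r - 1, hr1⟩ (by simp; omega)] at e1
  have s4 : (Finsupp.single k A) (⟨r - 1, hr1⟩ : Fin r) = 0 := by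
    rw [Finsupp.single_apply, if_neg]
    intro e
    rw [Fin.ext_iff] at e
    simp at e
    omega
  rw [s2, s4] at e1
  -- the step at k
  have f1 := cc_step m n k ⟨k + 1, hk⟩ rfl
  have f2 := cc_step (Finsupp.single k A) (Finsupp.single l B) k ⟨k + 1, hk⟩ rfl
  have s5 : (Finsupp.single l B) (Fin.rev ⟨k + 1, hk⟩) = 0 := by
    rw [Finsupp.single_apply, if_neg]
    intro e
    rw [Fin.ext_iff, Fin.val_rev] at e
    simp at e
    omega
  rw [s5, Finsupp.single_eq_same] at f2
  rw [hc k, hc ⟨k + 1, hk⟩] at f1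
  -- the step at rev l
  have hrl : ((Fin.rev l : Fin r) : ℕ) = r - 1 - l := by rw [Fin.val_rev]; omega
  have hi : r - 2 - l < r := by omega
  have g1 := cc_step m n ⟨r - 2 - l, hi⟩ (Fin.rev l) (by rw [hrl]; simp; omega)
  have g2 := cc_step (Finsupp.single k A) (Finsupp.single l B) ⟨r - 2 - l, hi⟩ (Fin.rev l)
    (by rw [hrl]; simp; omega)
  have s6 : (Finsupp.single k A) (⟨r - 2 - l, hi⟩ : Fin r) = 0 := by
    rw [Finsupp.single_apply, if_neg]
    intro e
    rw [Fin.ext_iff] at e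
    simp at e
    omega
  rw [Fin.rev_rev, s6, Finsupp.single_eq_same] at g2
  rw [Fin.rev_rev, hc ⟨r - 2 - l, hi⟩, hc (Fin.rev l)] at g1
  refine ⟨eq_single m k A ?_ ?_, eq_single n l B ?_ ?_⟩
  · omega
  · omega
  · omega
  · omega

/-- Proper prefix sums are irreducible (`SS_add`, `SS_uniq_left`). -/
lemma SS_irred {r : ℕ} (a : Fin r → ℝ) (ha : LinearIndependent ℚ a)
    (j : Fin r) (hj : (j : ℕ) + 1 < r) (m l m' l' : Fin r →₀ ℕ)
    (h : SS a m l + SS a m' l' = pre a j) : (m = 0 ∧ l = 0) ∨ (m' = 0 ∧ l' = 0) := by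
  classical
  have h1 : SS a (m + m') (l + l') = SS a (Finsupp.single j 1) 0 := by
    rw [SS_add, h, SS_single_left]; simp
  obtain ⟨e1, e2⟩ := SS_uniq_left a ha _ _ _ (by
    intro i hi
    rw [Finsupp.single_apply, if_neg]
    rintro rfl
    omega) h1
  have hl : l = 0 ∧ l' = 0 := by
    constructor
    · ext i
      have := DFunLike.congr_fun e2 i
      rw [Finsupp.add_apply, Finsupp.zero_apply] at this
      rw [Finsupp.zero_apply]
      omega
    · ext i
      have := DFunLike.congr_fun e2 i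
      rw [Finsupp.add_apply, Finsupp.zero_apply] at this
      rw [Finsupp.zero_apply]
      omega
  have hj1 := DFunLike.congr_fun e1 j
  rw [Finsupp.add_apply, Finsupp.single_eq_same] at hj1
  have hother : ∀ i, i ≠ j → m i = 0 ∧ m' i = 0 := by
    intro i hi
    have := DFunLike.congr_fun e1 i
    rw [Finsupp.add_apply, Finsupp.single_apply, if_neg (fun e => hi e.symm)] at this
    omega
  rcases Nat.eq_zero_or_pos (m j) with h0 | h0
  · left
    refine ⟨?_, hl.1⟩
    ext i
    rw [Finsupp.zero_apply]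
    by_cases hi : i = j
    · rw [hi]; exact h0
    · exact (hother i hi).1
  · right
    refine ⟨?_, hl.2⟩
    ext i
    rw [Finsupp.zero_apply]
    by_cases hi : i = j
    · rw [hi]; omega
    · exact (hother i hi).2

end Pool.Agent.W_a2e04a_h82
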