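import Pool.Agent.W_a2e04a_h82.Core

namespace Pool.Agent.W_a2e04a_h82

open Finset Filter Asymptotics

/-- A prefix sum and a suffix sum which are complementary add up to the total sum. -/
lemma pre_compl {r : ℕ} (a : Fin r → ℝ) (k l : Fin r) (h : (k : ℕ) + l + 2 = r) :
    pre a k + pre (a ∘ Fin.rev) l = ∑ i, a i := by
  classical
  have h1 : pre (a ∘ Fin.rev) l = ∑ i ∈ Finset.Ioi k, a i := by
    unfold pre
    refine Finset.sum_bij (fun i _ => Fin.rev i) ?_ ?_ ?_ ?_
    · intro i hi
      rw [Finset.mem_Iic, Fin.le_def] at hi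
      rw [Finset.mem_Ioi, Fin.lt_def, Fin.val_rev]
      omega
    · intro i _ j _ hij
      exact Fin.rev_injective hij
    · intro j hj
      rw [Finset.mem_Ioi, Fin.lt_def] at hj
      refine ⟨Fin.rev j, ?_, Fin.rev_rev j⟩
      rw [Finset.mem_Iic, Fin.le_def, Fin.val_rev]
      omega
    · intro i _
      rfl
  rw [h1]
  unfold pre
  rw [← Finset.sum_union]
  · congr 1
    ext i
    simp only [Finset.mem_union, Finset.mem_Iic, Finset.mem_Ioi, Finset.mem_univ, iff_true]
    exact le_or_gt i k
  · rw [Finset.disjoint_left]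
    intro i hi hi'
    rw [Finset.mem_Iic] at hi
    rw [Finset.mem_Ioi] at hi'
    exact absurd hi' (not_lt.2 hi)

lemma pre_last {r : ℕ} (a : Fin r → ℝ) (k : Fin r) (h : (k : ℕ) + 1 = r) :
    pre a k = ∑ i, a i := by
  unfold pre
  congr 1
  ext i
  simp only [Finset.mem_Iic, Finset.mem_univ, iff_true, Fin.le_def]
  have := i.2
  omega

lemma pre_strictMono {r : ℕ} (a : Fin r → ℝ) (ha : ∀ i, 0 < a i) : StrictMono (pre a) := by
  intro i j hij
  unfold pre
  refine Finset.sum_lt_sum_of_subset (i := j) ?_ ?_ ?_ (ha j) fun l _ _ => (ha l).le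
  · intro l hl
    rw [Finset.mem_Iic] at hl ⊢
    exact hl.trans hij.le
  · exact Finset.mem_Iic.2 le_rfl
  · rw [Finset.mem_Iic]
    exact not_le.2 hij

lemma pre_pos {r : ℕ} (a : Fin r → ℝ) (ha : ∀ i, 0 < a i) (j : Fin r) : 0 < pre a j :=
  Finset.sum_pos (fun i _ => ha i) ⟨j, Finset.mem_Iic.2 le_rfl⟩

/-- The sequence is determined by its partial sums. -/
lemma pre_injective {r : ℕ} (a b : Fin r → ℝ) (h : ∀ j, pre a j = pre b j) : a = b := by
  classical
  have key : ∀ (c : Fin r → ℝ) (j : Fin r), c j = pre c j - ∑ i ∈ Finset.Iio j, c i := by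
    intro c j
    unfold pre
    have : Finset.Iic j = insert j (Finset.Iio j) := by
      ext i
      rw [Finset.mem_insert, Finset.mem_Iic, Finset.mem_Iio, le_iff_eq_or_lt]
    rw [this, Finset.sum_insert (by simp)]
    ring
  have step : ∀ (c : Fin r → ℝ) (j : Fin r), ∑ i ∈ Finset.Iio j, c i =
      if hj : (j : ℕ) = 0 then 0 else pre c ⟨j - 1, by have := j.2; omega⟩ := by
    intro c j
    split_ifs with hj
    · rw [Finset.sum_eq_zero]
      intro i hi
      rw [Finset.mem_Iio, Fin.lt_def] at hi
      omega
    · unfold pre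
      congr 1
      ext i
      rw [Finset.mem_Iio, Finset.mem_Iic, Fin.lt_def, Fin.le_def]
      simp only
      omega
  funext j
  rw [key a j, key b j, h j, step a j, step b j]
  split_ifs with hj
  · rfl
  · rw [h]

/-- If the partial sums of `a` are rational combinations of the entries of `b`, and `a` is
independent, then `b` is independent (dimension count: each `a j` is in the span of `b`). -/
lemma indep_transfer {r : ℕ} (a b : Fin r → ℝ) (ha : LinearIndependent ℚ a)
    (h : ∀ j, pre a j ∈ Submodule.span ℚ (Set.range b)) : LinearIndependent ℚ b := by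
  classical
  have step : ∀ (j : Fin r), ∑ i ∈ Finset.Iio j, a i =
      if hj : (j : ℕ) = 0 then 0 else pre a ⟨j - 1, by have := j.2; omega⟩ := by
    intro j
    split_ifs with hj
    · rw [Finset.sum_eq_zero]
      intro i hi
      rw [Finset.mem_Iio, Fin.lt_def] at hi
      omega
    · unfold pre
      congr 1
      ext i
      rw [Finset.mem_Iio, Finset.mem_Iic, Fin.lt_def, Fin.le_def]
      simp only
      omega
  have hmem : ∀ j, a j ∈ Submodule.span ℚ (Set.range b) := by
    intro j
    have : a j = pre a j - ∑ i ∈ Finset.Iio j, a i := by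
      unfold pre
      have : Finset.Iic j = insert j (Finset.Iio j) := by
        ext i
        rw [Finset.mem_insert, Finset.mem_Iic, Finset.mem_Iio, le_iff_eq_or_lt]
      rw [this, Finset.sum_insert (by simp)]
      ring
    rw [this]
    refine Submodule.sub_mem _ (h j) ?_
    rw [step j]
    split_ifs with hj
    · exact Submodule.zero_mem _
    · exact h _
  have hle : Submodule.span ℚ (Set.range a) ≤ Submodule.span ℚ (Set.range b) := by
    rw [Submodule.span_le]
    rintro _ ⟨j, rfl⟩
    exact hmem j
  have : FiniteDimensional ℚ (Submodule.span ℚ (Set.range b)) :=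
    FiniteDimensional.span_of_finite ℚ (Set.finite_range b)
  have h1 : Fintype.card (Fin r) = Module.finrank ℚ (Submodule.span ℚ (Set.range a)) :=
    (finrank_span_eq_card ha).symm
  have h2 : Module.finrank ℚ (Submodule.span ℚ (Set.range a)) ≤
      Module.finrank ℚ (Submodule.span ℚ (Set.range b)) := Submodule.finrank_mono hle
  rw [linearIndependent_iff_card_le_finrank_span]
  rw [h1]
  exact h2

/-- If every proper partial sum of `a` is a proper partial sum of `b`, and the total sums
agree, then `a = b` (both families of proper partial sums are strictly increasing and have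
`r - 1` members). -/
lemma eq_of_proper {r : ℕ} (a b : Fin r → ℝ) (ha : ∀ i, 0 < a i) (hb : ∀ i, 0 < b i)
    (hs : ∑ i, a i = ∑ i, b i)
    (h : ∀ j : Fin r, (j : ℕ) + 1 < r → ∃ k : Fin r, (k : ℕ) + 1 < r ∧ pre a j = pre b k) :
    a = b := by
  classical
  apply pre_injective
  have h' : ∀ j : Fin r, ∃ k : Fin r, pre a j = pre b k := by
    intro j
    by_cases hj : (j : ℕ) + 1 < r
    · obtain ⟨k, -, hk⟩ := h j hj
      exact ⟨k, hk⟩
    · have hj1 : (j : ℕ) + 1 = r := by have := j.2; omega
      exact ⟨j, by rw [pre_last a j hj1, pre_last b j hj1, hs]⟩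
  choose f hf using h'
  have hmono : StrictMono f := by
    intro i j hij
    have h1 := pre_strictMono a ha hij
    rw [hf i, hf j] at h1
    exact (pre_strictMono b hb).lt_iff_lt.1 h1
  have hid : f = id := by
    have hsurj : Function.Surjective f :=
      Finite.injective_iff_surjective.1 hmono.injective
    have e : StrictMono f ↔ True := by simp [hmono]
    let e1 : Fin r ≃o Fin r := StrictMono.orderIsoOfSurjective f hmono hsurj
    have : e1 = OrderIso.refl _ := Subsingleton.elim _ _
    funext i
    have h2 : e1 i = i := by rw [this]; rfl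
    exact h2
  intro j
  rw [hf j, hid]
  rfl

end Pool.Agent.W_a2e04a_h82
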