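import Pool.Agent.W_a2e04a_h82.Core

namespace Pool.Agent.W_a2e04a_h82

open Finset Filter Asymptotics

/-- Scalar form of the coefficient test. From `e0`: `E₀ = g c² - q' c + m' = 0`. With
`b = c q - m ≠ 0`, `h1` gives `c β = b`, `e2` gives `E₁ β = - g q b = - g q c β`, so
`E₁ = - g q c`; then `e3` gives `c γ = q β`, and `h2` gives `β ^ 2 = 0`. -/
lemma block_scalar (c q m g q' m' p τ β γ δ : ℝ) (hc : c ≠ 0) (hq : q ≠ 0)
    (hb : c * q - m ≠ 0) (hg : g ≠ 0)
    (h1 : 2 * c * β - c * β - q * c + m = 0)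
    (h2 : β ^ 2 + 2 * c * γ - c * γ - q * β = 0)
    (e0 : (g * c ^ 2 - q' * c + m') * c = 0)
    (e1 : (g * c ^ 2 - q' * c + m') * β + (2 * g * c * q - 2 * g * m - q' * q + p) * c =
      g * m * c - q' * m + τ)
    (e2 : (g * c ^ 2 - q' * c + m') * γ + (2 * g * c * q - 2 * g * m - q' * q + p) * β +
      g * q ^ 2 * c = g * m * q)
    (e3 : (g * c ^ 2 - q' * c + m') * δ + (2 * g * c * q - 2 * g * m - q' * q + p) * γ +
      g * q ^ 2 * β = 0) : False := by
  have hE0 : g * c ^ 2 - q' * c + m' = 0 := (mul_eq_zero.1 e0).resolve_right hc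
  rw [hE0] at e2 e3
  set E1 := 2 * g * c * q - 2 * g * m - q' * q + p with hE1
  have hcb : c * β = c * q - m := by linarith
  have hβ : β ≠ 0 := by
    rintro rfl
    apply hb
    linarith
  have h3 : β * (E1 + g * q * c) = 0 := by
    linear_combination e2 + g * q * hcb
  have h4 : E1 = -(g * q * c) := by
    have := (mul_eq_zero.1 h3).resolve_left hβ
    linarith
  rw [h4] at e3
  have h5 : g * q * (q * β - c * γ) = 0 := by linear_combination e3
  have h6 : q * β - c * γ = 0 := (mul_eq_zero.1 h5).resolve_left (mul_ne_zero hg hq)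
  have h7 : β ^ 2 = 0 := by linear_combination h2 + h6
  exact hβ (pow_eq_zero_iff (two_ne_zero) |>.1 h7)

private lemma a2_prod_single {r : ℕ} {R : Type*} [CommRing R] [Algebra ℝ R] (s : Fin r → R)
    (j : Fin r) (K : Finset (Fin (r + 1))) (hK : K ⊆ {0, j.succ}) :
    (∏ i : Fin r, if i.succ ∈ K then s i else 1) = if j.succ ∈ K then s j else 1 := by
  classical
  rw [Finset.prod_eq_single j]
  · intro i _ hi
    rw [if_neg]
    intro h
    have := hK h
    rw [Finset.mem_insert, Finset.mem_singleton] at this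
    rcases this with h1 | h1
    · exact Fin.succ_ne_zero i h1
    · exact hi (Fin.succ_injective _ h1)
  · intro h
    exact absurd (Finset.mem_univ j) h

private lemma a2_FF_restrict {r : ℕ} {R : Type*} [CommRing R] [Algebra ℝ R]
    (m : Finset (Fin (r + 1)) → ℝ) (s : Fin r → R) (t : R) (j : Fin r)
    (hs : ∀ i, i ≠ j → s i = 0) :
    FF m s t = algebraMap ℝ R (m ∅) * t ^ (r + 1) - algebraMap ℝ R (m {0}) * t ^ r -
      algebraMap ℝ R (m {j.succ}) * s j * t ^ r +
      algebraMap ℝ R (m {0, j.succ}) * s j * t ^ (r - 1) := by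
  classical
  unfold FF
  have h0 : (0 : Fin (r + 1)) ∉ ({j.succ} : Finset (Fin (r + 1))) := by
    rw [Finset.mem_singleton]
    exact (Fin.succ_ne_zero j).symm
  rw [← Finset.sum_subset (Finset.subset_univ ({0, j.succ} : Finset (Fin (r + 1))).powerset)]
  · rw [Finset.sum_powerset_insert h0]
    have e1 : ({j.succ} : Finset (Fin (r + 1))).powerset = {∅, {j.succ}} := by
      rw [← Finset.insert_empty, Finset.powerset_insert, Finset.powerset_empty]
      rfl
    have hne : (∅ : Finset (Fin (r + 1))) ≠ {j.succ} := (Finset.singleton_ne_empty _).symm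
    rw [e1, Finset.sum_pair hne, Finset.sum_pair hne]
    rw [a2_prod_single s j ∅ (Finset.empty_subset _),
      a2_prod_single s j {j.succ} (by intro x hx; exact Finset.mem_insert_of_mem hx),
      a2_prod_single s j (insert 0 ∅) (by
        intro x hx
        rw [Finset.insert_empty, Finset.mem_singleton] at hx
        rw [hx]; exact Finset.mem_insert_self _ _),
      a2_prod_single s j (insert 0 {j.succ}) (by intro x hx; exact hx)]
    rw [Finset.card_insert_of_notMem h0]
    simp only [Finset.notMem_empty, if_false, Finset.mem_singleton, if_true,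
      Finset.insert_empty, Finset.card_empty, Finset.card_singleton,
      Finset.mem_insert, Fin.succ_ne_zero, false_or]
    have e2 : r + 1 - (1 + 1) = r - 1 := by omega
    rw [e2]
    simp only [pow_zero, one_mul, mul_one, Nat.sub_zero, Nat.add_sub_cancel,
      neg_mul, map_neg, pow_succ, mul_neg, neg_neg]
    ring
  · intro K _ hK
    rw [Finset.mem_powerset] at hK
    obtain ⟨x, hx, hx2⟩ := Finset.not_subset.1 hK
    rw [Finset.mem_insert, Finset.mem_singleton, not_or] at hx2
    obtain ⟨i, rfl⟩ := Fin.exists_succ_eq.2 hx2.1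
    have : (∏ i : Fin r, if i.succ ∈ K then s i else 1) = 0 := by
      apply Finset.prod_eq_zero (Finset.mem_univ i)
      rw [if_pos hx]
      apply hs
      rintro rfl
      exact hx2.2 rfl
    rw [this]
    ring

private noncomputable def a2_psi {r : ℕ} (j : Fin r) :
    MvPolynomial (Fin r) ℝ →ₐ[ℝ] DualNumber ℝ :=
  MvPolynomial.aeval (fun i => if i = j then DualNumber.eps else 0)

private lemma a2_psi_fst {r : ℕ} (j : Fin r) (p : MvPolynomial (Fin r) ℝ) :
    (a2_psi j p).fst = p.coeff 0 ∧ (a2_psi j p).snd = p.coeff (Finsupp.single j 1) := by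
  classical
  induction p using MvPolynomial.induction_on with
  | C a =>
    have hne : (0 : Fin r →₀ ℕ) ≠ Finsupp.single j 1 := by
      intro h
      have := DFunLike.congr_fun h j
      simp at this
    rw [a2_psi, MvPolynomial.aeval_C, MvPolynomial.coeff_C, MvPolynomial.coeff_C,
      if_pos rfl, if_neg hne]
    exact ⟨rfl, rfl⟩
  | add p q hp hq =>
    rw [map_add, TrivSqZeroExt.fst_add, TrivSqZeroExt.snd_add, hp.1, hp.2, hq.1, hq.2,
      MvPolynomial.coeff_add, MvPolynomial.coeff_add]
    exact ⟨rfl, rfl⟩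
  | mul_X p i hp =>
    have hX : a2_psi j (MvPolynomial.X i) = if i = j then DualNumber.eps else 0 := by
      rw [a2_psi, MvPolynomial.aeval_X]
    rw [map_mul, hX, MvPolynomial.coeff_mul_X', MvPolynomial.coeff_mul_X']
    by_cases hij : i = j
    · subst hij
      rw [if_pos rfl]
      simp [hp.1]
    · rw [if_neg hij]
      simp [hij]

/-- The linear coefficients of an approximate root. Only `K = ∅, {0}, {j+1}, {0, j+1}`
contribute to the coefficient of `X j` in `FF m X T` (which vanishes by `hT`), for instance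
after the substitution `X j ↦ X`, other variables `↦ 0` into `PowerSeries ℝ` or
`Polynomial ℝ`: with `β = T.coeff (single j 1)`, `c = m {0}`:
`(r + 1) c ^ r β - c * r c ^ (r - 1) β - m {j+1} c ^ r + m {0, j+1} c ^ (r - 1) = 0`. -/
lemma coeff_linear {r : ℕ} (m : Finset (Fin (r + 1)) → ℝ) (hm : Good m) (k : ℕ)
    (T : MvPolynomial (Fin r) ℝ) (hT : Appr m k T) (hk : 1 ≤ k) (j : Fin r) :
    T.coeff (Finsupp.single j 1) * m {0} = m {0} * m {j.succ} - m {0, j.succ} := by
  classical
  have h1 : (FF m MvPolynomial.X T).coeff (Finsupp.single j 1) = 0 := by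
    apply hT.2
    have : ∑ i, (Finsupp.single j 1) i = 1 := by simp [Finsupp.single_apply]
    rw [this]
    omega
  rw [← (a2_psi_fst j _).2] at h1
  have h2 : a2_psi j (FF m MvPolynomial.X T) =
      FF m (fun i => if i = j then (DualNumber.eps : DualNumber ℝ) else 0) (a2_psi j T) := by
    unfold FF
    rw [map_sum]
    refine Finset.sum_congr rfl fun K _ => ?_
    rw [map_mul, map_mul, map_prod, map_pow, AlgHom.commutes]
    congr 2
    refine Finset.prod_congr rfl fun i _ => ?_
    by_cases h : i.succ ∈ K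
    · rw [if_pos h, if_pos h, a2_psi, MvPolynomial.aeval_X]
    · rw [if_neg h, if_neg h, map_one]
  rw [h2, a2_FF_restrict m _ _ j (fun i hi => if_neg hi), if_pos rfl] at h1
  set t := a2_psi j T with ht
  have ht1 : t.fst = m {0} := by rw [(a2_psi_fst j T).1, hT.1]
  have ht2 : t.snd = T.coeff (Finsupp.single j 1) := (a2_psi_fst j T).2
  have hr : 1 ≤ r := by have := j.2; omega
  obtain ⟨n, rfl⟩ : ∃ n, r = n + 1 := ⟨r - 1, by omega⟩
  have hp : ∀ N : ℕ, (t ^ (N + 1)).snd = (N + 1) * m {0} ^ N * t.snd := by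
    intro N
    rw [TrivSqZeroExt.snd_pow]
    have e : (N + 1).pred = N := rfl
    simp only [e, smul_eq_mul, nsmul_eq_mul, ht1, Nat.cast_add, Nat.cast_one]
    ring
  have hf : ∀ N : ℕ, (t ^ N).fst = m {0} ^ N := by
    intro N
    rw [TrivSqZeroExt.fst_pow, ht1]
  simp only [TrivSqZeroExt.snd_add, TrivSqZeroExt.snd_sub, TrivSqZeroExt.snd_mul,
    TrivSqZeroExt.fst_mul, TrivSqZeroExt.algebraMap_eq_inl, TrivSqZeroExt.fst_inl,
    TrivSqZeroExt.snd_inl, DualNumber.fst_eps, DualNumber.snd_eps, hp, hf,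
    smul_eq_mul, MulOpposite.smul_eq_mul_unop, MulOpposite.unop_op, Nat.add_sub_cancel,
    mul_zero, zero_mul, add_zero, zero_add, mul_one] at h1
  rw [hm.e, ht2] at h1
  push_cast at h1
  have hz : m {0} ^ n ≠ 0 := pow_ne_zero _ hm.z
  apply mul_left_cancel₀ hz
  linear_combination h1

end Pool.Agent.W_a2e04a_h82
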