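import Pool.Agent.W_a2e04a_h82.C2a

namespace Pool.Agent.W_a2e04a_h82

open Finset Filter Asymptotics

private lemma b2_prod {r : ℕ} {R : Type*} [CommRing R] (s : Fin r → R)
    (i j : Fin r) (hij : i ≠ j) (K : Finset (Fin (r + 1))) (hK : K ⊆ {0, i.succ, j.succ}) :
    (∏ l : Fin r, if l.succ ∈ K then s l else 1) =
      (if i.succ ∈ K then s i else 1) * (if j.succ ∈ K then s j else 1) := by
  classical
  rw [← Finset.prod_subset (Finset.subset_univ ({i, j} : Finset (Fin r))),
    Finset.prod_pair hij]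
  intro l _ hl
  rw [Finset.mem_insert, Finset.mem_singleton, not_or] at hl
  rw [if_neg]
  intro h
  have := hK h
  rw [Finset.mem_insert, Finset.mem_insert, Finset.mem_singleton] at this
  rcases this with h1 | h1 | h1
  · exact Fin.succ_ne_zero l h1
  · exact hl.1 (Fin.succ_injective _ h1)
  · exact hl.2 (Fin.succ_injective _ h1)

private lemma b2_FF {n : ℕ} {R : Type*} [CommRing R] [Algebra ℝ R]
    (m : Finset (Fin (n + 2 + 1)) → ℝ) (s : Fin (n + 2) → R) (t : R) (i j : Fin (n + 2))
    (hij : i ≠ j) (hs : ∀ l, l ≠ i → l ≠ j → s l = 0) (hm : m ∅ = 1) :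
    FF m s t = t ^ n * (t ^ 3 - (algebraMap ℝ R (m {0}) + algebraMap ℝ R (m {i.succ}) * s i +
      algebraMap ℝ R (m {j.succ}) * s j) * t ^ 2 +
      (algebraMap ℝ R (m {0, i.succ}) * s i + algebraMap ℝ R (m {0, j.succ}) * s j +
        algebraMap ℝ R (m {i.succ, j.succ}) * (s i * s j)) * t -
      algebraMap ℝ R (m {0, i.succ, j.succ}) * (s i * s j)) := by
  classical
  unfold FF
  have h0 : (0 : Fin (n + 2 + 1)) ∉ ({i.succ, j.succ} : Finset (Fin (n + 2 + 1))) := by
    rw [Finset.mem_insert, Finset.mem_singleton, not_or]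
    exact ⟨(Fin.succ_ne_zero i).symm, (Fin.succ_ne_zero j).symm⟩
  have hi : i.succ ∉ ({j.succ} : Finset (Fin (n + 2 + 1))) := by
    rw [Finset.mem_singleton]
    exact fun e => hij (Fin.succ_injective _ e)
  have hij' : i.succ ≠ j.succ := fun e => hij (Fin.succ_injective _ e)
  rw [← Finset.sum_subset
    (Finset.subset_univ ({0, i.succ, j.succ} : Finset (Fin (n + 2 + 1))).powerset)]
  · rw [Finset.sum_powerset_insert h0, Finset.sum_powerset_insert hi,
      Finset.sum_powerset_insert hi]
    have e1 : ({j.succ} : Finset (Fin (n + 2 + 1))).powerset = {∅, {j.succ}} := by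
      rw [← Finset.insert_empty, Finset.powerset_insert, Finset.powerset_empty]
      rfl
    have hne : (∅ : Finset (Fin (n + 2 + 1))) ≠ {j.succ} :=
      (Finset.singleton_ne_empty _).symm
    have hp : ∀ K : Finset (Fin (n + 2 + 1)), K ⊆ {0, i.succ, j.succ} →
        (∏ l : Fin (n + 2), if l.succ ∈ K then s l else 1) =
        (if i.succ ∈ K then s i else 1) * (if j.succ ∈ K then s j else 1) :=
      fun K hK => b2_prod s i j hij K hK
    rw [e1, Finset.sum_pair hne, Finset.sum_pair hne, Finset.sum_pair hne, Finset.sum_pair hne]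
    rw [hp ∅ (by simp), hp {j.succ} (by simp), hp (insert i.succ ∅) (by simp),
      hp (insert i.succ {j.succ}) (by simp), hp (insert 0 ∅) (by simp),
      hp (insert 0 {j.succ}) (by
        intro x hx; rw [Finset.mem_insert, Finset.mem_singleton] at hx
        rcases hx with rfl | rfl <;> simp),
      hp (insert 0 (insert i.succ ∅)) (by
        intro x hx; rw [Finset.mem_insert, Finset.insert_empty, Finset.mem_singleton] at hx
        rcases hx with rfl | rfl <;> simp),
      hp (insert 0 (insert i.succ {j.succ})) (by simp)]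
    have c1 : (insert i.succ ({j.succ} : Finset (Fin (n + 2 + 1)))).card = 2 := by
      rw [Finset.card_insert_of_notMem hi, Finset.card_singleton]
    have c2 : (insert 0 ({j.succ} : Finset (Fin (n + 2 + 1)))).card = 2 := by
      rw [Finset.card_insert_of_notMem, Finset.card_singleton]
      rw [Finset.mem_singleton]; exact (Fin.succ_ne_zero j).symm
    have c3 : (insert 0 ({i.succ} : Finset (Fin (n + 2 + 1)))).card = 2 := by
      rw [Finset.card_insert_of_notMem, Finset.card_singleton]
      rw [Finset.mem_singleton]; exact (Fin.succ_ne_zero i).symm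
    have c4 : (insert 0 (insert i.succ ({j.succ} : Finset (Fin (n + 2 + 1))))).card = 3 := by
      rw [Finset.card_insert_of_notMem h0, c1]
    simp only [Finset.insert_empty]
    rw [c1, c2, c3, c4, hm]
    simp only [Finset.card_empty, Finset.card_singleton, Finset.notMem_empty, if_false,
      Finset.mem_singleton, Finset.mem_insert, if_true, Fin.succ_ne_zero, or_false,
      hij', hij'.symm, or_true]
    have a1 : n + 2 + 1 - 0 = n + 3 := by omega
    have a2 : n + 2 + 1 - 1 = n + 2 := by omega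
    have a3 : n + 2 + 1 - 2 = n + 1 := by omega
    have a4 : n + 2 + 1 - 3 = n := by omega
    rw [a1, a2, a3, a4]
    simp only [pow_zero, one_mul, mul_one, map_mul, map_pow, map_neg, map_one]
    ring
  · intro K _ hK
    rw [Finset.mem_powerset] at hK
    obtain ⟨x, hx, hx2⟩ := Finset.not_subset.1 hK
    rw [Finset.mem_insert, Finset.mem_insert, Finset.mem_singleton, not_or, not_or] at hx2
    obtain ⟨l, rfl⟩ := Fin.exists_succ_eq.2 hx2.1
    have : (∏ l : Fin (n + 2), if l.succ ∈ K then s l else 1) = 0 := by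
      apply Finset.prod_eq_zero (Finset.mem_univ l)
      rw [if_pos hx]
      apply hs
      · rintro rfl
        exact hx2.2.1 rfl
      · rintro rfl
        exact hx2.2.2 rfl
    rw [this]
    ring

private noncomputable def b2_psi {r : ℕ} (i j : Fin r) :
    MvPolynomial (Fin r) ℝ →ₐ[ℝ] DualNumber (PowerSeries ℝ) :=
  MvPolynomial.aeval (fun l => if l = i then TrivSqZeroExt.inl PowerSeries.X else
    if l = j then DualNumber.eps else 0)

private lemma b2_coeff {r : ℕ} (i j : Fin r) (hij : i ≠ j) (p : MvPolynomial (Fin r) ℝ) :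
    ∀ k : ℕ, PowerSeries.coeff k (b2_psi i j p).fst = p.coeff (Finsupp.single i k) ∧
    PowerSeries.coeff k (b2_psi i j p).snd =
      p.coeff (Finsupp.single i k + Finsupp.single j 1) := by
  classical
  induction p using MvPolynomial.induction_on with
  | C a =>
    intro k
    rw [b2_psi, MvPolynomial.aeval_C, MvPolynomial.coeff_C, MvPolynomial.coeff_C]
    have h1 : (0 : Fin r →₀ ℕ) ≠ Finsupp.single i k + Finsupp.single j 1 := by
      intro h
      have := DFunLike.congr_fun h j
      simp at this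
    rw [if_neg h1]
    constructor
    · have : (algebraMap ℝ (DualNumber (PowerSeries ℝ)) a).fst = PowerSeries.C a := rfl
      rw [this, PowerSeries.coeff_C]
      by_cases hk : k = 0
      · subst hk; simp
      · rw [if_neg hk, if_neg]
        intro h
        have := DFunLike.congr_fun h i
        rw [Finsupp.single_eq_same] at this
        exact hk this.symm
    · have : (algebraMap ℝ (DualNumber (PowerSeries ℝ)) a).snd = 0 := rfl
      rw [this, map_zero]
  | add p q hp hq =>
    intro k
    rw [map_add, TrivSqZeroExt.fst_add, TrivSqZeroExt.snd_add, map_add, map_add,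
      (hp k).1, (hp k).2, (hq k).1, (hq k).2, MvPolynomial.coeff_add, MvPolynomial.coeff_add]
    exact ⟨rfl, rfl⟩
  | mul_X p l hp =>
    intro k
    have hX : b2_psi i j (MvPolynomial.X l) =
        if l = i then TrivSqZeroExt.inl PowerSeries.X else
        if l = j then DualNumber.eps else 0 := by
      rw [b2_psi, MvPolynomial.aeval_X]
    rw [map_mul, hX, MvPolynomial.coeff_mul_X', MvPolynomial.coeff_mul_X']
    by_cases hli : l = i
    · subst hli
      rw [if_pos rfl]
      rcases Nat.eq_zero_or_pos k with hk | hk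
      · subst hk
        simp [hij]
      · obtain ⟨k', rfl⟩ : ∃ k', k = k' + 1 := ⟨k - 1, by omega⟩
        have s1 : l ∈ (Finsupp.single l (k' + 1) : Fin r →₀ ℕ).support := by simp
        have s2 : l ∈ (Finsupp.single l (k' + 1) + Finsupp.single j 1 : Fin r →₀ ℕ).support := by
          simp
        rw [if_pos s1, if_pos s2]
        have e1 : (Finsupp.single l (k' + 1) : Fin r →₀ ℕ) - Finsupp.single l 1 =
            Finsupp.single l k' := by
          rw [← Finsupp.single_tsub]; rfl
        have e2 : (Finsupp.single l (k' + 1) + Finsupp.single j 1 : Fin r →₀ ℕ) -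
            Finsupp.single l 1 = Finsupp.single l k' + Finsupp.single j 1 := by
          ext x
          simp only [Finsupp.tsub_apply, Finsupp.add_apply, Finsupp.single_apply]
          split_ifs <;> omega
        rw [e1, e2]
        constructor
        · rw [TrivSqZeroExt.fst_mul, TrivSqZeroExt.fst_inl, PowerSeries.coeff_succ_mul_X]
          exact (hp k').1
        · rw [TrivSqZeroExt.snd_mul, TrivSqZeroExt.fst_inl, TrivSqZeroExt.snd_inl, smul_zero,
            zero_add, MulOpposite.smul_eq_mul_unop, MulOpposite.unop_op,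
            PowerSeries.coeff_succ_mul_X]
          exact (hp k').2
    · rw [if_neg hli]
      by_cases hlj : l = j
      · subst hlj
        rw [if_pos rfl]
        have s1 : l ∉ (Finsupp.single i k : Fin r →₀ ℕ).support := by
          rw [Finsupp.mem_support_iff, not_not, Finsupp.single_apply, if_neg hij]
        have s2 : l ∈ (Finsupp.single i k + Finsupp.single l 1 : Fin r →₀ ℕ).support := by
          simp
        rw [if_neg s1, if_pos s2, add_tsub_cancel_right]
        constructor
        · rw [TrivSqZeroExt.fst_mul, DualNumber.fst_eps, mul_zero, map_zero]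
        · rw [TrivSqZeroExt.snd_mul, DualNumber.fst_eps, DualNumber.snd_eps]
          simp only [smul_eq_mul, mul_one, MulOpposite.op_zero, zero_smul, add_zero]
          exact (hp k).1
      · rw [if_neg hlj, mul_zero]
        have s1 : l ∉ (Finsupp.single i k : Fin r →₀ ℕ).support := by
          rw [Finsupp.mem_support_iff, not_not, Finsupp.single_apply, if_neg (Ne.symm hli)]
        have s2 : l ∉ (Finsupp.single i k + Finsupp.single j 1 : Fin r →₀ ℕ).support := by
          rw [Finsupp.mem_support_iff, not_not, Finsupp.add_apply, Finsupp.single_apply,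
            Finsupp.single_apply, if_neg (Ne.symm hli), if_neg (Ne.symm hlj), add_zero]
        rw [if_neg s1, if_neg s2]
        constructor
        · rw [TrivSqZeroExt.fst_zero, map_zero]
        · rw [TrivSqZeroExt.snd_zero, map_zero]

private lemma b2_dvd_iff (k : ℕ) (f : PowerSeries ℝ) :
    (PowerSeries.X : PowerSeries ℝ) ^ k ∣ f ↔ ∀ n < k, PowerSeries.coeff n f = 0 :=
  PowerSeries.X_pow_dvd_iff

private lemma b2_cancel (k : ℕ) (f g : PowerSeries ℝ) (hf : PowerSeries.coeff 0 f ≠ 0)
    (h : (PowerSeries.X : PowerSeries ℝ) ^ k ∣ f * g) :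
    (PowerSeries.X : PowerSeries ℝ) ^ k ∣ g := by
  have hu : IsUnit f := by
    rw [PowerSeries.isUnit_iff_constantCoeff, isUnit_iff_ne_zero]
    simpa using hf
  exact (hu.dvd_mul_left).1 h

/-- The coefficient test: the coefficients of an approximate root at `s_i ^ a s_j`
(`a = 1, 2, 3`) do not factorise. Proof: apply the ring homomorphism
`s_i ↦ X`, `s_j ↦ ε`, other variables `↦ 0` into `DualNumber (PowerSeries ℝ)` (`i ≠ j`, so
`2 ≤ r`); the image of `FF m X T` is
`f ^ (r - 2) * (f³ - (c + q X + q' ε) f² + (m₀ᵢ X + m₀ⱼ ε + mᵢⱼ X ε) f - τ X ε)`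
with `c = m {0}`, `q = m {i+1}`, `q' = m {j+1}`, `m₀ᵢ = m {0, i+1}`, `m₀ⱼ = m {0, j+1}`,
`mᵢⱼ = m {i+1, j+1}`, `τ = m {0, i+1, j+1}`, and `f = f₀ + f₁ ε`, the image of `T`, is a unit
(constant coefficient `c ≠ 0`); its first component vanishes modulo `X ^ 5` and its second
modulo `X ^ 4`, so the same holds for the second factor `G`. With `h = c + q X`, `m = m₀ᵢ`,
`f₀ = c + β X + γ X² + δ X³ + ...`: first component of `G` divided by the unit `f₀`:
`f₀² - h f₀ + m X = 0` (modulo `X⁴`). By the hypothesis `f₁ = g f₀` modulo `X⁴` with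
`g = T.coeff (single j 1) / c`, nonzero by `coeff_linear`. Second component of `G`:
`3 g f₀³ - 2 g h f₀² - q' f₀² + g m X f₀ + m₀ⱼ f₀ + mᵢⱼ X f₀ - τ X = 0`, and with the
quadratic relation
`(g (h² - 2 m X) - q' h + m₀ⱼ + mᵢⱼ X) f₀ = (g m h - q' m + τ) X` modulo `X⁴`.
Comparing the coefficients of `X⁰, X¹, X², X³` gives the hypotheses of `block_scalar`. -/
lemma block {r : ℕ} (m : Finset (Fin (r + 1)) → ℝ) (hm : Good m)
    (T : MvPolynomial (Fin r) ℝ) (hT : Appr m 4 T) (i j : Fin r) (hij : i ≠ j)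
    (h : ∀ a : ℕ, 1 ≤ a → a ≤ 3 →
      T.coeff (Finsupp.single i a + Finsupp.single j 1) * T.coeff 0 =
        T.coeff (Finsupp.single i a) * T.coeff (Finsupp.single j 1)) : False := by
  classical
  obtain ⟨n, rfl⟩ : ∃ n, r = n + 2 := by
    have h1 := i.2
    have h2 := j.2
    have h3 : (i : ℕ) ≠ j := fun e => hij (Fin.ext e)
    exact ⟨r - 2, by omega⟩
  have hlin := coeff_linear m hm 4 T hT (by norm_num) j
  have hc := hm.z
  set c := m {0} with hcdef
  set t₁ := T.coeff (Finsupp.single j 1) with ht₁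
  have ht₁0 : t₁ ≠ 0 := by
    intro e
    rw [e, zero_mul] at hlin
    exact hm.b j hlin.symm
  -- the image of the equation
  set f := b2_psi i j T with hf
  have hψ : b2_psi i j (FF m MvPolynomial.X T) =
      FF m (fun l => if l = i then (TrivSqZeroExt.inl PowerSeries.X :
        DualNumber (PowerSeries ℝ)) else if l = j then DualNumber.eps else 0) f := by
    unfold FF
    rw [map_sum]
    refine Finset.sum_congr rfl fun K _ => ?_
    rw [map_mul, map_mul, map_prod, map_pow, AlgHom.commutes]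
    congr 2
    refine Finset.prod_congr rfl fun l _ => ?_
    by_cases hl : l.succ ∈ K
    · rw [if_pos hl, if_pos hl, b2_psi, MvPolynomial.aeval_X]
    · rw [if_neg hl, if_neg hl, map_one]
  rw [b2_FF m _ f i j hij (fun l h1 h2 => by rw [if_neg h1, if_neg h2]) hm.e, if_pos rfl,
    if_neg hij.symm, if_pos rfl] at hψ
  set f₀ := f.fst with hf₀
  set f₁ := f.snd with hf₁
  set X : PowerSeries ℝ := PowerSeries.X with hX
  have am : ∀ a : ℝ, algebraMap ℝ (DualNumber (PowerSeries ℝ)) a =
      TrivSqZeroExt.inl (PowerSeries.C a) := fun a => rfl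
  set q := m {i.succ} with hq
  set q' := m {j.succ} with hq'
  set mi := m {0, i.succ} with hmi
  set mj := m {0, j.succ} with hmj
  set p := m {i.succ, j.succ} with hp
  set τ := m {0, i.succ, j.succ} with hτ
  set G : DualNumber (PowerSeries ℝ) := f ^ 3 -
    (algebraMap ℝ _ c + algebraMap ℝ _ q * TrivSqZeroExt.inl X +
      algebraMap ℝ _ q' * DualNumber.eps) * f ^ 2 +
    (algebraMap ℝ _ mi * TrivSqZeroExt.inl X + algebraMap ℝ _ mj * DualNumber.eps +
      algebraMap ℝ _ p * (TrivSqZeroExt.inl X * DualNumber.eps)) * f -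
    algebraMap ℝ _ τ * (TrivSqZeroExt.inl X * DualNumber.eps) with hG
  have G0 : G.fst = f₀ * (f₀ ^ 2 - (PowerSeries.C c + PowerSeries.C q * X) * f₀ +
      PowerSeries.C mi * X) := by
    rw [hG]
    simp only [am, TrivSqZeroExt.fst_add, TrivSqZeroExt.fst_sub, TrivSqZeroExt.fst_mul,
      TrivSqZeroExt.fst_pow, TrivSqZeroExt.fst_inl, DualNumber.fst_eps]
    ring
  have s2 : (f ^ 2).snd = 2 * f₀ * f₁ := by
    rw [pow_two, TrivSqZeroExt.snd_mul]
    simp only [smul_eq_mul, MulOpposite.smul_eq_mul_unop, MulOpposite.unop_op]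
    ring
  have s3 : (f ^ 3).snd = 3 * f₀ ^ 2 * f₁ := by
    rw [pow_succ, TrivSqZeroExt.snd_mul, s2, TrivSqZeroExt.fst_pow]
    simp only [smul_eq_mul, MulOpposite.smul_eq_mul_unop, MulOpposite.unop_op]
    ring
  have G1 : G.snd = 3 * f₀ ^ 2 * f₁ - 2 * (PowerSeries.C c + PowerSeries.C q * X) * f₀ * f₁ -
      PowerSeries.C q' * f₀ ^ 2 + PowerSeries.C mi * X * f₁ + PowerSeries.C mj * f₀ +
      PowerSeries.C p * X * f₀ - PowerSeries.C τ * X := by
    rw [hG]
    simp only [am, TrivSqZeroExt.snd_add, TrivSqZeroExt.snd_sub, TrivSqZeroExt.snd_mul,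
      TrivSqZeroExt.fst_add, TrivSqZeroExt.fst_mul,
      TrivSqZeroExt.fst_pow, TrivSqZeroExt.fst_inl, TrivSqZeroExt.snd_inl, DualNumber.fst_eps,
      DualNumber.snd_eps, s2, s3,
      smul_eq_mul, MulOpposite.smul_eq_mul_unop, MulOpposite.unop_op]
    ring
  have sn : ∀ N : ℕ, (f ^ N * G).fst = f₀ ^ N * G.fst ∧
      ∃ w, (f ^ N * G).snd = f₀ ^ N * G.snd + w * G.fst := by
    intro N
    refine ⟨by rw [TrivSqZeroExt.fst_mul, TrivSqZeroExt.fst_pow], (f ^ N).snd, ?_⟩
    rw [TrivSqZeroExt.snd_mul, TrivSqZeroExt.fst_pow]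
    simp only [smul_eq_mul, MulOpposite.smul_eq_mul_unop, MulOpposite.unop_op]
    ring
  have cf0 : PowerSeries.coeff 0 f₀ = c := by
    rw [hf₀, hf, (b2_coeff i j hij T 0).1, Finsupp.single_zero, hT.1]
  have cfN : ∀ N : ℕ, PowerSeries.coeff 0 (f₀ ^ N) ≠ 0 := by
    intro N
    rw [PowerSeries.coeff_zero_eq_constantCoeff_apply, map_pow,
      ← PowerSeries.coeff_zero_eq_constantCoeff_apply, cf0]
    exact pow_ne_zero _ hc
  -- orders
  have o0 : X ^ 5 ∣ (f ^ n * G).fst := by
    rw [← hψ, hX, b2_dvd_iff]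
    intro k hk
    rw [(b2_coeff i j hij _ k).1]
    apply hT.2
    have : ∑ l, (Finsupp.single i k) l = k := by simp [Finsupp.single_apply]
    rw [this]
    omega
  have o1 : X ^ 4 ∣ (f ^ n * G).snd := by
    rw [← hψ, hX, b2_dvd_iff]
    intro k hk
    rw [(b2_coeff i j hij _ k).2]
    apply hT.2
    have : ∑ l, (Finsupp.single i k + Finsupp.single j 1 : Fin (n + 2) →₀ ℕ) l = k + 1 := by
      simp [Finsupp.single_apply, Finset.sum_add_distrib]
    rw [this]
    omega
  rw [(sn n).1] at o0
  have o2 : X ^ 5 ∣ G.fst := b2_cancel 5 _ _ (cfN n) o0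
  have o3 : X ^ 4 ∣ G.snd := by
    obtain ⟨w, hw⟩ := (sn n).2
    rw [hw] at o1
    have o4 : X ^ 4 ∣ w * G.fst := (dvd_trans (pow_dvd_pow X (by norm_num)) o2).mul_left w
    exact b2_cancel 4 _ _ (cfN n) ((dvd_add_left o4).1 o1)
  set Q := f₀ ^ 2 - (PowerSeries.C c + PowerSeries.C q * X) * f₀ + PowerSeries.C mi * X with hQ
  have o5 : X ^ 4 ∣ Q := by
    rw [G0] at o2
    exact dvd_trans (pow_dvd_pow X (by norm_num))
      (b2_cancel 5 _ _ (by rw [cf0]; exact hc) o2)
  set g := t₁ / c with hg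
  have o6 : X ^ 4 ∣ f₁ - PowerSeries.C g * f₀ := by
    rw [hX, b2_dvd_iff]
    intro k hk
    rw [map_sub, PowerSeries.coeff_C_mul, hf₀, hf₁, hf, (b2_coeff i j hij T k).1,
      (b2_coeff i j hij T k).2, hg]
    rcases Nat.eq_zero_or_pos k with hk0 | hk0
    · subst hk0
      rw [Finsupp.single_zero, zero_add, hT.1, ← ht₁, ← hcdef]
      field_simp
      ring
    · have := h k hk0 (by omega)
      rw [hT.1] at this
      field_simp
      linarith
  -- the reduced relation
  have o7 : X ^ 4 ∣ (PowerSeries.C g * ((PowerSeries.C c + PowerSeries.C q * X) ^ 2 -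
      2 * PowerSeries.C mi * X) - PowerSeries.C q' * (PowerSeries.C c + PowerSeries.C q * X) +
      PowerSeries.C mj + PowerSeries.C p * X) * f₀ -
      (PowerSeries.C g * PowerSeries.C mi * (PowerSeries.C c + PowerSeries.C q * X) -
        PowerSeries.C q' * PowerSeries.C mi + PowerSeries.C τ) * X := by
    have e : (PowerSeries.C g * ((PowerSeries.C c + PowerSeries.C q * X) ^ 2 -
      2 * PowerSeries.C mi * X) - PowerSeries.C q' * (PowerSeries.C c + PowerSeries.C q * X) +
      PowerSeries.C mj + PowerSeries.C p * X) * f₀ -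
      (PowerSeries.C g * PowerSeries.C mi * (PowerSeries.C c + PowerSeries.C q * X) -
        PowerSeries.C q' * PowerSeries.C mi + PowerSeries.C τ) * X =
      G.snd - (3 * f₀ ^ 2 - 2 * (PowerSeries.C c + PowerSeries.C q * X) * f₀ +
        PowerSeries.C mi * X) * (f₁ - PowerSeries.C g * f₀) -
      (3 * PowerSeries.C g * f₀ + PowerSeries.C g * (PowerSeries.C c + PowerSeries.C q * X) -
        PowerSeries.C q') * Q := by
      rw [G1, hQ]
      ring
    rw [e]
    exact dvd_sub (dvd_sub o3 (o6.mul_left _)) (o5.mul_left _)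
  -- polynomial form
  have o8 : X ^ 4 ∣ PowerSeries.C (g * c ^ 2 - q' * c + mj) * f₀ +
      PowerSeries.C (2 * g * c * q - 2 * g * mi - q' * q + p) * (X * f₀) +
      PowerSeries.C (g * q ^ 2) * (X * (X * f₀)) -
      PowerSeries.C (g * mi * c - q' * mi + τ) * X - PowerSeries.C (g * mi * q) * (X * X) := by
    convert o7 using 1
    simp only [map_add, map_sub, map_mul, map_pow, map_ofNat]
    ring
  obtain ⟨E0, hE0⟩ : ∃ E0, E0 = g * c ^ 2 - q' * c + mj := ⟨_, rfl⟩
  obtain ⟨E1, hE1⟩ : ∃ E1, E1 = 2 * g * c * q - 2 * g * mi - q' * q + p := ⟨_, rfl⟩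
  obtain ⟨E2, hE2⟩ : ∃ E2, E2 = g * q ^ 2 := ⟨_, rfl⟩
  obtain ⟨R1, hR1⟩ : ∃ R1, R1 = g * mi * c - q' * mi + τ := ⟨_, rfl⟩
  obtain ⟨R2, hR2⟩ : ∃ R2, R2 = g * mi * q := ⟨_, rfl⟩
  rw [← hE0, ← hE1, ← hE2, ← hR1, ← hR2] at o8
  rw [hX, b2_dvd_iff] at o8 o5
  have c0 := o8 0 (by norm_num)
  have c1 := o8 1 (by norm_num)
  have c2 := o8 2 (by norm_num)
  have c3 := o8 3 (by norm_num)
  have d1 := o5 1 (by norm_num)
  have d2 := o5 2 (by norm_num)
  set β := PowerSeries.coeff 1 f₀ with hβ
  set γ := PowerSeries.coeff 2 f₀ with hγ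
  set δ := PowerSeries.coeff 3 f₀ with hδ
  have x1 : PowerSeries.coeff 0 (PowerSeries.X : PowerSeries ℝ) = 0 :=
    PowerSeries.coeff_zero_X
  have x2 : PowerSeries.coeff 1 (PowerSeries.X : PowerSeries ℝ) = 1 :=
    PowerSeries.coeff_one_X
  have x3 : PowerSeries.coeff 2 (PowerSeries.X : PowerSeries ℝ) = 0 := by
    rw [PowerSeries.coeff_X, if_neg (by norm_num)]
  have x4 : PowerSeries.coeff 3 (PowerSeries.X : PowerSeries ℝ) = 0 := by
    rw [PowerSeries.coeff_X, if_neg (by norm_num)]
  have mz : ∀ φ : PowerSeries ℝ, PowerSeries.coeff 0 (PowerSeries.X * φ) = 0 := fun φ => by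
    simp
  have m1 : ∀ φ : PowerSeries ℝ, PowerSeries.coeff 1 (PowerSeries.X * φ) =
      PowerSeries.coeff 0 φ := fun φ => PowerSeries.coeff_succ_X_mul 0 φ
  have m2 : ∀ φ : PowerSeries ℝ, PowerSeries.coeff 2 (PowerSeries.X * φ) =
      PowerSeries.coeff 1 φ := fun φ => PowerSeries.coeff_succ_X_mul 1 φ
  have m3 : ∀ φ : PowerSeries ℝ, PowerSeries.coeff 3 (PowerSeries.X * φ) =
      PowerSeries.coeff 2 φ := fun φ => PowerSeries.coeff_succ_X_mul 2 φ
  simp only [map_add, map_sub, PowerSeries.coeff_C_mul, hX, mz, m1, m2, m3, x1, x2, x3, x4, cf0,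
    ← hβ, ← hγ, ← hδ, mul_zero, mul_one, sub_zero, add_zero] at c0 c1 c2 c3
  have f1 : PowerSeries.coeff 1 (f₀ ^ 2) = 2 * c * β := by
    rw [pow_two, PowerSeries.coeff_mul]
    simp only [Finset.Nat.antidiagonal_succ, Finset.Nat.antidiagonal_zero, Finset.sum_cons,
      Finset.map_singleton, Finset.sum_singleton, Function.Embedding.prodMap,
      Function.Embedding.coeFn_mk, Prod.map_apply]
    simp only [Nat.succ_eq_add_one, zero_add, Function.Embedding.refl_apply,
      Function.Embedding.coeFn_mk, cf0, ← hβ]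
    ring
  have f2 : PowerSeries.coeff 2 (f₀ ^ 2) = β ^ 2 + 2 * c * γ := by
    rw [pow_two, PowerSeries.coeff_mul]
    have : (Finset.HasAntidiagonal.antidiagonal 2 : Finset (ℕ × ℕ)) =
        {(0, 2), (1, 1), (2, 0)} := rfl
    rw [this]
    rw [Finset.sum_insert (by simp), Finset.sum_insert (by simp), Finset.sum_singleton]
    simp only [cf0, ← hβ, ← hγ]
    ring
  rw [hQ, map_add, map_sub, add_mul, map_add, mul_assoc, PowerSeries.coeff_C_mul,
    PowerSeries.coeff_C_mul, PowerSeries.coeff_C_mul] at d1 d2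
  rw [f1, hX, m1, x2, cf0, ← hβ] at d1
  rw [f2, hX, m2, x3, ← hβ, ← hγ] at d2
  refine block_scalar c q mi g q' mj p τ β γ δ hc (hm.q i) (hm.b i) (div_ne_zero ht₁0 hc)
    ?_ ?_ ?_ ?_ ?_ ?_
  all_goals try rw [← hE0]
  all_goals try rw [← hE1]
  all_goals try rw [← hE2]
  all_goals try rw [← hR1]
  all_goals try rw [← hR2]
  · linear_combination d1
  · linear_combination d2
  · linear_combination c0
  · linear_combination c1
  · linear_combination c2
  · linear_combination c3

end Pool.Agent.W_a2e04a_h82
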