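import Pool.Agent.W_a2e04a_h82.B1a
import Pool.Agent.W_a2e04a_h82.C1b
import Pool.Agent.W_a2e04a_h82.C1c
import Pool.Agent.W_a2e04a_h82.C2b

namespace Pool.Agent.W_a2e04a_h82

open Finset Filter Asymptotics

lemma Appr.mono {r : ℕ} {m : Finset (Fin (r + 1)) → ℝ} {k l : ℕ} {T : MvPolynomial (Fin r) ℝ}
    (h : Appr m k T) (hl : l ≤ k) : Appr m l T :=
  ⟨h.1, h.2.mono (by omega)⟩

/-- The monoid of all total weights. -/
def Mon {r : ℕ} (a : Fin r → ℝ) : AddSubmonoid ℝ where
  carrier := {x | ∃ m l, SS a m l = x}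
  add_mem' := by
    rintro _ _ ⟨m, l, rfl⟩ ⟨m', l', rfl⟩
    exact ⟨m + m', l + l', SS_add a m l m' l'⟩
  zero_mem' := ⟨0, 0, by simp [SS, dot]⟩

lemma mem_Mon {r : ℕ} {a : Fin r → ℝ} {x : ℝ} : x ∈ Mon a ↔ ∃ m l, SS a m l = x := Iff.rfl

lemma SS_mem_of_gens {r : ℕ} (a b : Fin r → ℝ) (h1 : ∀ k, pre b k ∈ Mon a)
    (h2 : ∀ k, pre (b ∘ Fin.rev) k ∈ Mon a) (m l : Fin r →₀ ℕ) : SS b m l ∈ Mon a := by
  unfold SS dot
  refine (Mon a).add_mem ((Mon a).sum_mem fun i _ => ?_) ((Mon a).sum_mem fun i _ => ?_)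
  · rw [← nsmul_eq_mul]; exact (Mon a).nsmul_mem (h1 i) _
  · rw [← nsmul_eq_mul]; exact (Mon a).nsmul_mem (h2 i) _

lemma pre_le_sum {r : ℕ} (a : Fin r → ℝ) (ha : ∀ i, 0 < a i) (j : Fin r) :
    pre a j ≤ ∑ i, a i :=
  Finset.sum_le_sum_of_subset_of_nonneg (Finset.subset_univ _) fun i _ _ => (ha i).le

lemma pre_lt_sum {r : ℕ} (a : Fin r → ℝ) (ha : ∀ i, 0 < a i) (j : Fin r)
    (hj : (j : ℕ) + 1 < r) : pre a j < ∑ i, a i := by
  rw [← pre_last a (⟨r - 1, by omega⟩ : Fin r) (by simp; omega)]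
  exact pre_strictMono a ha (Fin.lt_def.2 (by simp; omega))

theorem exponents {r : ℕ} (a a' : Fin r → ℝ) (ha : ∀ i, 0 < a i) (ha' : ∀ i, 0 < a' i)
    (hind : LinearIndependent ℚ a) (hs : ∑ i, a i = ∑ i, a' i)
    (m₁ m₂ m₁' m₂' : Finset (Fin (r + 1)) → ℝ) (h₁ : Good m₁) (h₂ : Good m₂)
    (h₁' : Good m₁') (h₂' : Good m₂') (k : ℕ) (hk : 4 ≤ k)
    (T₁ T₂ T₁' T₂' : MvPolynomial (Fin r) ℝ)
    (A₁ : Appr m₁ k T₁) (A₂ : Appr m₂ k T₂) (A₁' : Appr m₁' k T₁') (A₂' : Appr m₂' k T₂')
    (κ E : ℝ) (hκ : κ ≠ 0) (hE : 4 * ∑ i, a i < E)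
    (hc : ∀ e < E, cw (pre a) (pre (a ∘ Fin.rev)) T₁ T₂ e =
      κ * cw (pre a') (pre (a' ∘ Fin.rev)) T₁' T₂' e) :
    a' = a ∨ a' = a ∘ Fin.rev := by
  classical
  have hL : 0 ≤ ∑ i, a i := Finset.sum_nonneg fun i _ => (ha i).le
  have z₁ : T₁.coeff 0 ≠ 0 := by rw [A₁.1]; exact h₁.z
  have z₂ : T₂.coeff 0 ≠ 0 := by rw [A₂.1]; exact h₂.z
  have z₁' : T₁'.coeff 0 ≠ 0 := by rw [A₁'.1]; exact h₁'.z
  have z₂' : T₂'.coeff 0 ≠ 0 := by rw [A₂'.1]; exact h₂'.z
  have lin : ∀ (m : Finset (Fin (r + 1)) → ℝ) (T : MvPolynomial (Fin r) ℝ), Good m →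
      Appr m k T → ∀ j, T.coeff (Finsupp.single j 1) ≠ 0 := by
    intro m T hm hT j h0
    have h := coeff_linear m hm k T hT (by omega) j
    rw [h0, zero_mul] at h
    exact hm.b j h.symm
  have sing : ∀ (j : Fin r), (j : ℕ) + 1 < r → ∀ (A : ℕ) (i : Fin r), (i : ℕ) + 1 = r →
      (Finsupp.single j A) i = 0 := by
    intro j hj A i hi
    rw [Finsupp.single_apply, if_neg]
    rintro rfl; omega
  -- generators of σ seen in ρ and vice versa
  have st2 : ∀ j : Fin r, (j : ℕ) + 1 < r → ∃ m l, SS a' m l = pre a j := by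
    intro j hj
    have e1 : SS a (Finsupp.single j 1) 0 = pre a j := by
      rw [SS_single_left]; simp
    have h := cw_unique a T₁ T₂ (Finsupp.single j 1) 0
      (fun m l hml => SS_uniq_left a hind m l _ (sing j hj 1) hml)
    rw [e1] at h
    have h3 := hc (pre a j) (by have := pre_le_sum a ha j; linarith)
    rw [h] at h3
    apply cw_ne_zero a' T₁' T₂'
    intro h4
    rw [h4, mul_zero] at h3
    exact mul_ne_zero (lin m₁ T₁ h₁ A₁ j) z₂ h3
  have hind' : LinearIndependent ℚ a' := by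
    apply indep_transfer a a' hind
    intro j
    by_cases hj : (j : ℕ) + 1 < r
    · obtain ⟨m, l, h⟩ := st2 j hj
      rw [← h]; exact SS_mem_span a' m l
    · have hj' : (j : ℕ) + 1 = r := by have := j.2; omega
      rw [pre_last a j hj', hs]
      exact Submodule.sum_mem _ fun i _ => Submodule.subset_span ⟨i, rfl⟩
  have st4 : ∀ j : Fin r, pre a' j ∈ Mon a := by
    intro j
    by_cases hj : (j : ℕ) + 1 < r
    · have e1 : SS a' (Finsupp.single j 1) 0 = pre a' j := by
        rw [SS_single_left]; simp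
      have h := cw_unique a' T₁' T₂' (Finsupp.single j 1) 0
        (fun m l hml => SS_uniq_left a' hind' m l _ (sing j hj 1) hml)
      rw [e1] at h
      have h3 := hc (pre a' j) (by have := pre_le_sum a' ha' j; linarith)
      rw [h] at h3
      apply cw_ne_zero a T₁ T₂
      rw [h3]
      exact mul_ne_zero hκ (mul_ne_zero (lin m₁' T₁' h₁' A₁' j) z₂')
    · have hj' : (j : ℕ) + 1 = r := by have := j.2; omega
      rw [pre_last a' j hj', ← hs, ← pre_last a j hj']
      exact ⟨Finsupp.single j 1, 0, by rw [SS_single_left]; simp⟩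
  have st4' : ∀ j : Fin r, pre (a' ∘ Fin.rev) j ∈ Mon a := by
    intro j
    by_cases hj : (j : ℕ) + 1 < r
    · have e1 : SS a' 0 (Finsupp.single j 1) = pre (a' ∘ Fin.rev) j := by
        rw [SS_single_right]; simp
      have h := cw_unique a' T₁' T₂' 0 (Finsupp.single j 1)
        (fun m l hml => SS_uniq_right a' hind' m l _ (sing j hj 1) hml)
      rw [e1] at h
      have hsum : ∑ i, (a' ∘ Fin.rev) i = ∑ i, a' i :=
        Equiv.sum_comp Fin.revPerm a'
      have h3 := hc (pre (a' ∘ Fin.rev) j) (by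
        have := pre_le_sum (a' ∘ Fin.rev) (fun i => ha' _) j
        rw [hsum] at this; linarith)
      rw [h] at h3
      apply cw_ne_zero a T₁ T₂
      rw [h3]
      exact mul_ne_zero hκ (mul_ne_zero z₁' (lin m₂' T₂' h₂' A₂' j))
    · have hj' : (j : ℕ) + 1 = r := by have := j.2; omega
      have hsum : ∑ i, (a' ∘ Fin.rev) i = ∑ i, a' i :=
        Equiv.sum_comp Fin.revPerm a'
      rw [pre_last (a' ∘ Fin.rev) j hj', hsum, ← hs, ← pre_last a j hj']
      exact ⟨Finsupp.single j 1, 0, by rw [SS_single_left]; simp⟩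
  -- proper prefix sums of a are proper generators of a'
  have st5 : ∀ j : Fin r, (j : ℕ) + 1 < r →
      (∃ k : Fin r, (k : ℕ) + 1 < r ∧ pre a j = pre a' k) ∨
      (∃ k : Fin r, (k : ℕ) + 1 < r ∧ pre a j = pre (a' ∘ Fin.rev) k) := by
    intro j hj
    obtain ⟨m', l', h⟩ := st2 j hj
    have hne : ¬ (m' = 0 ∧ l' = 0) := by
      rintro ⟨rfl, rfl⟩
      have := pre_pos a ha j
      simp [SS, dot] at h
      linarith
    obtain ⟨k, m'', l'', h4⟩ := SS_split a' m' l' hne
    obtain ⟨mr, lr, hr⟩ := SS_mem_of_gens a a' st4 st4' m'' l''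
    rcases h4 with h4 | h4
    · left
      obtain ⟨mk, lk, hk'⟩ := st4 k
      have hsum : SS a mk lk + SS a mr lr = pre a j := by rw [hk', hr, ← h4, h]
      rcases SS_irred a hind j hj mk lk mr lr hsum with ⟨rfl, rfl⟩ | ⟨rfl, rfl⟩
      · have := pre_pos a' ha' k
        simp [SS, dot] at hk'
        linarith
      · have h0 : SS a' m'' l'' = 0 := by rw [← hr]; simp [SS, dot]
        have h5 : pre a j = pre a' k := by rw [← h, h4, h0, add_zero]
        refine ⟨k, ?_, h5⟩
        by_contra hk2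
        have hk3 : (k : ℕ) + 1 = r := by have := k.2; omega
        rw [pre_last a' k hk3, ← hs] at h5
        exact absurd h5 (pre_lt_sum a ha j hj).ne
    · right
      obtain ⟨mk, lk, hk'⟩ := st4' k
      have hsum : SS a mk lk + SS a mr lr = pre a j := by rw [hk', hr, ← h4, h]
      rcases SS_irred a hind j hj mk lk mr lr hsum with ⟨rfl, rfl⟩ | ⟨rfl, rfl⟩
      · have := pre_pos (a' ∘ Fin.rev) (fun i => ha' _) k
        simp [SS, dot] at hk'
        linarith
      · have h0 : SS a' m'' l'' = 0 := by rw [← hr]; simp [SS, dot]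
        have h5 : pre a j = pre (a' ∘ Fin.rev) k := by rw [← h, h4, h0, add_zero]
        refine ⟨k, ?_, h5⟩
        by_contra hk2
        have hk3 : (k : ℕ) + 1 = r := by have := k.2; omega
        have hsum' : ∑ i, (a' ∘ Fin.rev) i = ∑ i, a' i :=
          Equiv.sum_comp Fin.revPerm a'
        rw [pre_last (a' ∘ Fin.rev) k hk3, hsum', ← hs] at h5
        exact absurd h5 (pre_lt_sum a ha j hj).ne
  -- no mixture
  have st6 : ∀ i j k l : Fin r, (i : ℕ) + 1 < r → (j : ℕ) + 1 < r → (k : ℕ) + 1 < r →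
      (l : ℕ) + 1 < r → pre a i = pre a' k → pre a j = pre (a' ∘ Fin.rev) l → False := by
    intro i j k' l hi hj hk' hl e1 e2
    have hij : i ≠ j := by
      rintro rfl
      have h : SS a' (Finsupp.single k' 1) 0 = SS a' 0 (Finsupp.single l 1) := by
        rw [SS_single_left, SS_single_right, ← e1, ← e2]
      have := (SS_uniq_right a' hind' _ _ _ (sing l hl 1) h).1
      have h2 := DFunLike.congr_fun this k'
      simp at h2
    have hkl : (k' : ℕ) + l + 2 ≠ r := by
      intro h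
      have h3 := pre_compl a' k' l h
      rw [← e1, ← e2, ← hs] at h3
      set lst : Fin r := ⟨r - 1, by omega⟩ with hlst
      have hl1 : (lst : ℕ) + 1 = r := by simp [hlst]; omega
      have h4 : SS a (Finsupp.single lst 1) 0 =
          SS a (Finsupp.single i 1 + Finsupp.single j 1) 0 := by
        have h5 := SS_add a (Finsupp.single i 1) 0 (Finsupp.single j 1) 0
        rw [add_zero] at h5
        rw [h5, SS_single_left, SS_single_left, SS_single_left, pre_last a lst hl1]
        push_cast; linarith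
      have h6 := (SS_uniq_left a hind _ _ _ (by
        intro t ht
        rw [Finsupp.add_apply, sing i hi 1 t ht, sing j hj 1 t ht]) h4).1
      have h7 := DFunLike.congr_fun h6 lst
      rw [Finsupp.add_apply, sing i hi 1 lst hl1, sing j hj 1 lst hl1] at h7
      simp at h7
    have key : ∀ A B : ℕ, A ≤ 3 → B ≤ 1 →
        T₁.coeff (Finsupp.single i A + Finsupp.single j B) * T₂.coeff 0 =
          κ * (T₁'.coeff (Finsupp.single k' A) * T₂'.coeff (Finsupp.single l B)) := by
      intro A B hA hB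
      have u1 := cw_unique a T₁ T₂ (Finsupp.single i A + Finsupp.single j B) 0
        (fun m l hml => SS_uniq_left a hind m l _ (by
          intro t ht
          rw [Finsupp.add_apply, sing i hi A t ht, sing j hj B t ht]) hml)
      have u2 := cw_unique a' T₁' T₂' (Finsupp.single k' A) (Finsupp.single l B)
        (fun m n hml => SS_uniq_mixed a' hind' m n k' l hk' hl hkl A B hml)
      have v1 : SS a (Finsupp.single i A + Finsupp.single j B) 0 =
          A * pre a i + B * pre a j := by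
        have h5 := SS_add a (Finsupp.single i A) 0 (Finsupp.single j B) 0
        rw [add_zero] at h5
        rw [h5, SS_single_left, SS_single_left]
      have v2 : SS a' (Finsupp.single k' A) (Finsupp.single l B) =
          A * pre a i + B * pre a j := by
        have h5 := SS_add a' (Finsupp.single k' A) 0 0 (Finsupp.single l B)
        rw [add_zero, zero_add] at h5
        rw [h5, SS_single_left, SS_single_right, ← e1, ← e2]
      have hA' : (A : ℝ) ≤ 3 := by exact_mod_cast hA
      have hB' : (B : ℝ) ≤ 1 := by exact_mod_cast hB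
      have hlt : (A : ℝ) * pre a i + B * pre a j < E := by
        have p1 := pre_le_sum a ha i
        have p2 := pre_le_sum a ha j
        have p3 := pre_pos a ha i
        have p4 := pre_pos a ha j
        nlinarith [Nat.cast_nonneg (α := ℝ) A, Nat.cast_nonneg (α := ℝ) B]
      have h9 := hc _ hlt
      rw [← v1, u1] at h9
      rw [v1, ← v2, u2] at h9
      exact h9
    refine block m₁ h₁ T₁ (A₁.mono hk) i j hij fun A hA1 hA3 => ?_
    have q1 := key A 1 hA3 le_rfl
    have q2 := key 0 0 (by norm_num) (by norm_num)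
    have q3 := key A 0 hA3 (by norm_num)
    have q4 := key 0 1 (by norm_num) le_rfl
    simp only [Finsupp.single_zero, add_zero, zero_add] at q1 q2 q3 q4
    have hz : T₂.coeff 0 * T₂.coeff 0 ≠ 0 := mul_ne_zero z₂ z₂
    apply mul_right_cancel₀ hz
    calc T₁.coeff (Finsupp.single i A + Finsupp.single j 1) * T₁.coeff 0 *
          (T₂.coeff 0 * T₂.coeff 0)
        = (T₁.coeff (Finsupp.single i A + Finsupp.single j 1) * T₂.coeff 0) *
          (T₁.coeff 0 * T₂.coeff 0) := by ring
      _ = (T₁.coeff (Finsupp.single i A) * T₂.coeff 0) *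
          (T₁.coeff (Finsupp.single j 1) * T₂.coeff 0) := by rw [q1, q2, q3, q4]; ring
      _ = _ := by ring
  -- conclusion
  by_cases hall : ∀ j : Fin r, (j : ℕ) + 1 < r →
      ∃ k : Fin r, (k : ℕ) + 1 < r ∧ pre a j = pre a' k
  · left
    exact (eq_of_proper a a' ha ha' hs hall).symm
  · right
    push Not at hall
    obtain ⟨j, hj, hj2⟩ := hall
    have hj3 : ∃ k : Fin r, (k : ℕ) + 1 < r ∧ pre a j = pre (a' ∘ Fin.rev) k := by
      rcases st5 j hj with ⟨k', hk', e⟩ | h
      · exact absurd e (hj2 k' hk')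
      · exact h
    obtain ⟨l, hl, e2⟩ := hj3
    have hsum' : ∑ i, a i = ∑ i, (a' ∘ Fin.rev) i := by
      rw [hs]; exact (Equiv.sum_comp Fin.revPerm a').symm
    have h := eq_of_proper a (a' ∘ Fin.rev) ha (fun i => ha' _) hsum' (by
      intro i hi
      rcases st5 i hi with ⟨k', hk', e⟩ | h
      · exact (st6 i j k' l hi hj hk' hl e e2).elim
      · exact h)
    rw [h]
    funext i
    simp
end Pool.Agent.W_a2e04a_h82
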