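import Pool.Agent.W_a2e04a_h82.A4b
import Pool.Agent.W_a2e04a_h82.A4c
import Pool.Agent.W_a2e04a_h82.B3c
import Pool.Agent.W_a2e04a_h82.C3

namespace Pool.Agent.W_a2e04a_h82

open Finset Filter Asymptotics

/-- The product of the two normalised sequences and the ratio of the extreme moduli. -/
lemma ratio_eq {r : ℕ} {B : Matrix (Fin (r + 1)) (Fin (r + 1)) ℝ}
    {x : Fin (r + 1) → ℝ} {κ : ℕ → ℝ} {ξ : ℕ → Fin (r + 1) → ℝ} (h : PosPair B x κ ξ) (n : ℕ) :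
    Real.exp ((n : ℝ) * ∑ i, rootLen x i) *
      |(κ n * ξ n 0 / x 0 ^ n) * (κ n * (1 / ξ n (Fin.rev 0)) / (1 / x (Fin.rev 0)) ^ n)| =
      ξ n 0 / ξ n (Fin.last r) := by
  have hκ : |κ n| = 1 := by rcases (h.eig n).1 with e | e <;> simp [e]
  have p0 := h.pos 0
  have pl := h.pos (Fin.last r)
  have q0 := (h.eig n).2.2.1 0
  have ql := (h.eig n).2.2.1 (Fin.last r)
  have hrev : Fin.rev (0 : Fin (r + 1)) = Fin.last r := Fin.rev_zero r
  rw [sum_rootLen x h.pos, mul_comm (n : ℝ) _, Real.exp_mul, Real.exp_log (div_pos p0 pl),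
    Real.rpow_natCast, hrev]
  simp only [abs_mul, abs_div, abs_pow, hκ, abs_of_pos p0, abs_of_pos pl, abs_of_pos q0,
    abs_of_pos ql, abs_one, div_pow, one_pow]
  field_simp

theorem core {r : ℕ} {B B' : Matrix (Fin (r + 1)) (Fin (r + 1)) ℝ}
    {x x' : Fin (r + 1) → ℝ} {κ κ' : ℕ → ℝ} {ξ ξ' : ℕ → Fin (r + 1) → ℝ}
    (h : PosPair B x κ ξ) (h' : PosPair B' x' κ' ξ')
    (ha : LinearIndependent ℚ (rootLen x))
    (hh : ∀ n, ξ n 0 / ξ n (Fin.last r) = ξ' n 0 / ξ' n (Fin.last r)) :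
    rootLen x' = rootLen x ∨ rootLen x' = rootLen x ∘ Fin.rev := by
  have t₁ := hasTop_of_posPair h
  have t₂ := hasTop_of_posPair h.dual
  have t₁' := hasTop_of_posPair h'
  have t₂' := hasTop_of_posPair h'.dual
  rw [rootLen_rev x h.pos] at t₂
  rw [rootLen_rev x' h'.pos] at t₂'
  obtain ⟨hs, k, hk, T₁, T₂, T₁', T₂', A₁, A₂, A₁', A₂', κ₀, hκ₀, hc⟩ :=
    compare (rootLen x) (rootLen x') (rootLen_pos x h.pos h.anti)
      (rootLen_pos x' h'.pos h'.anti) _ _ _ _ (good_of_posPair h) (good_of_posPair h.dual)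
      (good_of_posPair h') (good_of_posPair h'.dual) _ _ _ _ t₁ t₂ t₁' t₂'
      (fun n => by rw [ratio_eq h n, ratio_eq h' n, hh n])
      (4 * ∑ i, rootLen x i + 1) 4
  exact exponents (rootLen x) (rootLen x') (rootLen_pos x h.pos h.anti)
      (rootLen_pos x' h'.pos h'.anti) ha hs _ _ _ _ (good_of_posPair h) (good_of_posPair h.dual)
      (good_of_posPair h') (good_of_posPair h'.dual) k hk T₁ T₂ T₁' T₂' A₁ A₂ A₁' A₂' κ₀ _ hκ₀
      (by linarith) hc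

end Pool.Agent.W_a2e04a_h82
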