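import Pool.Agent.W_a2e04a_h82.Defs

namespace Pool.Agent.W_a2e04a_h82

open Finset Filter Asymptotics

/-- The principal minor of `B` on the index set `K`. -/
noncomputable def pm {d : ℕ} (B : Matrix (Fin d) (Fin d) ℝ) (K : Finset (Fin d)) : ℝ :=
  (B.submatrix (Subtype.val : K → Fin d) (Subtype.val : K → Fin d)).det

/-- The value at `t` of the characteristic polynomial of `diag (1, s_0, ..., s_(r-1)) * B`,
written through the principal minors `m K` of `B`. -/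
noncomputable def FF {r : ℕ} {R : Type*} [CommRing R] [Algebra ℝ R]
    (m : Finset (Fin (r + 1)) → ℝ) (s : Fin r → R) (t : R) : R :=
  ∑ K : Finset (Fin (r + 1)), algebraMap ℝ R ((-1) ^ K.card * m K) *
    (∏ j : Fin r, if j.succ ∈ K then s j else 1) * t ^ (r + 1 - K.card)

/-- Partial sums `a 0 + ... + a j`. -/
def pre {r : ℕ} (a : Fin r → ℝ) (j : Fin r) : ℝ := ∑ i ∈ Finset.Iic j, a i

/-- `u` is the normalised top eigenvalue: it is a root and tends to `m {0}`. -/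
def HasTop {r : ℕ} (m : Finset (Fin (r + 1)) → ℝ) (a : Fin r → ℝ) (u : ℕ → ℝ) : Prop :=
  (∀ n : ℕ, FF m (fun j => Real.exp (-((n : ℝ) * pre a j))) (u n) = 0) ∧
    Tendsto u atTop (nhds (m {0}))

/-- All coefficients of total degree `< k` vanish. -/
def Ord {r : ℕ} (k : ℕ) (p : MvPolynomial (Fin r) ℝ) : Prop :=
  ∀ e : Fin r →₀ ℕ, (∑ i, e i) < k → p.coeff e = 0

/-- `T` is an approximate root of order `k`. -/
def Appr {r : ℕ} (m : Finset (Fin (r + 1)) → ℝ) (k : ℕ) (T : MvPolynomial (Fin r) ℝ) : Prop :=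
  T.coeff 0 = m {0} ∧ Ord (k + 1) (FF m MvPolynomial.X T)

/-- Weight of an exponent vector. -/
def dot {r : ℕ} (w : Fin r → ℝ) (e : Fin r →₀ ℕ) : ℝ := ∑ i, (e i : ℝ) * w i

open Classical in
/-- Coefficient at the exponent `E` of the product `T₁ T₂` of exponential sums. -/
noncomputable def cw {r : ℕ} (w₁ w₂ : Fin r → ℝ) (T₁ T₂ : MvPolynomial (Fin r) ℝ) (E : ℝ) : ℝ :=
  ∑ p ∈ (T₁.support ×ˢ T₂.support).filter (fun p => dot w₁ p.1 + dot w₂ p.2 = E),
    T₁.coeff p.1 * T₂.coeff p.2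

/-- Nonvanishing conditions. -/
structure Good {r : ℕ} (m : Finset (Fin (r + 1)) → ℝ) : Prop where
  e : m ∅ = 1
  z : m {0} ≠ 0
  q : ∀ j : Fin r, m {j.succ} ≠ 0
  b : ∀ j : Fin r, m {0} * m {j.succ} - m {0, j.succ} ≠ 0

/-- The matrix side: `B * diag (x ^ n)` has eigenvalues `κ n * ξ n i`. -/
structure PosPair {r : ℕ} (B : Matrix (Fin (r + 1)) (Fin (r + 1)) ℝ) (x : Fin (r + 1) → ℝ)
    (κ : ℕ → ℝ) (ξ : ℕ → Fin (r + 1) → ℝ) : Prop where
  pos : ∀ i, 0 < x i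
  anti : StrictAnti x
  det : B.det ≠ 0
  ent : ∀ i j, B i j ≠ 0 ∧ B⁻¹ i j ≠ 0
  eig : ∀ n : ℕ, HasEig (B * Matrix.diagonal (fun i => x i ^ n)) (κ n) (ξ n)

end Pool.Agent.W_a2e04a_h82
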