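import Pool.Agent.W_a2e04a_h82.A1
import Pool.Agent.W_a2e04a_h82.A4a

namespace Pool.Agent.W_a2e04a_h82

open Finset Filter Asymptotics

/-- A finite exponential sum with distinct positive bases which vanishes for infinitely many
`n` is zero (take the largest base with a nonzero coefficient). -/
lemma expSum_zero {ι : Type*} (S : Finset ι) (c b : ι → ℝ) (hb : ∀ p ∈ S, 0 < b p)
    (hinj : ∀ p ∈ S, ∀ q ∈ S, b p = b q → p = q)
    (h : ∃ᶠ n : ℕ in atTop, ∑ p ∈ S, c p * b p ^ n = 0) : ∀ p ∈ S, c p = 0 := by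
  classical
  by_contra hcon
  push Not at hcon
  obtain ⟨q, hq, hq2⟩ := hcon
  obtain ⟨p₀, hp₀, hmax⟩ := Finset.exists_max_image (S.filter (fun p => c p ≠ 0)) b
    ⟨q, Finset.mem_filter.2 ⟨hq, hq2⟩⟩
  rw [Finset.mem_filter] at hp₀
  have hb0 := hb p₀ hp₀.1
  have hlim : Tendsto (fun n : ℕ => ∑ p ∈ S, c p * (b p / b p₀) ^ n) atTop
      (nhds (∑ p ∈ S, if p = p₀ then c p₀ else 0)) := by
    refine tendsto_finsetSum _ fun p hp => ?_
    by_cases hpp : p = p₀
    · subst hpp
      rw [if_pos rfl, div_self hb0.ne']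
      simp
    · rw [if_neg hpp]
      by_cases hcp : c p = 0
      · simp [hcp]
      · have h1 : b p ≤ b p₀ := hmax p (Finset.mem_filter.2 ⟨hp, hcp⟩)
        have h2 : b p < b p₀ := lt_of_le_of_ne h1 fun e => hpp (hinj p hp p₀ hp₀.1 e)
        have h3 : Tendsto (fun n : ℕ => (b p / b p₀) ^ n) atTop (nhds 0) :=
          tendsto_pow_atTop_nhds_zero_of_lt_one (div_pos (hb p hp) hb0).le
            ((div_lt_one hb0).2 h2)
        have h4 := h3.const_mul (c p)
        rwa [mul_zero] at h4
  rw [Finset.sum_ite_eq' S p₀, if_pos hp₀.1] at hlim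
  have hfr : ∃ᶠ n : ℕ in atTop, ∑ p ∈ S, c p * (b p / b p₀) ^ n = 0 := by
    refine h.mono fun n hn => ?_
    have : ∑ p ∈ S, c p * (b p / b p₀) ^ n = (∑ p ∈ S, c p * b p ^ n) / b p₀ ^ n := by
      rw [Finset.sum_div]
      refine Finset.sum_congr rfl fun p _ => ?_
      rw [div_pow]
      ring
    rw [this, hn, zero_div]
  by_contra _
  have hev : ∀ᶠ n : ℕ in atTop, ∑ p ∈ S, c p * (b p / b p₀) ^ n ≠ 0 :=
    hlim.eventually_ne hp₀.2
  exact hfr hev

private lemma d1_suffix {r : ℕ} (f f' : Fin r → ℕ)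
    (h : ∀ k, ∑ j ∈ Finset.Ici k, f j = ∑ j ∈ Finset.Ici k, f' j) : f = f' := by
  classical
  have key : ∀ (f : Fin r → ℕ) (j : Fin r),
      ∑ i ∈ Finset.Ici j, f i = f j + ∑ i ∈ Finset.Ioi j, f i := by
    intro f j
    have : Finset.Ici j = insert j (Finset.Ioi j) := by
      ext i
      rw [Finset.mem_insert, Finset.mem_Ici, Finset.mem_Ioi, le_iff_eq_or_lt]
      constructor
      · rintro (e | e)
        · exact Or.inl e.symm
        · exact Or.inr e
      · rintro (e | e)
        · exact Or.inl e.symm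
        · exact Or.inr e
    rw [this, Finset.sum_insert (by simp)]
  have step : ∀ (f : Fin r → ℕ) (j : Fin r), ∑ i ∈ Finset.Ioi j, f i =
      if hj : (j : ℕ) + 1 < r then ∑ i ∈ Finset.Ici (⟨j + 1, hj⟩ : Fin r), f i else 0 := by
    intro f j
    split_ifs with hj
    · congr 1
      ext i
      rw [Finset.mem_Ioi, Finset.mem_Ici, Fin.lt_def, Fin.le_def]
      simp only
      omega
    · rw [Finset.sum_eq_zero]
      intro i hi
      rw [Finset.mem_Ioi, Fin.lt_def] at hi
      have := i.2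
      omega
  funext j
  have h1 := h j
  rw [key f j, key f' j, step f j, step f' j] at h1
  split_ifs at h1 with hj
  · have := h ⟨j + 1, hj⟩
    omega
  · omega

/-- The products `x K` of two sets of the same size agree only if the sets agree: `log x i` is
`log x 0 - pre (rootLen x)`, so the coefficient of the `k`-th root length is the number of
elements of `K` larger than `k`. -/
lemma prod_inj {r : ℕ} (x : Fin (r + 1) → ℝ) (hx : ∀ i, 0 < x i)
    (ha : LinearIndependent ℚ (rootLen x)) (K L : Finset (Fin (r + 1)))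
    (hc : K.card = L.card) (h : ∏ i ∈ K, x i = ∏ i ∈ L, x i) : K = L := by
  classical
  -- the logarithm of a product
  have hlog : ∀ K : Finset (Fin (r + 1)), Real.log (∏ i ∈ K, x i) =
      K.card * Real.log (x 0) -
        ∑ k, ((∑ j ∈ Finset.Ici k, if j.succ ∈ K then 1 else 0 : ℕ) : ℝ) * rootLen x k := by
    intro K
    rw [Real.log_prod (fun i _ => (hx i).ne')]
    have e1 : ∑ i ∈ K, Real.log (x i) =
        ∑ i : Fin (r + 1), if i ∈ K then Real.log (x i) else 0 := by
      rw [Finset.sum_ite_mem, Finset.univ_inter]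
    have e2 : (K.card : ℝ) * Real.log (x 0) =
        ∑ i : Fin (r + 1), if i ∈ K then Real.log (x 0) else 0 := by
      rw [Finset.sum_ite_mem, Finset.univ_inter, Finset.sum_const, nsmul_eq_mul]
    rw [e1, e2, Fin.sum_univ_succ, Fin.sum_univ_succ]
    have e3 : ∀ j : Fin r, (if j.succ ∈ K then Real.log (x j.succ) else 0) =
        (if j.succ ∈ K then Real.log (x 0) else 0) -
          (if j.succ ∈ K then pre (rootLen x) j else 0) := by
      intro j
      split_ifs
      · rw [pre_rootLen x hx j, Real.log_div (hx 0).ne' (hx _).ne']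
        ring
      · ring
    simp_rw [e3]
    rw [Finset.sum_sub_distrib]
    have e4 : ∑ j : Fin r, (if j.succ ∈ K then pre (rootLen x) j else 0) =
        ∑ k, ((∑ j ∈ Finset.Ici k, if j.succ ∈ K then 1 else 0 : ℕ) : ℝ) * rootLen x k := by
      have e5 : ∀ j : Fin r, (if j.succ ∈ K then pre (rootLen x) j else 0) =
          ∑ k ∈ Finset.Iic j, (if j.succ ∈ K then (1 : ℝ) else 0) * rootLen x k := by
        intro j
        unfold pre
        split_ifs
        · simp
        · simp
      simp_rw [e5, Nat.cast_sum, Finset.sum_mul]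
      rw [Finset.sum_comm' (t' := Finset.univ) (s' := fun k => Finset.Ici k)]
      · refine Finset.sum_congr rfl fun k _ => Finset.sum_congr rfl fun j _ => ?_
        push_cast
        rfl
      · intro i k
        simp
    rw [e4]
    ring
  have h1 := congrArg Real.log h
  rw [hlog K, hlog L, hc] at h1
  have h2 : ∑ k, (((∑ j ∈ Finset.Ici k, if j.succ ∈ K then 1 else 0 : ℕ) : ℚ) -
      ((∑ j ∈ Finset.Ici k, if j.succ ∈ L then 1 else 0 : ℕ) : ℚ)) • rootLen x k = 0 := by
    have e : ∀ k, (((∑ j ∈ Finset.Ici k, if j.succ ∈ K then 1 else 0 : ℕ) : ℚ) -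
      ((∑ j ∈ Finset.Ici k, if j.succ ∈ L then 1 else 0 : ℕ) : ℚ)) • rootLen x k =
      ((∑ j ∈ Finset.Ici k, if j.succ ∈ K then 1 else 0 : ℕ) : ℝ) * rootLen x k -
      ((∑ j ∈ Finset.Ici k, if j.succ ∈ L then 1 else 0 : ℕ) : ℝ) * rootLen x k := by
      intro k
      rw [Rat.smul_def, ← sub_mul, Rat.cast_sub, Rat.cast_natCast, Rat.cast_natCast]
    simp_rw [e]
    rw [Finset.sum_sub_distrib]
    linarith
  rw [Fintype.linearIndependent_iff] at ha
  have h3 := ha _ h2
  have h4 : (fun j : Fin r => if j.succ ∈ K then 1 else 0) =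
      (fun j : Fin r => if j.succ ∈ L then 1 else 0) := by
    apply d1_suffix
    intro k
    have := sub_eq_zero.1 (h3 k)
    exact_mod_cast this
  have h5 : ∀ j : Fin r, j.succ ∈ K ↔ j.succ ∈ L := by
    intro j
    have := congrFun h4 j
    by_cases hK : j.succ ∈ K <;> by_cases hL : j.succ ∈ L <;> simp_all
  have h6 : (0 : Fin (r + 1)) ∈ K ↔ (0 : Fin (r + 1)) ∈ L := by
    have c1 : ∀ K : Finset (Fin (r + 1)), K.card =
        (if (0 : Fin (r + 1)) ∈ K then 1 else 0) + ∑ j : Fin r, if j.succ ∈ K then 1 else 0 := by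
      intro K
      rw [← Fin.sum_univ_succ (fun i : Fin (r + 1) => if i ∈ K then 1 else 0),
        Finset.sum_ite_mem, Finset.univ_inter, Finset.card_eq_sum_ones]
    have c2 := c1 K
    have c3 := c1 L
    have c4 : ∑ j : Fin r, (if j.succ ∈ K then 1 else 0) =
        ∑ j : Fin r, if j.succ ∈ L then 1 else 0 :=
      Finset.sum_congr rfl fun j _ => congrFun h4 j
    by_cases hK : (0 : Fin (r + 1)) ∈ K <;> by_cases hL : (0 : Fin (r + 1)) ∈ L
    · exact iff_of_true hK hL
    · rw [if_pos hK] at c2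
      rw [if_neg hL] at c3
      omega
    · rw [if_neg hK] at c2
      rw [if_pos hL] at c3
      omega
    · exact iff_of_false hK hL
  ext i
  rcases Fin.eq_zero_or_eq_succ i with rfl | ⟨j, rfl⟩
  · exact h6
  · exact h5 j

private lemma d1_pm_smul {d : ℕ} (B : Matrix (Fin d) (Fin d) ℝ) (θ : ℝ)
    (K : Finset (Fin d)) : pm (θ • B) K = θ ^ K.card * pm B K := by
  unfold pm
  have : (θ • B).submatrix (Subtype.val : K → Fin d) (Subtype.val : K → Fin d) =
      θ • B.submatrix (Subtype.val : K → Fin d) (Subtype.val : K → Fin d) := rfl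
  rw [this, Matrix.det_smul, Fintype.card_coe]

private lemma d1_charpoly {d : ℕ} (B B' : Matrix (Fin d) (Fin d) ℝ) (s : Fin d → ℝ)
    (h : ∀ K, pm B K = pm B' K) :
    (B * Matrix.diagonal s).charpoly = (B' * Matrix.diagonal s).charpoly := by
  ext n
  by_cases hn : n ≤ d
  · have e : n = d - (d - n) := by omega
    rw [e, charpoly_coeff_diag B s (d - n) (by omega), charpoly_coeff_diag B' s (d - n) (by omega)]
    simp_rw [h]
  · rw [Polynomial.coeff_eq_zero_of_natDegree_lt, Polynomial.coeff_eq_zero_of_natDegree_lt]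
    · rw [Matrix.charpoly_natDegree_eq_dim, Fintype.card_fin]; omega
    · rw [Matrix.charpoly_natDegree_eq_dim, Fintype.card_fin]; omega

/-- Two pairs over the same diagonal whose eigenvalues have the same moduli for infinitely many
`n`: by `esymm_diag`, `∑ |K| = k, pm B K * x K ^ n = θ n ^ k * ∑ |K| = k, pm B' K * x K ^ n`
with `θ n = κ n * κ' n = ± 1`; for infinitely many `n` the sign `θ n = θ` is constant, so
`pm B K = θ ^ |K| * pm B' K` for all `K` (`expSum_zero`, `prod_inj`). Then `n = 0`: `B` and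
`θ • B'` have the same characteristic polynomial, so the moduli of `B` and `B'` agree
(`HasEig.unique`, `HasEig.sign`). -/
lemma same_zero {r : ℕ} {B B' : Matrix (Fin (r + 1)) (Fin (r + 1)) ℝ}
    {x : Fin (r + 1) → ℝ} {κ κ' : ℕ → ℝ} {ξ ξ' : ℕ → Fin (r + 1) → ℝ}
    (h : PosPair B x κ ξ) (h' : PosPair B' x κ' ξ')
    (ha : LinearIndependent ℚ (rootLen x))
    (hf : ∃ᶠ n in atTop, ξ n = ξ' n) : ξ 0 = ξ' 0 := by
  classical
  have hsplit : (∃ᶠ n in atTop, ξ n = ξ' n ∧ κ n * κ' n = 1) ∨
      (∃ᶠ n in atTop, ξ n = ξ' n ∧ κ n * κ' n = -1) := by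
    rw [← Filter.frequently_or_distrib]
    refine hf.mono fun n hn => ?_
    rcases (h.eig n).1 with e | e <;> rcases (h'.eig n).1 with e' | e'
    · left; exact ⟨hn, by rw [e, e']; ring⟩
    · right; exact ⟨hn, by rw [e, e']; ring⟩
    · right; exact ⟨hn, by rw [e, e']; ring⟩
    · left; exact ⟨hn, by rw [e, e']; ring⟩
  obtain ⟨θ, hθ, hfθ⟩ : ∃ θ : ℝ, (θ = 1 ∨ θ = -1) ∧
      ∃ᶠ n in atTop, ξ n = ξ' n ∧ κ n * κ' n = θ := by
    rcases hsplit with hs | hs
    · exact ⟨1, Or.inl rfl, hs⟩
    · exact ⟨-1, Or.inr rfl, hs⟩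
  have hpm : ∀ K, pm B K = pm (θ • B') K := by
    intro K
    rw [d1_pm_smul]
    have hz := expSum_zero (Finset.univ.powersetCard K.card)
      (fun L => pm B L - θ ^ K.card * pm B' L) (fun L => ∏ i ∈ L, x i)
      (fun L _ => Finset.prod_pos fun i _ => h.pos i)
      (fun L hL L' hL' e => prod_inj x h.pos ha L L' (by
        rw [(Finset.mem_powersetCard.1 hL).2, (Finset.mem_powersetCard.1 hL').2]) e)
      (by
        refine hfθ.mono fun n hn => ?_
        have e1 := esymm_diag B (fun i => x i ^ n) (κ n) (ξ n) (h.eig n) K.card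
        have e2 := esymm_diag B' (fun i => x i ^ n) (κ' n) (ξ' n) (h'.eig n) K.card
        have e3 : ∑ L ∈ Finset.univ.powersetCard K.card,
            (pm B L - θ ^ K.card * pm B' L) * (∏ i ∈ L, x i) ^ n =
            (∑ L ∈ Finset.univ.powersetCard K.card, pm B L * ∏ i ∈ L, x i ^ n) -
            θ ^ K.card * ∑ L ∈ Finset.univ.powersetCard K.card, pm B' L * ∏ i ∈ L, x i ^ n := by
          rw [Finset.mul_sum, ← Finset.sum_sub_distrib]
          refine Finset.sum_congr rfl fun L _ => ?_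
          rw [Finset.prod_pow]
          ring
        rw [e3, ← e1, ← e2, ← hn.1, ← hn.2]
        have hk : κ' n ^ 2 = 1 := by
          rcases (h'.eig n).1 with e | e <;> rw [e] <;> ring
        have hk2 : (κ n * κ' n) ^ K.card * κ' n ^ K.card = κ n ^ K.card := by
          rw [← mul_pow]
          congr 1
          calc κ n * κ' n * κ' n = κ n * κ' n ^ 2 := by ring
            _ = κ n := by rw [hk, mul_one]
        rw [← mul_assoc, hk2, sub_self])
    have := hz K (Finset.mem_powersetCard.2 ⟨Finset.subset_univ _, rfl⟩)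
    linarith
  have hcp := d1_charpoly B (θ • B') (fun i => x i ^ 0) hpm
  rw [Matrix.smul_mul] at hcp
  have h1 := (h'.eig 0).sign hθ
  have h2 : HasEig (B * Matrix.diagonal (fun i => x i ^ 0)) (θ * κ' 0) (ξ' 0) :=
    ⟨h1.1, h1.2.1, h1.2.2.1, by rw [hcp]; exact h1.2.2.2⟩
  exact (h.eig 0).unique h2

end Pool.Agent.W_a2e04a_h82
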