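import Pool.Agent.W_a2e04a_h82.A2
import Pool.Agent.W_a2e04a_h82.A4a
import Pool.Agent.W_a2e04a_h82.A4c

namespace Pool.Agent.W_a2e04a_h82

open Finset Filter Asymptotics

lemma sum_parts_aux (r : ℕ) : ∀ (l : Fin (r + 1) → ℝ) (c : ℝ),
    ∑ i : Fin r, (c - 2 * (i : ℕ)) * (l i.castSucc - l i.succ) =
      (c + 2) * l 0 - 2 * ∑ i, l i - (c - 2 * r) * l (Fin.last r) := by
  induction r with
  | zero => intro l c; simp; ring
  | succ r ih =>
    intro l c
    have h := ih (fun i => l i.castSucc) c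
    rw [Fin.sum_univ_castSucc]
    simp only [Fin.val_castSucc, Fin.succ_castSucc] at h ⊢
    rw [h, Fin.sum_univ_castSucc (n := r + 1)]
    simp only [Fin.castSucc_zero, Fin.val_last, Fin.succ_last]
    push_cast
    ring

lemma pow_not_bounded_aux {q c : ℝ} (hq : 0 < q) (hc : 0 < c) {u : ℕ → ℝ}
    (hu : Tendsto u atTop (nhds c)) (hf : ∃ᶠ n in atTop, q ^ n = u n) : q = 1 := by
  rcases lt_trichotomy q 1 with h | h | h
  · have h1 := tendsto_pow_atTop_nhds_zero_of_lt_one hq.le h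
    have e1 : ∀ᶠ n in atTop, q ^ n < c / 2 := h1.eventually_lt_const (by linarith)
    have e2 : ∀ᶠ n in atTop, c / 2 < u n := hu.eventually_const_lt (by linarith)
    obtain ⟨n, h3, h4, h5⟩ := (hf.and_eventually (e1.and e2)).exists
    rw [h3] at h4
    exact absurd h4 (not_lt.2 h5.le)
  · exact h
  · have h1 := tendsto_pow_atTop_atTop_of_one_lt h
    have e1 : ∀ᶠ n in atTop, c + 1 < q ^ n := h1.eventually_gt_atTop (c + 1)
    have e2 : ∀ᶠ n in atTop, u n < c + 1 := hu.eventually_lt_const (by linarith)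
    obtain ⟨n, h3, h4, h5⟩ := (hf.and_eventually (e1.and e2)).exists
    rw [h3] at h4
    exact absurd h4 (not_lt.2 h5.le)

/-- Growth excludes the opposite type. If `ξ n i = 1 / ξ' n (rev i)` for infinitely many `n`
then, with `ξ n 0 / x 0 ^ n → |B 0 0| > 0` (`top_tendsto`) and
`(1 / ξ' n (last)) / (1 / x (last)) ^ n → |B'⁻¹ (last) (last)| > 0` (`top_tendsto` for
`PosPair.dual`), `x 0 = 1 / x (last)`. With `∏ x i = 1` this is the nontrivial relation
`∑ i, (r - 1 - 2 i) a i = 0` (`i = 0, ..., r - 1`) between the root lengths `a i`, as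
`(r + 1) log x 0 = ∑ (r - i) a i` and `- (r + 1) log x (last) = ∑ (i + 1) a i`; for `r ≥ 2` the
coefficient of `a 0` is not zero. -/
lemma not_opposite {r : ℕ} (hr : 2 ≤ r) {B B' : Matrix (Fin (r + 1)) (Fin (r + 1)) ℝ}
    {x : Fin (r + 1) → ℝ} {κ κ' : ℕ → ℝ} {ξ ξ' : ℕ → Fin (r + 1) → ℝ}
    (h : PosPair B x κ ξ) (h' : PosPair B' x κ' ξ') (hx : ∏ i, x i = 1)
    (ha : LinearIndependent ℚ (rootLen x))
    (hf : ∃ᶠ n in atTop, ξ n = fun i => 1 / ξ' n (Fin.rev i)) : False := by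
  have t1 := (top_tendsto h).abs
  have t2 := (top_tendsto h'.dual).abs
  have b1 : 0 < |B 0 0| := abs_pos.2 (h.ent 0 0).1
  have b2 : 0 < |((B'⁻¹).submatrix Fin.rev Fin.rev) 0 0| := abs_pos.2 (h'.ent _ _).2
  have x0 := h.pos 0
  have xl := h.pos (Fin.last r)
  have k1 : ∀ n, |κ n| = 1 := fun n => by
    rcases (h.eig n).1 with e | e <;> rw [e] <;> simp
  have k2 : ∀ n, |κ' n| = 1 := fun n => by
    rcases (h'.eig n).1 with e | e <;> rw [e] <;> simp
  have hq : x 0 * x (Fin.last r) = 1 := by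
    refine pow_not_bounded_aux (mul_pos x0 xl) (div_pos b2 b1) (t2.div t1 b1.ne') ?_
    refine hf.mono fun n hn => ?_
    have p0 : 0 < ξ n 0 := (h.eig n).2.2.1 0
    have e0 : ξ n 0 = 1 / ξ' n (Fin.last r) := by rw [hn]; simp
    have xp : 0 < x 0 ^ n := pow_pos x0 n
    have xlp : 0 < x (Fin.last r) ^ n := pow_pos xl n
    simp only [Fin.rev_zero]
    show (x 0 * x (Fin.last r)) ^ n = |κ' n * (1 / ξ' n (Fin.last r)) / (1 / x (Fin.last r)) ^ n| /
      |κ n * ξ n 0 / x 0 ^ n|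
    rw [← e0, abs_div, abs_mul, k2, one_mul, abs_div, abs_mul, k1, one_mul, abs_of_pos p0,
      abs_of_pos xp, one_div, inv_pow, abs_of_pos (inv_pos.2 xlp), mul_pow]
    field_simp
  have hl : Real.log (x 0) + Real.log (x (Fin.last r)) = 0 := by
    rw [← Real.log_mul x0.ne' xl.ne', hq, Real.log_one]
  have hs : ∑ i, Real.log (x i) = 0 := by
    rw [← Real.log_prod (fun i _ => (h.pos i).ne'), hx, Real.log_one]
  have hsum := sum_parts_aux r (fun i => Real.log (x i)) ((r:ℝ) - 1)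
  have hz : ∑ i : Fin r, (((r:ℚ) - 1 - 2 * (i : ℕ)) : ℚ) • rootLen x i = 0 := by
    have e : ∀ i : Fin r, (((r:ℚ) - 1 - 2 * (i : ℕ)) : ℚ) • rootLen x i =
        ((r:ℝ) - 1 - 2 * (i : ℕ)) * (Real.log (x i.castSucc) - Real.log (x i.succ)) := by
      intro i
      unfold rootLen
      rw [Real.log_div (h.pos _).ne' (h.pos _).ne', Rat.smul_def]
      push_cast
      rfl
    rw [Finset.sum_congr rfl fun i _ => e i, hsum, hs]
    linear_combination ((r:ℝ) + 1) * hl
  have := (Fintype.linearIndependent_iff.1 ha) (fun i => (r:ℚ) - 1 - 2 * (i : ℕ)) hz ⟨0, by omega⟩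
  simp only [Nat.cast_zero, mul_zero, sub_zero] at this
  have h2 : (2:ℚ) ≤ r := by exact_mod_cast hr
  linarith

end Pool.Agent.W_a2e04a_h82
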