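import Mathlib

namespace Pool.Agent.W_a2e04a_h82

open Matrix

/-- The product of the commutators `[a_i, b_i]` in the free group on `a_i = inl i`,
`b_i = inr i`. -/
def surfRel (g : ℕ) : FreeGroup (Fin g ⊕ Fin g) :=
  (List.ofFn fun i : Fin g =>
    FreeGroup.of (Sum.inl i) * FreeGroup.of (Sum.inr i) *
      (FreeGroup.of (Sum.inl i))⁻¹ * (FreeGroup.of (Sum.inr i))⁻¹).prod

/-- The fundamental group of the closed oriented surface of genus `g`. -/
abbrev SurfaceGroup (g : ℕ) : Type := PresentedGroup {surfRel g}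

/-- The generator `a_1`. -/
def genA {g : ℕ} (hg : 0 < g) : SurfaceGroup g :=
  PresentedGroup.of (Sum.inl (⟨0, hg⟩ : Fin g))

/-- The generator `b_1`. -/
def genB {g : ℕ} (hg : 0 < g) : SurfaceGroup g :=
  PresentedGroup.of (Sum.inr (⟨0, hg⟩ : Fin g))

/-- `α` and `β` are represented by a pair of simple based loops which meet exactly once
(transversally, at the base point): the pair is the image of `(a_1, b_1)` under an
automorphism of the surface group. -/
def Once {g : ℕ} (hg : 0 < g) (α β : SurfaceGroup g) : Prop :=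
  ∃ φ : SurfaceGroup g ≃* SurfaceGroup g, φ (genA hg) = α ∧ φ (genB hg) = β

/-- `γ` is joined to `a_1` by a chain of elements in which neighbours are
once-intersecting pairs. -/
def Simple {g : ℕ} (hg : 0 < g) (γ : SurfaceGroup g) : Prop :=
  Relation.ReflTransGen (Once hg) (genA hg) γ

/-- The real matrix `M` has the `d` distinct eigenvalues `ε * x i`, with `ε = 1` or
`ε = -1` and `x 0 > x 1 > ... > 0`. -/
def HasEig {d : ℕ} (M : Matrix (Fin d) (Fin d) ℝ) (ε : ℝ) (x : Fin d → ℝ) : Prop :=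
  (ε = 1 ∨ ε = -1) ∧ StrictAnti x ∧ (∀ i, 0 < x i) ∧
    M.charpoly = ∏ i, (Polynomial.X - Polynomial.C (ε * x i))

/-- The logarithm of the spectral radius. -/
noncomputable def ell {d : ℕ} (M : Matrix (Fin d) (Fin d) ℝ) : ℝ :=
  Real.log (spectralRadius ℂ (M.map (algebraMap ℝ ℂ))).toReal

/-- The Hilbert length of a matrix of determinant one, the logarithm of the product of the
spectral radii of the matrix and of its inverse. -/
noncomputable def hilbertLength {d : ℕ} (M : SpecialLinearGroup (Fin d) ℝ) : ℝ :=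
  ell (M : Matrix (Fin d) (Fin d) ℝ) + ell ((M⁻¹ : SpecialLinearGroup (Fin d) ℝ) :
    Matrix (Fin d) (Fin d) ℝ)

/-- For every once-intersecting pair `(α, β)` the matrix `ρ α` is diagonalisable with
eigenvalues of one sign and of distinct moduli, and in an eigenbasis of `ρ α` no entry of
the matrices of `ρ β` and of `(ρ β)⁻¹` vanishes. -/
def Transverse {g d : ℕ} (hg : 0 < g)
    (ρ : SurfaceGroup g →* SpecialLinearGroup (Fin d) ℝ) : Prop :=
  ∀ α β : SurfaceGroup g, Once hg α β →
    ∃ (ε : ℝ) (x : Fin d → ℝ) (P : GL (Fin d) ℝ),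
      (ε = 1 ∨ ε = -1) ∧ StrictAnti x ∧ (∀ i, 0 < x i) ∧
      (P⁻¹ : GL (Fin d) ℝ).val * (ρ α).val * P.val = Matrix.diagonal (fun i => ε * x i) ∧
      ∀ i j, ((P⁻¹ : GL (Fin d) ℝ).val * (ρ β).val * P.val) i j ≠ 0 ∧
        ((P⁻¹ : GL (Fin d) ℝ).val * ((ρ β)⁻¹).val * P.val) i j ≠ 0

/-- The simple root lengths `log (x i / x (i+1))`. -/
noncomputable def rootLen {r : ℕ} (x : Fin (r + 1) → ℝ) (i : Fin r) : ℝ :=
  Real.log (x i.castSucc / x i.succ)

/-- The simple root lengths of `ρ γ` are linearly independent over the rationals for every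
`γ` of the class `Simple`. -/
def Generic {g r : ℕ} (hg : 0 < g)
    (ρ : SurfaceGroup g →* SpecialLinearGroup (Fin (r + 1)) ℝ) : Prop :=
  ∀ γ : SurfaceGroup g, Simple hg γ → ∀ (ε : ℝ) (x : Fin (r + 1) → ℝ),
    HasEig (ρ γ).val ε x → LinearIndependent ℚ (rootLen x)

/-- `M` and `N` have the same eigenvalues up to one common sign: there are
`x 0 > x 1 > ... > 0` and signs `ε`, `δ` such that the eigenvalues of `M` are the `ε * x i`
and those of `N` are the `δ * x i`. -/
def SameEig {d : ℕ} (M N : SpecialLinearGroup (Fin d) ℝ) : Prop :=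
  ∃ (ε δ : ℝ) (x : Fin d → ℝ), HasEig M.val ε x ∧ HasEig N.val δ x

end Pool.Agent.W_a2e04a_h82
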