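import Pool.Agent.W_a2e04a_h82.Defs

namespace Pool.Agent.W_a2e04a_h82

open Finset Filter Asymptotics

/-- Images under automorphisms of once-intersecting pairs. -/
lemma Once.map {g : ℕ} {hg : 0 < g} {α β : SurfaceGroup g} (h : Once hg α β)
    (φ : SurfaceGroup g ≃* SurfaceGroup g) : Once hg (φ α) (φ β) := by
  obtain ⟨ψ, h1, h2⟩ := h
  exact ⟨ψ.trans φ, by rw [MulEquiv.trans_apply, h1], by rw [MulEquiv.trans_apply, h2]⟩

private lemma E1_hom {g : ℕ} (hg : 0 < g) (x y : SurfaceGroup g)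
    (hxy : x * y * x⁻¹ * y⁻¹ = genA hg * genB hg * (genA hg)⁻¹ * (genB hg)⁻¹) :
    ∃ f : SurfaceGroup g →* SurfaceGroup g, f (genA hg) = x ∧ f (genB hg) = y ∧
      ∀ i : Fin g, i ≠ ⟨0, hg⟩ →
        f (PresentedGroup.of (Sum.inl i)) = PresentedGroup.of (Sum.inl i) ∧
        f (PresentedGroup.of (Sum.inr i)) = PresentedGroup.of (Sum.inr i) := by
  classical
  obtain ⟨v, hv⟩ : ∃ v : Fin g ⊕ Fin g → SurfaceGroup g,
      v = Sum.elim (fun i => if i = ⟨0, hg⟩ then x else PresentedGroup.of (Sum.inl i))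
        (fun i => if i = ⟨0, hg⟩ then y else PresentedGroup.of (Sum.inr i)) := ⟨_, rfl⟩
  have hrel : ∀ r ∈ ({surfRel g} : Set (FreeGroup (Fin g ⊕ Fin g))),
      FreeGroup.lift v r = 1 := by
    intro r hr
    rw [Set.mem_singleton_iff] at hr
    subst hr
    have h1 : PresentedGroup.mk {surfRel g} (surfRel g) = 1 :=
      PresentedGroup.one_of_mem (Set.mem_singleton _)
    rw [← h1]
    unfold surfRel
    rw [map_list_prod, map_list_prod, List.map_ofFn, List.map_ofFn]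
    congr 2
    funext i
    simp only [Function.comp_apply, map_mul, map_inv, FreeGroup.lift_apply_of]
    by_cases hi : i = ⟨0, hg⟩
    · subst hi
      rw [hv]
      simp only [Sum.elim_inl, Sum.elim_inr, if_true]
      exact hxy
    · rw [hv]
      simp only [Sum.elim_inl, Sum.elim_inr, if_neg hi]
      rfl
  refine ⟨PresentedGroup.toGroup hrel, ?_, ?_, ?_⟩
  · rw [genA, PresentedGroup.toGroup.of, hv]
    simp
  · rw [genB, PresentedGroup.toGroup.of, hv]
    simp
  · intro i hi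
    rw [PresentedGroup.toGroup.of, PresentedGroup.toGroup.of, hv]
    simp [hi]

private lemma E1_aut {g : ℕ} (hg : 0 < g) (f f' : SurfaceGroup g →* SurfaceGroup g)
    (h1 : f (f' (genA hg)) = genA hg) (h2 : f (f' (genB hg)) = genB hg)
    (h3 : ∀ i : Fin g, i ≠ ⟨0, hg⟩ →
        f (PresentedGroup.of (Sum.inl i)) = PresentedGroup.of (Sum.inl i) ∧
        f (PresentedGroup.of (Sum.inr i)) = PresentedGroup.of (Sum.inr i))
    (h4 : ∀ i : Fin g, i ≠ ⟨0, hg⟩ →
        f' (PresentedGroup.of (Sum.inl i)) = PresentedGroup.of (Sum.inl i) ∧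
        f' (PresentedGroup.of (Sum.inr i)) = PresentedGroup.of (Sum.inr i)) :
    ∀ z, f (f' z) = z := by
  have h : f.comp f' = MonoidHom.id _ := by
    apply PresentedGroup.ext
    intro s
    rw [MonoidHom.comp_apply, MonoidHom.id_apply]
    rcases s with i | i
    · by_cases hi : i = ⟨0, hg⟩
      · subst hi
        exact h1
      · rw [(h4 i hi).1, (h3 i hi).1]
    · by_cases hi : i = ⟨0, hg⟩
      · subst hi
        exact h2
      · rw [(h4 i hi).2, (h3 i hi).2]
  intro z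
  exact DFunLike.congr_fun h z

/-- The Dehn twist `b_1 ↦ b_1 a_1` (all other generators fixed) is an automorphism of the
surface group: `[a_1, b_1 a_1] = [a_1, b_1]`. Hence `(α, β)` once-intersecting gives `(α, β α)`
once-intersecting (compose the automorphism of `(α, β)` with the twist). -/
lemma Once.twist {g : ℕ} {hg : 0 < g} {α β : SurfaceGroup g} (h : Once hg α β) :
    Once hg α (β * α) := by
  obtain ⟨φ, h1, h2⟩ := h
  obtain ⟨f, fa, fb, fo⟩ := E1_hom hg (genA hg) (genB hg * genA hg) (by group)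
  obtain ⟨f', fa', fb', fo'⟩ := E1_hom hg (genA hg) (genB hg * (genA hg)⁻¹) (by group)
  have e1 := E1_aut hg f f' (by rw [fa', fa])
    (by rw [fb', map_mul, map_inv, fa, fb]; group) fo fo'
  have e2 := E1_aut hg f' f (by rw [fa, fa'])
    (by rw [fb, map_mul, fa', fb']; group) fo' fo
  refine ⟨(MulEquiv.mk ⟨f, f', e2, e1⟩ (map_mul f)).trans φ, ?_, ?_⟩
  · rw [MulEquiv.trans_apply]
    change φ (f (genA hg)) = α
    rw [fa, h1]
  · rw [MulEquiv.trans_apply]
    change φ (f (genB hg)) = β * α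
    rw [fb, map_mul, h1, h2]

lemma Once.twist_pow {g : ℕ} {hg : 0 < g} {α β : SurfaceGroup g} (h : Once hg α β) (n : ℕ) :
    Once hg α (β * α ^ n) := by
  induction n with
  | zero => rwa [pow_zero, mul_one]
  | succ n ih =>
    rw [pow_succ, ← mul_assoc]
    exact ih.twist

/-- The rotation: `a_1 ↦ a_1 b_1 a_1⁻¹`, `b_1 ↦ a_1⁻¹`, other generators fixed, is an
automorphism, `[a_1 b_1 a_1⁻¹, a_1⁻¹] = a_1 b_1 a_1⁻¹ a_1⁻¹ a_1 b_1⁻¹ a_1⁻¹ a_1 = [a_1, b_1]`
(inverse `a_1 ↦ b_1⁻¹`, `b_1 ↦ b_1 a_1 b_1⁻¹`); composed with the conjugation by `a_1⁻¹` it maps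
`(a_1, b_1)` to `(b_1, a_1⁻¹)`. -/
lemma Once.rotate {g : ℕ} {hg : 0 < g} {α β : SurfaceGroup g} (h : Once hg α β) :
    Once hg β α⁻¹ := by
  obtain ⟨φ, h1, h2⟩ := h
  obtain ⟨f, fa, fb, fo⟩ := E1_hom hg (genA hg * genB hg * (genA hg)⁻¹) (genA hg)⁻¹ (by group)
  obtain ⟨f', fa', fb', fo'⟩ := E1_hom hg (genB hg)⁻¹ (genB hg * genA hg * (genB hg)⁻¹) (by group)
  have e1 := E1_aut hg f f' (by rw [fa', map_inv, fb, inv_inv])
    (by rw [fb', map_mul, map_mul, map_inv, fa, fb]; group) fo fo'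
  have e2 := E1_aut hg f' f (by rw [fa, map_mul, map_mul, map_inv, fa', fb']; group)
    (by rw [fb, map_inv, fa', inv_inv]) fo' fo
  refine ⟨((MulEquiv.mk ⟨f, f', e2, e1⟩ (map_mul f)).trans (MulAut.conj (genA hg)⁻¹)).trans φ,
    ?_, ?_⟩
  · rw [MulEquiv.trans_apply, MulEquiv.trans_apply]
    change φ (MulAut.conj (genA hg)⁻¹ (f (genA hg))) = β
    rw [fa, MulAut.conj_apply, ← h2]
    congr 1
    group
  · rw [MulEquiv.trans_apply, MulEquiv.trans_apply]
    change φ (MulAut.conj (genA hg)⁻¹ (f (genB hg))) = α⁻¹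
    rw [fb, MulAut.conj_apply, ← h1, ← map_inv]
    congr 1
    group

end Pool.Agent.W_a2e04a_h82
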