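import Pool.Agent.W_a2e04a_h82.A3b
import Pool.Agent.W_a2e04a_h82.C4
import Pool.Agent.W_a2e04a_h82.D1
import Pool.Agent.W_a2e04a_h82.D2
import Pool.Agent.W_a2e04a_h82.E1

namespace Pool.Agent.W_a2e04a_h82

open Finset Filter Matrix

variable {g r : ℕ} {hg : 0 < g}

/-- The eigenvalues of `ρ α` for the first element of a once-intersecting pair. -/
lemma hasEig_of_once {ρ : SurfaceGroup g →* SpecialLinearGroup (Fin (r + 1)) ℝ}
    (hρ : Transverse hg ρ) {α β : SurfaceGroup g} (h : Once hg α β) :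
    ∃ ε x, HasEig (ρ α).val ε x := by
  obtain ⟨ε, x, P, h1, h2, h3, h4, -⟩ := hρ α β h
  exact ⟨ε, x, hasEig_of_diag P h1 h2 h3 h4⟩

lemma prod_eq_one {M : SpecialLinearGroup (Fin (r + 1)) ℝ} {ε : ℝ} {x : Fin (r + 1) → ℝ}
    (h : HasEig M.val ε x) : ∏ i, x i = 1 := by
  rw [h.prod_eq, M.2, abs_one]

/-- The matrix data of a once-intersecting pair. -/
lemma pair_of_once {ρ : SurfaceGroup g →* SpecialLinearGroup (Fin (r + 1)) ℝ}
    (hρ : Transverse hg ρ) {α β : SurfaceGroup g} (h : Once hg α β) :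
    ∃ (ε : ℝ) (x : Fin (r + 1) → ℝ) (B : Matrix (Fin (r + 1)) (Fin (r + 1)) ℝ) (κ : ℕ → ℝ)
      (ξ : ℕ → Fin (r + 1) → ℝ), HasEig (ρ α).val ε x ∧ PosPair B x κ ξ ∧
      ∀ n, ∃ δ, HasEig (ρ (β * α ^ n)).val δ (ξ n) := by
  obtain ⟨ε, x, P, h1, h2, h3, h4, h5⟩ := hρ α β h
  have hex : ∀ n : ℕ, ∃ δ y, HasEig (ρ (β * α ^ n)).val δ y := fun n =>
    hasEig_of_once hρ ((h.twist_pow n).rotate)
  choose δ y hy using hex
  have hPP : (P⁻¹ : GL (Fin (r + 1)) ℝ).val * P.val = 1 := by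
    rw [← Units.val_mul]; simp
  have hPP' : P.val * (P⁻¹ : GL (Fin (r + 1)) ℝ).val = 1 := by
    rw [← Units.val_mul]; simp
  have hεε : ε * ε = 1 := by rcases h1 with e | e <;> simp [e]
  have hdetP : (P⁻¹ : GL (Fin (r + 1)) ℝ).val.det * P.val.det = 1 := by
    rw [← det_mul, hPP, det_one]
  set B : Matrix (Fin (r + 1)) (Fin (r + 1)) ℝ :=
    (P⁻¹ : GL (Fin (r + 1)) ℝ).val * (ρ β).val * P.val with hB
  have hBdet : B.det = 1 := by
    rw [hB, det_mul, det_mul, (ρ β).2, mul_one, hdetP]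
  have hBinv : B⁻¹ = (P⁻¹ : GL (Fin (r + 1)) ℝ).val * ((ρ β)⁻¹).val * P.val := by
    apply Matrix.inv_eq_right_inv
    rw [hB]
    have hbb : (ρ β).val * ((ρ β)⁻¹).val = 1 :=
      congrArg Subtype.val (mul_inv_cancel (ρ β))
    calc (P⁻¹ : GL (Fin (r + 1)) ℝ).val * (ρ β).val * P.val *
          ((P⁻¹ : GL (Fin (r + 1)) ℝ).val * ((ρ β)⁻¹).val * P.val)
        = (P⁻¹ : GL (Fin (r + 1)) ℝ).val * (ρ β).val *
          (P.val * (P⁻¹ : GL (Fin (r + 1)) ℝ).val) * ((ρ β)⁻¹).val * P.val := by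
          simp only [Matrix.mul_assoc]
      _ = (P⁻¹ : GL (Fin (r + 1)) ℝ).val * ((ρ β).val * ((ρ β)⁻¹).val) * P.val := by
          rw [hPP']; simp only [Matrix.mul_assoc, Matrix.one_mul]
      _ = 1 := by rw [hbb, Matrix.mul_one, hPP]
  -- the conjugate of `ρ (β α ^ n)`
  have hconj : ∀ n : ℕ, B * Matrix.diagonal (fun i => x i ^ n) =
      ε ^ n • ((P⁻¹ : GL (Fin (r + 1)) ℝ).val * (ρ (β * α ^ n)).val * P.val) := by
    intro n
    have hpow : ∀ n : ℕ, (P⁻¹ : GL (Fin (r + 1)) ℝ).val * (ρ (α ^ n)).val * P.val =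
        Matrix.diagonal (fun i => (ε * x i) ^ n) := by
      intro n
      induction n with
      | zero => simp
      | succ n ih =>
        have e1 : (ρ (α ^ (n + 1))).val = (ρ (α ^ n)).val * (ρ α).val := by
          rw [pow_succ, map_mul]; rfl
        have e2 : (P⁻¹ : GL (Fin (r + 1)) ℝ).val * (ρ (α ^ (n + 1))).val * P.val =
            ((P⁻¹ : GL (Fin (r + 1)) ℝ).val * (ρ (α ^ n)).val * P.val) *
            ((P⁻¹ : GL (Fin (r + 1)) ℝ).val * (ρ α).val * P.val) := by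
          rw [e1]
          calc _ = (P⁻¹ : GL (Fin (r + 1)) ℝ).val * (ρ (α ^ n)).val *
                (1 : Matrix (Fin (r + 1)) (Fin (r + 1)) ℝ) * (ρ α).val * P.val := by
                simp only [Matrix.mul_assoc, Matrix.one_mul]
            _ = _ := by rw [← hPP']; simp only [Matrix.mul_assoc]
        rw [e2, ih, h4, Matrix.diagonal_mul_diagonal]
        congr 1
    have e1 : (ρ (β * α ^ n)).val = (ρ β).val * (ρ (α ^ n)).val := by rw [map_mul]; rfl
    have e2 : (P⁻¹ : GL (Fin (r + 1)) ℝ).val * (ρ (β * α ^ n)).val * P.val =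
        B * ((P⁻¹ : GL (Fin (r + 1)) ℝ).val * (ρ (α ^ n)).val * P.val) := by
      rw [e1, hB]
      calc _ = (P⁻¹ : GL (Fin (r + 1)) ℝ).val * (ρ β).val *
            (1 : Matrix (Fin (r + 1)) (Fin (r + 1)) ℝ) * (ρ (α ^ n)).val * P.val := by
            simp only [Matrix.mul_assoc, Matrix.one_mul]
        _ = _ := by rw [← hPP']; simp only [Matrix.mul_assoc]
    rw [e2, hpow n, ← Matrix.mul_smul]
    congr 1
    ext i j
    by_cases hij : i = j
    · subst hij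
      simp only [Matrix.diagonal_apply_eq, Matrix.smul_apply, smul_eq_mul]
      rw [mul_pow, ← mul_assoc, ← mul_pow, hεε, one_pow, one_mul]
    · simp [hij]
  refine ⟨ε, x, B, fun n => ε ^ n * δ n, y, hasEig_of_diag P h1 h2 h3 h4,
    ⟨h3, h2, by rw [hBdet]; exact one_ne_zero, ?_, ?_⟩, fun n => ⟨δ n, hy n⟩⟩
  · intro i j
    refine ⟨(h5 i j).1, ?_⟩
    rw [hBinv]
    exact (h5 i j).2
  · intro n
    rw [hconj n]
    refine HasEig.sign ?_ ((hy n).conj P rfl)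
    rcases h1 with e | e
    · left; rw [e, one_pow]
    · rw [e]; exact neg_one_pow_eq_or ℝ n

variable {ρ σ : SurfaceGroup g →* SpecialLinearGroup (Fin (r + 1)) ℝ}

/-- The two types at a simple element. -/
lemma dichotomy (hρ : Transverse hg ρ) (hσ : Transverse hg σ) (hgen : Generic hg ρ)
    (hlen : ∀ γ, Simple hg γ → hilbertLength (ρ γ) = hilbertLength (σ γ))
    {α β : SurfaceGroup g} (hα : Simple hg α) (h : Once hg α β) :
    SameEig (ρ α) (σ α) ∨ SameEig (ρ α) (σ α)⁻¹ := by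
  obtain ⟨ε, x, B, κ, ξ, e1, e2, e3⟩ := pair_of_once hρ h
  obtain ⟨ε', x', B', κ', ξ', e1', e2', e3'⟩ := pair_of_once hσ h
  have hh : ∀ n, ξ n 0 / ξ n (Fin.last r) = ξ' n 0 / ξ' n (Fin.last r) := by
    intro n
    obtain ⟨δ, hδ⟩ := e3 n
    obtain ⟨δ', hδ'⟩ := e3' n
    have hs : Simple hg (β * α ^ n) := Relation.ReflTransGen.tail hα (h.twist_pow n)
    have hl := hlen _ hs
    rw [hδ.hilbertLength_eq, hδ'.hilbertLength_eq] at hl
    exact Real.log_injOn_pos (Set.mem_Ioi.2 (div_pos (hδ.2.2.1 _) (hδ.2.2.1 _)))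
      (Set.mem_Ioi.2 (div_pos (hδ'.2.2.1 _) (hδ'.2.2.1 _))) hl
  rcases core e2 e2' (hgen α hα ε x e1) hh with c | c
  · left
    have : x' = x := eq_of_rootLen x' x e2'.pos e2.pos (prod_eq_one e1') (prod_eq_one e1) c
    exact ⟨ε, ε', x, e1, this ▸ e1'⟩
  · right
    have hinv : HasEig ((σ α)⁻¹).val ε' (fun i => 1 / x' (Fin.rev i)) := by
      have h1 := e1'.inv
      have h2 : ((σ α)⁻¹).val = ((σ α).val)⁻¹ := by
        rw [Matrix.SpecialLinearGroup.coe_inv, Matrix.inv_def, (σ α).2]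
        simp
      rw [h2]
      exact h1
    have hc : rootLen (fun i => 1 / x' (Fin.rev i)) = rootLen x := by
      rw [rootLen_rev x' e2'.pos, c]
      funext i
      simp
    have hx : (fun i => 1 / x' (Fin.rev i)) = x :=
      eq_of_rootLen _ _ hinv.2.2.1 e2.pos (prod_eq_one hinv) (prod_eq_one e1) hc
    rw [hx] at hinv
    exact ⟨ε, ε', x, e1, hinv⟩

/-- Propagation of the equal type along a once-intersecting pair. -/
lemma step_plus (hr : 2 ≤ r) (hρ : Transverse hg ρ) (hσ : Transverse hg σ)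
    (hgen : Generic hg ρ)
    (hlen : ∀ γ, Simple hg γ → hilbertLength (ρ γ) = hilbertLength (σ γ))
    {α β : SurfaceGroup g} (hα : Simple hg α) (h : Once hg α β)
    (hs : SameEig (ρ α) (σ α)) : SameEig (ρ β) (σ β) := by
  obtain ⟨ε, x, B, κ, ξ, e1, e2, e3⟩ := pair_of_once hρ h
  obtain ⟨ε', x', B', κ', ξ', e1', e2', e3'⟩ := pair_of_once hσ h
  obtain ⟨δ, δ', y, f1, f2⟩ := hs
  have hx : x = y := e1.unique f1
  have hx' : x' = y := e1'.unique f2
  subst hx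
  subst hx'
  have hind := hgen α hα _ _ e1
  have hty : ∀ n, ξ n = ξ' n ∨ ξ n = fun i => 1 / ξ' n (Fin.rev i) := by
    intro n
    obtain ⟨δ₁, hδ₁⟩ := e3 n
    obtain ⟨δ₂, hδ₂⟩ := e3' n
    have hsn : Simple hg (β * α ^ n) := Relation.ReflTransGen.tail hα (h.twist_pow n)
    rcases dichotomy hρ hσ hgen hlen hsn ((h.twist_pow n).rotate) with c | c
    · obtain ⟨a, b, z, g1, g2⟩ := c
      left
      rw [hδ₁.unique g1, hδ₂.unique g2]
    · obtain ⟨a, b, z, g1, g2⟩ := c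
      right
      have hinv : HasEig ((σ (β * α ^ n))⁻¹).val δ₂ (fun i => 1 / ξ' n (Fin.rev i)) := by
        have h1 := hδ₂.inv
        have h2 : ((σ (β * α ^ n))⁻¹).val = ((σ (β * α ^ n)).val)⁻¹ := by
          rw [Matrix.SpecialLinearGroup.coe_inv, Matrix.inv_def, (σ (β * α ^ n)).2]
          simp
        rw [h2]
        exact h1
      rw [hδ₁.unique g1, hinv.unique g2]
  have hfr : (∃ᶠ n in atTop, ξ n = ξ' n) ∨
      ∃ᶠ n in atTop, ξ n = fun i => 1 / ξ' n (Fin.rev i) := by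
    rw [← Filter.frequently_or_distrib]
    exact Filter.Frequently.of_forall hty
  rcases hfr with hf | hf
  · have h0 := same_zero e2 e2' hind hf
    obtain ⟨δ₁, hδ₁⟩ := e3 0
    obtain ⟨δ₂, hδ₂⟩ := e3' 0
    rw [pow_zero, mul_one] at hδ₁ hδ₂
    rw [← h0] at hδ₂
    exact ⟨δ₁, δ₂, ξ 0, hδ₁, hδ₂⟩
  · exact (not_opposite hr e2 e2' (prod_eq_one e1) hind hf).elim

/-- Propagation of the opposite type along a once-intersecting pair. -/
lemma step_minus (hr : 2 ≤ r) (hρ : Transverse hg ρ) (hσ : Transverse hg σ)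
    (hgen : Generic hg ρ)
    (hlen : ∀ γ, Simple hg γ → hilbertLength (ρ γ) = hilbertLength (σ γ))
    {α β : SurfaceGroup g} (hα : Simple hg α) (h : Once hg α β)
    (hs : SameEig (ρ α) (σ α)⁻¹) : SameEig (ρ β) (σ β)⁻¹ := by
  have inv_eig : ∀ (γ : SurfaceGroup g) (δ : ℝ) (z : Fin (r + 1) → ℝ),
      HasEig (σ γ).val δ z → HasEig ((σ γ)⁻¹).val δ (fun i => 1 / z (Fin.rev i)) := by
    intro γ δ z hz
    have h1 := hz.inv
    have h2 : ((σ γ)⁻¹).val = ((σ γ).val)⁻¹ := by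
      rw [Matrix.SpecialLinearGroup.coe_inv, Matrix.inv_def, (σ γ).2]
      simp
    rw [h2]
    exact h1
  obtain ⟨ε, x, B, κ, ξ, e1, e2, e3⟩ := pair_of_once hρ h
  obtain ⟨ε', x', B', κ', ξ', e1', e2', e3'⟩ := pair_of_once hσ h
  obtain ⟨δ, δ', y, f1, f2⟩ := hs
  have hx : x = y := e1.unique f1
  have hx' : (fun i => 1 / x' (Fin.rev i)) = y := (inv_eig α ε' x' e1').unique f2
  subst hx
  have hind := hgen α hα _ _ e1
  have hd := e2'.dual
  rw [hx'] at hd
  have hty : ∀ n, (ξ n = fun i => 1 / ξ' n (Fin.rev i)) ∨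
      ξ n = fun i => 1 / (fun i => 1 / ξ' n (Fin.rev i)) (Fin.rev i) := by
    intro n
    obtain ⟨δ₁, hδ₁⟩ := e3 n
    obtain ⟨δ₂, hδ₂⟩ := e3' n
    have hsn : Simple hg (β * α ^ n) := Relation.ReflTransGen.tail hα (h.twist_pow n)
    rcases dichotomy hρ hσ hgen hlen hsn ((h.twist_pow n).rotate) with c | c
    · obtain ⟨a, b, z, g1, g2⟩ := c
      right
      rw [hδ₁.unique g1, hδ₂.unique g2]
      funext i
      simp
    · obtain ⟨a, b, z, g1, g2⟩ := c
      left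
      rw [hδ₁.unique g1, (inv_eig _ _ _ hδ₂).unique g2]
  have hfr : (∃ᶠ n in atTop, ξ n = fun i => 1 / ξ' n (Fin.rev i)) ∨
      ∃ᶠ n in atTop, ξ n = fun i => 1 / (fun i => 1 / ξ' n (Fin.rev i)) (Fin.rev i) := by
    rw [← Filter.frequently_or_distrib]
    exact Filter.Frequently.of_forall hty
  rcases hfr with hf | hf
  · have h0 := same_zero e2 hd hind hf
    obtain ⟨δ₁, hδ₁⟩ := e3 0
    obtain ⟨δ₂, hδ₂⟩ := e3' 0
    rw [pow_zero, mul_one] at hδ₁ hδ₂
    have h3 := inv_eig β _ _ hδ₂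
    rw [← h0] at h3
    exact ⟨δ₁, δ₂, ξ 0, hδ₁, h3⟩
  · exact (not_opposite hr e2 hd (prod_eq_one e1) hind hf).elim

/-- Generic simple Hilbert length rigidity. -/
theorem main (hr : 2 ≤ r) (hρ : Transverse hg ρ) (hσ : Transverse hg σ)
    (hgen : Generic hg ρ)
    (hlen : ∀ γ, Simple hg γ → hilbertLength (ρ γ) = hilbertLength (σ γ)) :
    (∀ γ, Simple hg γ → SameEig (ρ γ) (σ γ)) ∨
      (∀ γ, Simple hg γ → SameEig (ρ γ) (σ γ)⁻¹) := by
  have h0 : Once hg (genA hg) (genB hg) := ⟨MulEquiv.refl _, rfl, rfl⟩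
  rcases dichotomy hρ hσ hgen hlen Relation.ReflTransGen.refl h0 with c | c
  · left
    intro γ hγ
    induction hγ with
    | refl => exact c
    | tail hab hbc ih => exact step_plus hr hρ hσ hgen hlen hab hbc ih
  · right
    intro γ hγ
    induction hγ with
    | refl => exact c
    | tail hab hbc ih => exact step_minus hr hρ hσ hgen hlen hab hbc ih

end Pool.Agent.W_a2e04a_h82
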